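import Pool.Agent.H30.MZ.Stm

set_option autoImplicit false

namespace Pool.Agent.H30.MZ

theorem AUT_proved : S_AUT := by
  intro P α _ _ F w
  classical
  let Reach : P → Set P := fun s => {t | ∃ v : List α, v.foldl F s = t}
  obtain ⟨s, hs⟩ : ∃ s : P, ∀ t : P, (Reach s).ncard ≤ (Reach t).ncard := by
    obtain ⟨s, hs⟩ := Finite.exists_min (fun s : P => (Reach s).ncard)
    exact ⟨s, hs⟩
  have hr : ∀ t ∈ Reach s, s ∈ Reach t := by
    rintro t ⟨v, hv⟩
    have hsub : Reach t ⊆ Reach s := by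
      rintro t' ⟨v', hv'⟩
      exact ⟨v ++ v', by rw [List.foldl_append, hv, hv']⟩
    have heq : Reach t = Reach s :=
      Set.eq_of_subset_of_ncard_le hsub (hs t) (Set.toFinite _)
    rw [heq]
    exact ⟨[], rfl⟩
  have h2 : ∀ c, ∃ v : List α, (w c :: v).foldl F s = s := by
    intro c
    obtain ⟨v, hv⟩ := hr (F s (w c)) ⟨[w c], rfl⟩
    exact ⟨v, hv⟩
  choose v hv using h2
  exact ⟨s, v, hv⟩

end Pool.Agent.H30.MZ
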