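import Pool.Agent.H30.MZ.Stm

/-!
# MZ, part CIRC (helper42)
-/

set_option autoImplicit false

namespace Pool.Agent.H30.MZ

open Set Filter Topology MeasureTheory

namespace Circ

/-- The point of the circle with the digits `x`. -/
noncomputable def pt {a : ℕ} (x : ℕ → Fin a) : AddCircle (1 : ℝ) :=
  ((Real.ofDigits x : ℝ) : AddCircle (1 : ℝ))

theorem coe_int (k : ℤ) : ((k : ℝ) : AddCircle (1 : ℝ)) = 0 := by
  rw [AddCircle.coe_eq_zero_iff]
  exact ⟨k, by simp⟩

theorem coe_eq {r s : ℝ} (h : (r : AddCircle (1 : ℝ)) = (s : AddCircle (1 : ℝ))) :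
    ∃ k : ℤ, r = s + k := by
  have h1 : ((r - s : ℝ) : AddCircle (1 : ℝ)) = 0 := by rw [AddCircle.coe_sub, h, sub_self]
  rw [AddCircle.coe_eq_zero_iff] at h1
  obtain ⟨n, hn⟩ := h1
  exact ⟨n, by rw [zsmul_eq_mul, mul_one] at hn; linarith⟩

theorem shift_pt {a : ℕ} (x : ℕ → Fin a) : a • pt x = pt (fun n => x (n + 1)) := by
  unfold pt
  have ha : (a : ℝ) ≠ 0 := by
    have := Fin.pos (x 0)
    exact_mod_cast this.ne'
  rw [← AddCircle.coe_nsmul, nsmul_eq_mul, Real.ofDigits_eq_sum_add_ofDigits x 1]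
  have e : (a : ℝ) * (∑ i ∈ Finset.range 1, Real.ofDigitsTerm x i +
      ((a : ℝ) ^ 1)⁻¹ * Real.ofDigits fun i => x (i + 1)) =
      (((x 0 : ℕ) : ℤ) : ℝ) + Real.ofDigits fun i => x (i + 1) := by
    rw [Finset.sum_range_one, Real.ofDigitsTerm]
    push_cast
    simp only [pow_one]
    field_simp
  rw [e, AddCircle.coe_add, coe_int, zero_add]

theorem shifts_pt {a : ℕ} (x : ℕ → Fin a) (i : ℕ) :
    a ^ i • pt x = pt (fun n => x (n + i)) := by
  induction i with
  | zero => simp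
  | succ i ih =>
    rw [pow_succ', mul_smul, ih, shift_pt]
    congr 1
    funext n
    congr 1
    ring

theorem dist_pt {a : ℕ} (x y : ℕ → Fin a) (N : ℕ) (h : ∀ n < N, x n = y n) :
    dist (pt x) (pt y) ≤ ((a : ℝ) ^ N)⁻¹ := by
  unfold pt
  rw [dist_eq_norm, ← AddCircle.coe_sub]
  refine le_trans ?_ (Real.abs_ofDigits_sub_ofDigits_le h)
  have h2 : ‖((Real.ofDigits x - Real.ofDigits y : ℝ) : UnitAddCircle)‖ ≤
      |Real.ofDigits x - Real.ofDigits y| := by
    rw [UnitAddCircle.norm_eq]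
    simpa using round_le (Real.ofDigits x - Real.ofDigits y) 0
  exact h2

end Circ

open Circ

theorem CIRC_proved : S_CIRC := by
  intro a b X ha hXc hXn hsh hmin hD
  have hcont : Continuous (pt : (ℕ → Fin a) → AddCircle (1 : ℝ)) :=
    (AddCircle.continuous_mk' (1 : ℝ)).comp Real.continuous_ofDigits
  have hcomp : IsCompact (pt '' X) := (hXc.isCompact).image hcont
  refine ⟨⟨⟨pt '' X, hcomp⟩, hXn.image _⟩, rfl, ⟨?_, ?_, ?_⟩, ?_⟩
  · -- infinite
    intro hfin
    obtain ⟨x, hx⟩ := hXn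
    have hmem : ∀ i : ℕ, pt (fun n => x (n + i)) ∈ pt '' X := by
      intro i
      refine ⟨_, ?_, rfl⟩
      induction i with
      | zero => exact hx
      | succ i ih =>
        have := hsh _ ih
        convert! this using 2
        ring_nf
    have hfin' : (pt '' X).Finite := hfin
    obtain ⟨i, j, hij, he⟩ : ∃ i j : ℕ, i < j ∧
        pt (fun n => x (n + i)) = pt (fun n => x (n + j)) := by
      have := hfin'.to_subtype
      obtain ⟨i, j, hne, he⟩ := Finite.exists_ne_map_eq_of_infinite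
        (fun i : ℕ => (⟨pt (fun n => x (n + i)), hmem i⟩ : pt '' X))
      simp only [Subtype.mk.injEq] at he
      rcases lt_or_gt_of_ne hne with h | h
      · exact ⟨i, j, h, he⟩
      · exact ⟨j, i, h, he.symm⟩
    rw [← shifts_pt, ← shifts_pt] at he
    unfold pt at he
    rw [← AddCircle.coe_nsmul, ← AddCircle.coe_nsmul] at he
    obtain ⟨k, hk⟩ := coe_eq he
    rw [nsmul_eq_mul, nsmul_eq_mul] at hk
    push_cast at hk
    -- `q r` is an integer
    have hq : (0 : ℝ) < (a : ℝ) ^ j - (a : ℝ) ^ i := by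
      have : (a : ℝ) ^ i < (a : ℝ) ^ j :=
        pow_lt_pow_right₀ (by exact_mod_cast (by omega : 1 < a)) hij
      linarith
    set q : ℝ := (a : ℝ) ^ j - (a : ℝ) ^ i with hqdef
    have hqr : q * Real.ofDigits x = ((-k : ℤ) : ℝ) := by
      rw [hqdef]; push_cast; linarith
    obtain ⟨T, hT⟩ := hD x hx (1 / (4 * q)) (by positivity)
    obtain ⟨t, _, m, hm⟩ := hT (1 / (2 * q))
    have h1 : |2 * q * ((b : ℝ) ^ t * Real.ofDigits x - 1 / (2 * q) - m)| < 2 * q * (1 / (4 * q)) := by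
      rw [abs_mul, abs_of_pos (by positivity : (0 : ℝ) < 2 * q)]
      exact mul_lt_mul_of_pos_left hm (by positivity)
    have h2 : 2 * q * (1 / (4 * q)) = 1 / 2 := by field_simp; norm_num
    have h3 : 2 * q * ((b : ℝ) ^ t * Real.ofDigits x - 1 / (2 * q) - m) =
        ((2 * ((b : ℤ) ^ t * (-k) - ((a : ℤ) ^ j - (a : ℤ) ^ i) * m) - 1 : ℤ) : ℝ) := by
      push_cast
      have e1 : 2 * q * ((b : ℝ) ^ t * Real.ofDigits x - 1 / (2 * q) - m) =
          2 * ((b : ℝ) ^ t * (q * Real.ofDigits x) - q * m) - 1 := by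
        field_simp
        ring
      rw [e1, hqr, hqdef]
      push_cast
      ring
    rw [h2, h3] at h1
    have h4 : |(2 * ((b : ℤ) ^ t * (-k) - ((a : ℤ) ^ j - (a : ℤ) ^ i) * m) - 1 : ℤ)| < 1 := by
      have : (|(2 * ((b : ℤ) ^ t * (-k) - ((a : ℤ) ^ j - (a : ℤ) ^ i) * m) - 1 : ℤ)| : ℝ) < 1 := by
        rw [← Int.cast_abs] at h1 ⊢
        linarith
      exact_mod_cast this
    rw [Int.abs_lt_one_iff] at h4
    omega
  · -- invariance
    rintro _ ⟨x, hx, rfl⟩
    rw [shift_pt]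
    exact ⟨_, hsh x hx, rfl⟩
  · -- minimality
    rintro _ ⟨x, hx, rfl⟩ _ ⟨x', hx', rfl⟩
    refine Metric.mem_closure_iff.2 fun ε hε => ?_
    have ha1 : (1 : ℝ) < a := by exact_mod_cast (by omega : 1 < a)
    obtain ⟨N, hN⟩ := exists_pow_lt_of_lt_one hε (inv_lt_one_of_one_lt₀ ha1)
    obtain ⟨i, hi⟩ := hmin x hx x' hx' N
    refine ⟨_, ⟨i, rfl⟩, ?_⟩
    simp only
    rw [shifts_pt, dist_comm]
    refine lt_of_le_of_lt (dist_pt _ _ N hi) ?_
    rwa [inv_pow] at hN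
  · intro r hr
    obtain ⟨x, hx, hxr⟩ := hr
    obtain ⟨k, hk⟩ := coe_eq hxr.symm
    exact ⟨x, hx, k, hk⟩

end Pool.Agent.H30.MZ
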