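import Pool.Agent.H30.MZ.Stm

/-!
# MZ, part CODE: approximation of an infinite minimal set by symbolic sets
-/

set_option autoImplicit false

namespace Pool.Agent.H30.MZ.Code

open Set Filter Topology

/-! ## Concatenations -/

theorem cat_lt {α : Type} (l : ℕ) (W : Bool → ℕ → α) (f : ℕ → Bool) (t o : ℕ) (ho : o < l) :
    cat l W f (l * t + o) = W (f t) o := by
  unfold cat
  have h1 : (l * t + o) / l = t := by
    rw [Nat.mul_add_div (by omega), Nat.div_eq_of_lt ho]; omega
  have h2 : (l * t + o) % l = o := by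
    rw [Nat.mul_add_mod, Nat.mod_eq_of_lt ho]
  rw [h1, h2]

/-- The two words. -/
def WW {α : Type} (w : ℕ → α) (p1 p2 p3 : ℕ) : Bool → ℕ → α
  | true => fun i => w (p1 + i)
  | false => fun i => if i < p3 - p2 then w (p2 + i) else w (p1 + (i - (p3 - p2)))

theorem window {α : Type} (w : ℕ → α) (p1 p2 p3 N : ℕ) (h12 : p1 + N < p2) (h23 : p2 + N < p3)
    (hu2 : ∀ j < N, w (p1 + j) = w (p2 + j)) (hu3 : ∀ j < N, w (p2 + j) = w (p3 + j))
    (f : ℕ → Bool) (q : ℕ) :
    ∃ P, ∀ i < N, cat (p3 - p1) (WW w p1 p2 p3) f (q + i) = w (P + i) := by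
  set l := p3 - p1 with hl
  have hl0 : 0 < l := by omega
  obtain ⟨t, o, ho, rfl⟩ : ∃ t o, o < l ∧ q = l * t + o :=
    ⟨q / l, q % l, Nat.mod_lt _ hl0, (Nat.div_add_mod _ _).symm⟩
  -- the beginning of each word
  have hstart : ∀ (c : Bool) (j : ℕ), j < N → WW w p1 p2 p3 c j = w (p3 + j) := by
    intro c j hj
    cases c with
    | true => 
      change w (p1 + j) = _
      rw [hu2 j hj, hu3 j hj]
    | false =>
      change (if j < p3 - p2 then w (p2 + j) else w (p1 + (j - (p3 - p2)))) = _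
      rw [if_pos (by omega), hu3 j hj]
  have hnext : ∀ i < N, ¬ (o + i < l) →
      cat l (WW w p1 p2 p3) f (l * t + o + i) = w (p3 + (o + i - l)) := by
    intro i hi hoi
    have : l * t + o + i = l * (t + 1) + (o + i - l) := by
      rw [Nat.mul_add, mul_one]; omega
    rw [this, cat_lt _ _ _ _ _ (by omega), hstart _ _ (by omega)]
  have hcur : ∀ i, o + i < l →
      cat l (WW w p1 p2 p3) f (l * t + o + i) = WW w p1 p2 p3 (f t) (o + i) := by
    intro i hoi
    rw [add_assoc, cat_lt _ _ _ _ _ hoi]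
  cases hft : f t with
  | true =>
    refine ⟨p1 + o, fun i hi => ?_⟩
    by_cases hoi : o + i < l
    · rw [hcur i hoi, hft]
      change w (p1 + (o + i)) = _
      congr 1; omega
    · rw [hnext i hi hoi]
      congr 1; omega
  | false =>
    have hF : ∀ j, WW w p1 p2 p3 false j =
      (if j < p3 - p2 then w (p2 + j) else w (p1 + (j - (p3 - p2)))) := fun j => rfl
    by_cases ho2 : o < p3 - p2
    · refine ⟨p2 + o, fun i hi => ?_⟩
      have hoi : o + i < l := by omega
      rw [hcur i hoi, hft, hF]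
      split_ifs with h
      · congr 1; omega
      · rw [hu2 _ (by omega), hu3 _ (by omega)]
        congr 1; omega
    · refine ⟨p1 + (o - (p3 - p2)), fun i hi => ?_⟩
      by_cases hoi : o + i < l
      · rw [hcur i hoi, hft, hF, if_neg (by omega)]
        congr 1; omega
      · rw [hnext i hi hoi, ← hu3 _ (by omega)]
        congr 1; omega

/-! ## The coding of the minimal set -/

theorem norm_coe_le (r : ℝ) : ‖(r : AddCircle (1 : ℝ))‖ ≤ |r| := by
  rw [AddCircle.norm_eq]
  have h := round_le (1⁻¹ * r) 0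
  simpa using h

variable {a : ℕ}

/-- The point of the circle with the digits `x`. -/
noncomputable def pt (x : ℕ → Fin a) : AddCircle (1 : ℝ) := ((Real.ofDigits x : ℝ) : AddCircle (1 : ℝ))

theorem continuous_pt : Continuous (pt : (ℕ → Fin a) → AddCircle (1 : ℝ)) :=
  (AddCircle.continuous_mk' 1).comp Real.continuous_ofDigits

theorem mul_ofDigits (ha : 2 ≤ a) (x : ℕ → Fin a) :
    (a : ℝ) * Real.ofDigits x = ((x 0 : ℕ) : ℝ) + Real.ofDigits (fun n => x (n + 1)) := by
  have ha0 : (a : ℝ) ≠ 0 := by positivity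
  rw [Real.ofDigits_eq_sum_add_ofDigits x 1]
  simp only [Finset.range_one, Finset.sum_singleton, Real.ofDigitsTerm]
  field_simp
  simp
  ring

theorem pt_shift (ha : 2 ≤ a) (x : ℕ → Fin a) : pt (fun n => x (n + 1)) = a • pt x := by
  unfold pt
  rw [← AddCircle.coe_nsmul, nsmul_eq_mul, mul_ofDigits ha, AddCircle.coe_add]
  have : ((((x 0 : ℕ) : ℝ)) : AddCircle (1 : ℝ)) = 0 := by
    rw [AddCircle.coe_eq_zero_iff]
    exact ⟨((x 0 : ℕ) : ℤ), by simp⟩
  rw [this, zero_add]

theorem pt_shift_pow (ha : 2 ≤ a) (x : ℕ → Fin a) (n : ℕ) :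
    pt (fun i => x (i + n)) = a ^ n • pt x := by
  induction n with
  | zero => simp
  | succ n ih =>
    have h := pt_shift ha (fun i => x (i + n))
    rw [ih] at h
    rw [pow_succ', mul_smul, ← h]
    congr 1
    funext i
    congr 1
    omega

theorem dist_pt_le (x y : ℕ → Fin a) (N : ℕ) (h : ∀ i < N, x i = y i) :
    dist (pt x) (pt y) ≤ ((a : ℝ) ^ N)⁻¹ := by
  have h1 := Real.abs_ofDigits_sub_ofDigits_le h
  refine le_trans ?_ h1
  rw [dist_eq_norm]
  unfold pt
  rw [← AddCircle.coe_sub]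
  have := norm_coe_le (Real.ofDigits x - Real.ofDigits y)
  exact this

variable {K : Set (AddCircle (1 : ℝ))}

theorem zero_notMem (hK : IsMin a K) : (0 : AddCircle (1 : ℝ)) ∉ K := by
  intro h0
  apply hK.1
  have h := hK.2.2 0 h0
  have : (range fun n : ℕ => a ^ n • (0 : AddCircle (1 : ℝ))) = {0} := by
    ext y
    simp
  rw [this, closure_singleton] at h
  exact (finite_singleton _).subset h

theorem pt_shift_mem (ha : 2 ≤ a) (hK : IsMin a K) (x : ℕ → Fin a) (hx : pt x ∈ K) (n : ℕ) :
    pt (fun i => x (i + n)) ∈ K := by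
  induction n with
  | zero => simpa using hx
  | succ n ih =>
    have h := pt_shift ha (fun i => x (i + n))
    have h2 := hK.2.1 _ ih
    rw [← h] at h2
    have h3 : (fun i => x (i + (n + 1))) = fun i => x (i + 1 + n) := by
      funext i
      congr 1
      omega
    rw [h3]
    exact h2

/-- If the first digits differ the points are different. -/
theorem pt_ne_of_lt (ha : 2 ≤ a) (hK : IsMin a K) (x y : ℕ → Fin a) (hx : pt x ∈ K)
    (hlt : (x 0 : ℕ) < y 0) : pt x ≠ pt y := by
  intro heq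
  have h0 := zero_notMem hK
  have hx' := pt_shift_mem ha hK x hx 1
  set u := Real.ofDigits (fun n => x (n + 1)) with hu
  set v := Real.ofDigits (fun n => y (n + 1)) with hv
  have hu0 : 0 ≤ u := Real.ofDigits_nonneg _
  have hu1 : u ≤ 1 := Real.ofDigits_le_one _
  have hv0 : 0 ≤ v := Real.ofDigits_nonneg _
  have hv1 : v ≤ 1 := Real.ofDigits_le_one _
  have e1 := mul_ofDigits ha x
  have e2 := mul_ofDigits ha y
  rw [← hu] at e1
  rw [← hv] at e2
  -- the difference is an integer
  have h1 : ∃ k : ℤ, Real.ofDigits y - Real.ofDigits x = k := by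
    unfold pt at heq
    have h2 : ((Real.ofDigits y - Real.ofDigits x : ℝ) : AddCircle (1 : ℝ)) = 0 := by
      rw [AddCircle.coe_sub, heq, sub_self]
    rw [AddCircle.coe_eq_zero_iff] at h2
    obtain ⟨k, hk⟩ := h2
    exact ⟨k, by rw [← hk]; simp⟩
  obtain ⟨k, hk⟩ := h1
  have e3 : (a : ℝ) * k = ((y 0 : ℕ) : ℝ) - ((x 0 : ℕ) : ℝ) + (v - u) := by
    rw [← hk, mul_sub, e1, e2]; ring
  have hya : ((y 0 : ℕ) : ℝ) + 1 ≤ a := by exact_mod_cast (y 0).2
  have hxy : ((x 0 : ℕ) : ℝ) + 1 ≤ ((y 0 : ℕ) : ℝ) := by exact_mod_cast hlt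
  have hx0 : (0 : ℝ) ≤ ((x 0 : ℕ) : ℝ) := Nat.cast_nonneg _
  have ha' : (2 : ℝ) ≤ a := by exact_mod_cast ha
  -- `u` is `0` or `1`
  have hu01 : u = 0 ∨ u = 1 := by
    by_cases hk0 : k ≤ 0
    · right
      have : (k : ℝ) ≤ 0 := by exact_mod_cast hk0
      have : (a : ℝ) * k ≤ 0 := mul_nonpos_of_nonneg_of_nonpos (by linarith) this
      linarith
    · left
      have : (1 : ℝ) ≤ k := by exact_mod_cast (by omega : (1 : ℤ) ≤ k)
      have : (a : ℝ) ≤ a * k := le_mul_of_one_le_right (by linarith) this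
      linarith
  apply h0
  have : pt (fun i => x (i + 1)) = 0 := by
    unfold pt
    rw [← hu, AddCircle.coe_eq_zero_iff]
    rcases hu01 with h | h
    · exact ⟨0, by simp [h]⟩
    · exact ⟨1, by simp [h]⟩
  rw [← this]
  exact hx'

theorem pt_injOn (ha : 2 ≤ a) (hK : IsMin a K) (x y : ℕ → Fin a) (hx : pt x ∈ K)
    (heq : pt x = pt y) : x = y := by
  classical
  by_contra hne
  have hex : ∃ n, x n ≠ y n := by
    by_contra h
    push Not at h
    exact hne (funext h)
  obtain ⟨n, hn⟩ := hex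
  have h1 : pt (fun i => x (i + n)) = pt (fun i => y (i + n)) := by
    rw [pt_shift_pow ha, pt_shift_pow ha, heq]
  have h2 := pt_shift_mem ha hK x hx n
  have hne' : (x n : ℕ) ≠ y n := fun h => hn (Fin.ext h)
  rcases lt_or_gt_of_ne hne' with h | h
  · exact pt_ne_of_lt ha hK _ _ h2 (by simpa using h) h1
  · exact pt_ne_of_lt ha hK _ _ (h1 ▸ h2) (by simpa using h) h1.symm

/-- Every word of a point of the symbolic set occurs in every other point. -/
theorem occurs (ha : 2 ≤ a) (hc : IsClosed K) (hK : IsMin a K) (x y : ℕ → Fin a)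
    (hx : pt x ∈ K) (hy : pt y ∈ K) (N : ℕ) : ∃ n, ∀ i < N, x (n + i) = y i := by
  by_contra hno
  push Not at hno
  set C : Set (ℕ → Fin a) := {z | pt z ∈ K} ∩ {z | ∃ i < N, z i ≠ y i} with hC
  have hclosed : IsClosed C := by
    apply IsClosed.inter
    · exact hc.preimage continuous_pt
    · have : {z : ℕ → Fin a | ∃ i < N, z i ≠ y i} =
          ⋃ i ∈ Finset.range N, {z : ℕ → Fin a | z i ≠ y i} := by
        ext z
        simp
      rw [this]
      apply isClosed_biUnion_finset
      intro i _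
      have h2 : IsOpen {z : ℕ → Fin a | z i = y i} := by
        have h3 : Continuous fun z : ℕ → Fin a => z i := continuous_apply i
        exact (isOpen_discrete ({y i} : Set (Fin a))).preimage h3
      exact isClosed_compl_iff.2 h2
  have hcomp : IsCompact C := hclosed.isCompact
  have himg : IsClosed (pt '' C) := (hcomp.image continuous_pt).isClosed
  have hsub : (range fun n : ℕ => a ^ n • pt x) ⊆ pt '' C := by
    rintro _ ⟨n, rfl⟩
    refine ⟨fun i => x (i + n), ⟨pt_shift_mem ha hK x hx n, ?_⟩, pt_shift_pow ha x n⟩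
    obtain ⟨i, hi, h⟩ := hno n
    exact ⟨i, hi, by simpa only [add_comm i n] using h⟩
  have h3 : pt y ∈ pt '' C := (closure_minimal hsub himg) (hK.2.2 _ hx hy)
  obtain ⟨z, hz, hzy⟩ := h3
  have := pt_injOn ha hK z y hz.1 hzy
  obtain ⟨i, hi, h⟩ := hz.2
  exact h (congrFun this i)

/-- ... and arbitrarily late. -/
theorem occurs_late (ha : 2 ≤ a) (hc : IsClosed K) (hK : IsMin a K) (x y : ℕ → Fin a)
    (hx : pt x ∈ K) (hy : pt y ∈ K) (N M : ℕ) : ∃ n, M ≤ n ∧ ∀ i < N, x (n + i) = y i := by
  obtain ⟨n, hn⟩ := occurs ha hc hK (fun i => x (i + M)) y (pt_shift_mem ha hK x hx M) hy N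
  refine ⟨n + M, by omega, fun i hi => ?_⟩
  rw [← hn i hi]
  congr 1
  omega

theorem not_periodic (ha : 2 ≤ a) (hK : IsMin a K) (x : ℕ → Fin a) (hx : pt x ∈ K)
    (p : ℕ) (hp : 0 < p) (h : ∀ i, x (i + p) = x i) : False := by
  apply hK.1
  have hper : ∀ n i, x (i + p * n) = x i := by
    intro n
    induction n with
    | zero => intro i; simp
    | succ n ih =>
      intro i
      rw [mul_add, mul_one, ← add_assoc, h, ih]
  have hfin : (range fun n : ℕ => a ^ n • pt x).Finite := by
    apply Set.Finite.subset ((Finset.range p).finite_toSet.image fun n => a ^ n • pt x)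
    rintro _ ⟨n, rfl⟩
    refine ⟨n % p, by simpa using Nat.mod_lt _ hp, ?_⟩
    simp only
    rw [← pt_shift_pow ha, ← pt_shift_pow ha]
    congr 1
    funext i
    rw [← hper (n / p) (i + n % p)]
    congr 1
    have := Nat.mod_add_div n p
    omega
  have h2 := hK.2.2 _ hx
  rw [hfin.isClosed.closure_eq] at h2
  exact hfin.subset h2

/-- There are right special words of every length. -/
theorem special (ha : 2 ≤ a) (hK : IsMin a K) (x : ℕ → Fin a) (hx : pt x ∈ K) (N : ℕ) :
    ∃ n n', (∀ i < N, x (n + i) = x (n' + i)) ∧ x (n + N) ≠ x (n' + N) := by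
  by_contra hno
  push Not at hno
  obtain ⟨n, n', hne, heq⟩ := Finite.exists_ne_map_eq_of_infinite
    (fun n : ℕ => (fun i : Fin N => x (n + i)))
  have key : ∀ n n' : ℕ, n < n' → (∀ i < N, x (n + i) = x (n' + i)) → False := by
    intro n n' hlt h
    have hall : ∀ j, ∀ i < N, x (n + j + i) = x (n' + j + i) := by
      intro j
      induction j with
      | zero => simpa using h
      | succ j ih =>
        intro i hi
        have h1 := hno (n + j) (n' + j) ih
        by_cases hi' : i + 1 < N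
        · have := ih (i + 1) hi'
          convert! this using 2 <;> omega
        · have hiN : i + 1 = N := by omega
          rw [← hiN] at h1
          convert! h1 using 2 <;> omega
    have hall2 : ∀ j, x (n + j) = x (n' + j) := by
      intro j
      by_cases hj : j < N
      · exact h j hj
      · have := hno (n + (j - N)) (n' + (j - N)) (hall (j - N))
        convert! this using 2 <;> omega
    refine not_periodic ha hK (fun i => x (i + n)) (pt_shift_mem ha hK x hx n) (n' - n)
      (by omega) ?_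
    intro i
    have := hall2 i
    rw [show i + (n' - n) + n = n' + i by omega, ← this, add_comm]
  rcases lt_or_gt_of_ne hne with h | h
  · exact key n n' h fun i hi => congrFun heq ⟨i, hi⟩
  · exact key n' n h fun i hi => (congrFun heq ⟨i, hi⟩).symm

/-- **CODE.** -/
theorem _root_.Pool.Agent.H30.MZ.CODE_proved : S_CODE := by
  intro a K ha hc hK ε hε
  have : NeZero a := ⟨by omega⟩
  -- a point of the symbolic set
  obtain ⟨x0, hx0⟩ := hK.1.nonempty
  obtain ⟨w, hw⟩ : ∃ w : ℕ → Fin a, pt w ∈ K := by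
    obtain ⟨r, hr⟩ := QuotientAddGroup.mk_surjective x0
    have hfr : ((Int.fract r : ℝ) : AddCircle (1 : ℝ)) = x0 := by
      rw [← hr]
      change ((Int.fract r : ℝ) : AddCircle (1 : ℝ)) = (r : AddCircle (1 : ℝ))
      rw [← sub_eq_zero, ← AddCircle.coe_sub, AddCircle.coe_eq_zero_iff]
      exact ⟨-⌊r⌋, by rw [Int.fract]; simp⟩
    refine ⟨Real.digits (Int.fract r) a, ?_⟩
    unfold pt
    rw [Real.ofDigits_digits (by omega) ⟨Int.fract_nonneg r, Int.fract_lt_one r⟩, hfr]
    exact hx0
  have ha1 : (1 : ℝ) < a := by exact_mod_cast (by omega : 1 < a)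
  obtain ⟨N, hN⟩ : ∃ N : ℕ, ((a : ℝ) ^ N)⁻¹ < ε / 4 := by
    obtain ⟨N, hN⟩ := exists_pow_lt_of_lt_one (show (0 : ℝ) < ε / 4 by positivity)
      (inv_lt_one_of_one_lt₀ ha1)
    exact ⟨N, by rwa [← inv_pow]⟩
  -- the net
  have hKc : IsCompact K := hc.isCompact
  have hcover : ∃ F : Finset ℕ, ∀ k ∈ K, ∃ n ∈ F, dist (pt (fun i => w (i + n))) k < ε / 2 := by
    have h1 : K ⊆ ⋃ n : ℕ, Metric.ball (pt (fun i => w (i + n))) (ε / 2) := by
      intro k hk
      have h2 := hK.2.2 _ hw hk
      rw [Metric.mem_closure_iff] at h2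
      obtain ⟨_, ⟨n, rfl⟩, hn⟩ := h2 (ε / 2) (by positivity)
      refine mem_iUnion.2 ⟨n, ?_⟩
      rw [Metric.mem_ball, pt_shift_pow ha]
      exact hn
    obtain ⟨F, hF⟩ := hKc.elim_finite_subcover _ (fun n => Metric.isOpen_ball) h1
    refine ⟨F, fun k hk => ?_⟩
    obtain ⟨n, hn⟩ := mem_iUnion.1 (hF hk)
    obtain ⟨hnF, hn⟩ := mem_iUnion.1 hn
    exact ⟨n, hnF, by rw [dist_comm]; exact hn⟩
  obtain ⟨F, hF⟩ := hcover
  obtain ⟨n1, n2, hn12, hne⟩ := special ha hK w hw N
  -- late occurrences of the words of the net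
  have hnet : ∀ n : ℕ, ∃ P, n1 ≤ P ∧ ∀ i < N, w (P + i) = w (i + n) := fun n =>
    occurs_late ha hc hK w (fun i => w (i + n)) hw (pt_shift_mem ha hK w hw n) N n1
  choose Pn hPn1 hPn2 using hnet
  obtain ⟨p2, hp2a, hp2b⟩ := occurs_late ha hc hK w (fun i => w (i + n2)) hw
    (pt_shift_mem ha hK w hw n2) (N + 1) (n1 + N + 1 + ∑ n ∈ F, (Pn n + N))
  obtain ⟨p3, hp3a, hp3b⟩ := occurs_late ha hc hK w (fun i => w (i + n1)) hw
    (pt_shift_mem ha hK w hw n1) N (p2 + N + 1)
  have hu2 : ∀ j < N, w (n1 + j) = w (p2 + j) := by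
    intro j hj
    rw [hp2b j (by omega), hn12 j hj, add_comm]
  have hu3 : ∀ j < N, w (p2 + j) = w (p3 + j) := by
    intro j hj
    rw [hp3b j hj, ← hu2 j hj, add_comm]
  have hnetF : ∀ n ∈ F, Pn n + N < p2 := by
    intro n hn
    have : Pn n + N ≤ ∑ n ∈ F, (Pn n + N) :=
      Finset.single_le_sum (f := fun n => Pn n + N) (fun _ _ => Nat.zero_le _) hn
    omega
  refine ⟨p3 - n1, WW w n1 p2 p3, ⟨by omega, N, by omega, ?_⟩, ?_⟩
  · change w (n1 + N) ≠ (if N < p3 - p2 then w (p2 + N) else w (n1 + (N - (p3 - p2))))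
    rw [if_pos (by omega), hp2b N (by omega), add_comm N n2]
    exact hne
  · intro X hX _ hXs
    have hXs' : ∀ (n : ℕ) (x : ℕ → Fin a), x ∈ X → (fun i => x (i + n)) ∈ X := by
      intro n
      induction n with
      | zero => intro x hx; simpa using hx
      | succ n ih =>
        intro x hx
        have := ih _ (hXs x hx)
        convert! this using 3
    constructor
    · intro x hx
      obtain ⟨f, s, hfs⟩ := hX hx
      obtain ⟨P, hP⟩ := window w n1 p2 p3 N (by omega) (by omega) hu2 hu3 f s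
      refine ⟨pt (fun i => w (i + P)), pt_shift_mem ha hK w hw P, ?_⟩
      have h1 := dist_pt_le x (fun i => w (i + P)) N (by
        intro i hi
        rw [hfs, add_comm i s, hP i hi, add_comm])
      change dist (pt x) _ < ε
      linarith
    · intro k hk
      obtain ⟨n, hn, hnk⟩ := hF k hk
      obtain ⟨x, hx⟩ := ‹X.Nonempty›
      obtain ⟨f, s, hfs⟩ := hX hx
      -- the offset of the word in the next block
      set l := p3 - n1 with hl
      have hl0 : 0 < l := by omega
      have hs : s ≤ l * (s + 1) := by nlinarith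
      have hP1 := hPn1 n
      have hP2 := hPn2 n
      have hP3 := hnetF n hn
      obtain ⟨o, ho, hW⟩ : ∃ o, o + N < l ∧ ∀ i < N,
          WW w n1 p2 p3 (f (s + 1)) (o + i) = w (Pn n + i) := by
        cases f (s + 1) with
        | true =>
          refine ⟨Pn n - n1, by omega, fun i hi => ?_⟩
          change w (n1 + (Pn n - n1 + i)) = _
          congr 1; omega
        | false =>
          refine ⟨p3 - p2 + (Pn n - n1), by omega, fun i hi => ?_⟩
          change (if p3 - p2 + (Pn n - n1) + i < p3 - p2 then w (p2 + (p3 - p2 + (Pn n - n1) + i))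
            else w (n1 + (p3 - p2 + (Pn n - n1) + i - (p3 - p2)))) = _
          rw [if_neg (by omega)]
          congr 1; omega
      refine ⟨fun i => x (i + (l * (s + 1) + o - s)), hXs' _ x hx, ?_⟩
      have h1 := dist_pt_le (fun i => x (i + (l * (s + 1) + o - s))) (fun i => w (i + n)) N (by
        intro i hi
        rw [hfs, ← hP2 i hi, ← hW i hi,
          ← cat_lt l (WW w n1 p2 p3) f (s + 1) (o + i) (by omega)]
        congr 1
        omega)
      change dist (pt _) k < ε
      have h2 := dist_triangle (pt (fun i => x (i + (l * (s + 1) + o - s))))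
        (pt (fun i => w (i + n))) k
      linarith

end Pool.Agent.H30.MZ.Code
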