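import Pool.Agent.H30.MZ.Code

/-!
# MZ, part CODE2: approximation of an infinite orbit closure by a symbolic set and a finite
piece of an orbit
-/

set_option autoImplicit false

namespace Pool.Agent.H30.MZ.Code

open Set Filter Topology

variable {a : ℕ}

/-- The first `m` letters of `u`, followed by `y`. -/
def glue {α : Type} (m : ℕ) (u y : ℕ → α) : ℕ → α := fun n => if n < m then u n else y (n - m)

/-- From some place on all words of length `L` occur infinitely often. -/
theorem recur {α : Type} [Finite α] (w : ℕ → α) (L : ℕ) :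
    ∃ M₀ : ℕ, ∀ n, M₀ ≤ n → ∀ M : ℕ, ∃ n', M ≤ n' ∧ ∀ i < L, w (n' + i) = w (n + i) := by
  have h1 : ∀ v : Fin L → α, ∀ᶠ n in (atTop : Filter ℕ), (fun i : Fin L => w (n + i)) = v →
      ∃ᶠ n' in (atTop : Filter ℕ), (fun i : Fin L => w (n' + i)) = v := by
    intro v
    by_cases h : ∃ᶠ n' in (atTop : Filter ℕ), (fun i : Fin L => w (n' + i)) = v
    · exact Eventually.of_forall fun _ _ => h
    · rw [not_frequently] at h
      exact h.mono fun n hn hn' => absurd hn' hn
  have h2 := eventually_all.2 h1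
  obtain ⟨M₀, hM₀⟩ := eventually_atTop.1 h2
  refine ⟨M₀, fun n hn M => ?_⟩
  have h3 := hM₀ n hn _ rfl
  obtain ⟨n', hn', h4⟩ := frequently_atTop.1 h3 M
  exact ⟨n', hn', fun i hi => congrFun h4 ⟨i, hi⟩⟩

/-- There are right special words of every length, arbitrarily late. -/
theorem special2 (w : ℕ → Fin a)
    (hnp : ∀ m p : ℕ, 0 < p → ¬ ∀ i, w (i + m + p) = w (i + m)) (N M₀ : ℕ) :
    ∃ n n', M₀ ≤ n ∧ M₀ ≤ n' ∧ (∀ i < N, w (n + i) = w (n' + i)) ∧ w (n + N) ≠ w (n' + N) := by
  by_contra hno
  push Not at hno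
  obtain ⟨n, n', hne, heq⟩ := Finite.exists_ne_map_eq_of_infinite
    (fun n : ℕ => (fun i : Fin N => w (M₀ + n + i)))
  have key : ∀ n n' : ℕ, n < n' → M₀ ≤ n → (∀ i < N, w (n + i) = w (n' + i)) → False := by
    intro n n' hlt hn h
    have hall : ∀ j, ∀ i < N, w (n + j + i) = w (n' + j + i) := by
      intro j
      induction j with
      | zero => simpa using h
      | succ j ih =>
        intro i hi
        have h1 := hno (n + j) (n' + j) (by omega) (by omega) ih
        by_cases hi' : i + 1 < N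
        · have := ih (i + 1) hi'
          convert! this using 2 <;> omega
        · have hiN : i + 1 = N := by omega
          rw [← hiN] at h1
          convert! h1 using 2 <;> omega
    have hall2 : ∀ j, w (n + j) = w (n' + j) := by
      intro j
      by_cases hj : j < N
      · exact h j hj
      · have := hno (n + (j - N)) (n' + (j - N)) (by omega) (by omega) (hall (j - N))
        convert! this using 2 <;> omega
    apply hnp n (n' - n) (by omega)
    intro i
    have := hall2 i
    rw [show i + n + (n' - n) = n' + i by omega, ← this, add_comm]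
  rcases lt_or_gt_of_ne hne with h | h
  · exact key (M₀ + n) (M₀ + n') (by omega) (by omega) fun i hi => congrFun heq ⟨i, hi⟩
  · exact key (M₀ + n') (M₀ + n) (by omega) (by omega) fun i hi => (congrFun heq ⟨i, hi⟩).symm

theorem not_per (ha : 2 ≤ a) (w : ℕ → Fin a)
    (hinf : (closure (range fun n : ℕ => pt (fun i => w (i + n)))).Infinite) :
    ∀ m p : ℕ, 0 < p → ¬ ∀ i, w (i + m + p) = w (i + m) := by
  intro m p hp h
  apply hinf
  have hper : ∀ n i, w (i + m + p * n) = w (i + m) := by
    intro n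
    induction n with
    | zero => intro i; simp
    | succ n ih =>
      intro i
      have h1 := h (i + p * n)
      have h2 := ih i
      rw [show i + m + p * (n + 1) = i + p * n + m + p by ring, h1, ← h2]
      congr 1; omega
  have hfin : (range fun n : ℕ => pt (fun i => w (i + n))).Finite := by
    apply Set.Finite.subset ((Finset.range (m + p)).finite_toSet.image
      fun n => pt (fun i => w (i + n)))
    rintro _ ⟨n, rfl⟩
    by_cases hn : n < m + p
    · exact ⟨n, by simpa using hn, rfl⟩
    · refine ⟨m + (n - m) % p, by simpa using Nat.mod_lt _ hp, ?_⟩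
      simp only
      congr 1
      funext i
      have h3 := hper ((n - m) / p) (i + (n - m) % p)
      have h4 := Nat.mod_add_div (n - m) p
      rw [show i + (m + (n - m) % p) = i + (n - m) % p + m by omega, ← h3]
      congr 1
      omega
  rw [hfin.isClosed.closure_eq]
  exact hfin

/-- **CODE2.** -/
theorem code2 (ha : 2 ≤ a) (w : ℕ → Fin a)
    (hinf : (closure (range fun n : ℕ => pt (fun i => w (i + n)))).Infinite) (ε : ℝ)
    (hε : 0 < ε) : ∃ (l : ℕ) (W : Bool → ℕ → Fin a) (m : ℕ), Pair l W ∧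
    ∀ X : Set (ℕ → Fin a), X ⊆ Sh l W → X.Nonempty → (∀ x ∈ X, (fun n => x (n + 1)) ∈ X) →
      ∃ y ∈ X, (∀ i < m, dist (pt (fun n => glue m w y (n + i))) (pt (fun n => w (n + i))) < ε) ∧
        (∀ x ∈ X, ∃ i, dist (pt x) (pt (fun n => w (n + i))) < ε) ∧
        (∀ i, m ≤ i → ∃ x ∈ X, dist (pt x) (pt (fun n => w (n + i))) < ε) := by
  have hnp := not_per ha w hinf
  have ha1 : (1 : ℝ) < a := by exact_mod_cast (by omega : 1 < a)
  obtain ⟨N, hN⟩ : ∃ N : ℕ, ((a : ℝ) ^ N)⁻¹ < ε := by
    obtain ⟨N, hN⟩ := exists_pow_lt_of_lt_one hε (inv_lt_one_of_one_lt₀ ha1)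
    exact ⟨N, by rwa [← inv_pow]⟩
  obtain ⟨M₀, hM₀⟩ := recur w (N + 1)
  obtain ⟨n1, n2, hn1, hn2, hn12, hne⟩ := special2 w hnp N M₀
  -- an occurrence of every late word
  have hocc : ∀ v : Fin N → Fin a, ∃ P, n1 ≤ P ∧
      ((∃ n, M₀ ≤ n ∧ (fun i : Fin N => w (n + i)) = v) → (fun i : Fin N => w (P + i)) = v) := by
    intro v
    by_cases h : ∃ n, M₀ ≤ n ∧ (fun i : Fin N => w (n + i)) = v
    · obtain ⟨n, hn, hv⟩ := h
      obtain ⟨P, hP, hP2⟩ := hM₀ n hn n1
      refine ⟨P, hP, fun _ => ?_⟩
      rw [← hv]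
      funext i
      exact hP2 i (by omega)
    · exact ⟨n1, le_rfl, fun h' => absurd h' h⟩
  choose Pn hPn1 hPn2 using hocc
  obtain ⟨p2, hp2a, hp2b⟩ := hM₀ n2 hn2 (n1 + N + 1 + ∑ v : Fin N → Fin a, (Pn v + N))
  obtain ⟨p3, hp3a, hp3b⟩ := hM₀ n1 hn1 (p2 + N + 1)
  have hu2 : ∀ j < N, w (n1 + j) = w (p2 + j) := by
    intro j hj
    rw [hp2b j (by omega), hn12 j hj]
  have hu3 : ∀ j < N, w (p2 + j) = w (p3 + j) := by
    intro j hj
    rw [hp3b j (by omega), ← hu2 j hj]
  have hnetF : ∀ v, Pn v + N < p2 := by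
    intro v
    have : Pn v + N ≤ ∑ v : Fin N → Fin a, (Pn v + N) :=
      Finset.single_le_sum (f := fun v => Pn v + N) (fun _ _ => Nat.zero_le _)
        (Finset.mem_univ v)
    omega
  refine ⟨p3 - n1, WW w n1 p2 p3, n1, ⟨by omega, N, by omega, ?_⟩, ?_⟩
  · change w (n1 + N) ≠ (if N < p3 - p2 then w (p2 + N) else w (n1 + (N - (p3 - p2))))
    rw [if_pos (by omega), hp2b N (by omega)]
    exact hne
  · intro X hX hXne hXs
    have hXs' : ∀ (n : ℕ) (x : ℕ → Fin a), x ∈ X → (fun i => x (i + n)) ∈ X := by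
      intro n
      induction n with
      | zero => intro x hx; simpa using hx
      | succ n ih =>
        intro x hx
        have := ih _ (hXs x hx)
        convert! this using 3
    set l := p3 - n1 with hl
    have hl0 : 0 < l := by omega
    have hstart : ∀ (c : Bool) (j : ℕ), j < N → WW w n1 p2 p3 c j = w (n1 + j) := by
      intro c j hj
      cases c with
      | true => rfl
      | false =>
        change (if j < p3 - p2 then w (p2 + j) else w (n1 + (j - (p3 - p2)))) = _
        rw [if_pos (by omega), ← hu2 j hj]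
    obtain ⟨x, hx⟩ := hXne
    obtain ⟨f, s, hfs⟩ := hX hx
    have hs : s ≤ l * (s + 1) := by nlinarith
    refine ⟨fun i => x (i + (l * (s + 1) - s)), hXs' _ x hx, ?_, ?_, ?_⟩
    · intro i hi
      refine lt_of_le_of_lt (dist_pt_le _ _ N ?_) hN
      intro n hn
      unfold glue
      split_ifs with h
      · rfl
      · change x (n + i - n1 + (l * (s + 1) - s)) = w (n + i)
        rw [hfs, show n + i - n1 + (l * (s + 1) - s) + s = l * (s + 1) + (n + i - n1) by omega,
          cat_lt _ _ _ _ _ (by omega), hstart _ _ (by omega)]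
        congr 1; omega
    · intro x hx
      obtain ⟨f, s, hfs⟩ := hX hx
      obtain ⟨P, hP⟩ := window w n1 p2 p3 N (by omega) (by omega) hu2 hu3 f s
      refine ⟨P, lt_of_le_of_lt (dist_pt_le _ _ N ?_) hN⟩
      intro i hi
      rw [hfs, add_comm i s, hP i hi, add_comm]
    · intro n hn
      set v : Fin N → Fin a := fun i => w (n + i) with hv
      have hP1 := hPn1 v
      have hP2 : ∀ i < N, w (Pn v + i) = w (n + i) := fun i hi =>
        congrFun (hPn2 v ⟨n, by omega, rfl⟩) ⟨i, hi⟩
      have hP3 := hnetF v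
      obtain ⟨o, ho, hW⟩ : ∃ o, o + N < l ∧ ∀ i < N,
          WW w n1 p2 p3 (f (s + 1)) (o + i) = w (Pn v + i) := by
        cases f (s + 1) with
        | true =>
          refine ⟨Pn v - n1, by omega, fun i hi => ?_⟩
          change w (n1 + (Pn v - n1 + i)) = _
          congr 1; omega
        | false =>
          refine ⟨p3 - p2 + (Pn v - n1), by omega, fun i hi => ?_⟩
          change (if p3 - p2 + (Pn v - n1) + i < p3 - p2 then w (p2 + (p3 - p2 + (Pn v - n1) + i))
            else w (n1 + (p3 - p2 + (Pn v - n1) + i - (p3 - p2)))) = _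
          rw [if_neg (by omega)]
          congr 1; omega
      refine ⟨fun i => x (i + (l * (s + 1) + o - s)), hXs' _ x hx, ?_⟩
      refine lt_of_le_of_lt (dist_pt_le _ _ N ?_) hN
      intro i hi
      rw [hfs, show i + n = n + i by omega, ← hP2 i hi, ← hW i hi,
        ← cat_lt l (WW w n1 p2 p3) f (s + 1) (o + i) (by omega)]
      congr 1
      omega

end Pool.Agent.H30.MZ.Code
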