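import Mathlib

/-!
# Minimal sets without exceptions (MP_c9a594_an): definitions

Paper proof: see `NOTES.md` in this folder.
-/

set_option autoImplicit false

namespace Pool.Agent.H30.MZ

open Set Filter Topology MeasureTheory

/-- Every real number `v` is, modulo one, closer than `δ` to one of `f 0, …, f (S - 1)`. -/
def Dens (S : ℕ) (δ : ℝ) (f : ℕ → ℝ) : Prop :=
  ∀ v : ℝ, ∃ t : ℕ, t < S ∧ ∃ k : ℤ, |f t - v - k| < δ

/-- `Q A k τ = ∏_{i < k} |cos (π τ A ^ i)|`. -/
noncomputable def Q (A k : ℕ) (τ : ℝ) : ℝ :=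
  ∏ i ∈ Finset.range k, |Real.cos (Real.pi * (τ * (A : ℝ) ^ i))|

/-- The infinite concatenation of the words `W (f 0), W (f 1), …` of length `l`. -/
def cat {α : Type} (l : ℕ) (W : Bool → ℕ → α) (f : ℕ → Bool) (n : ℕ) : α :=
  W (f (n / l)) (n % l)

/-- `W true` and `W false` are different words of the same length `l` (only the values at the
places `i < l` matter). -/
def Pair {α : Type} (l : ℕ) (W : Bool → ℕ → α) : Prop :=
  0 < l ∧ ∃ i < l, W true i ≠ W false i

/-- All shifts of all infinite concatenations of `W true` and `W false`. -/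
def Sh {α : Type} (l : ℕ) (W : Bool → ℕ → α) : Set (ℕ → α) :=
  {x | ∃ (f : ℕ → Bool) (s : ℕ), ∀ n, x n = cat l W f (n + s)}

/-- The pair of words of length `M * l` obtained by substituting `W` into the pair `R` of words
of length `M` over the alphabet `Bool`. -/
def comp {α : Type} (l : ℕ) (W : Bool → ℕ → α) (R : Bool → ℕ → Bool) : Bool → ℕ → α :=
  fun c n => W (R c (n / l)) (n % l)

/-- `R` contains all four pairs of consecutive letters in each of its two words. -/
def AllPairs (M : ℕ) (R : Bool → ℕ → Bool) : Prop :=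
  ∀ c b b' : Bool, ∃ p, p + 1 < M ∧ R c p = b ∧ R c (p + 1) = b'

/-- The data of a sequence `n ↦ θ β ^ n r + y n`. -/
structure Con where
  β : ℝ
  θ : ℝ
  y : ℕ → ℝ

/-- `β > 1` is multiplicatively independent of `a`, and `θ ≠ 0`. -/
def Con.Ok (a : ℕ) (q : Con) : Prop :=
  1 < q.β ∧ Irrational (Real.log q.β / Real.log a) ∧ q.θ ≠ 0

/-- The sequence `n ↦ θ β ^ n r + y n`. -/
def Con.seq (q : Con) (r : ℝ) (n : ℕ) : ℝ := q.θ * q.β ^ n * r + q.y n

/-- The set of reals `E` has very economical coverings at arbitrarily small scales. -/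
def Thin (E : Set ℝ) : Prop :=
  ∀ j : ℕ, ∃ (C : Finset ℝ) (ρ : ℝ), 0 < ρ ∧ ρ < 1 / (j + 1) ∧
    (C.card : ℝ) * ρ ^ (1 / ((j : ℝ) + 1)) < 1 / (j + 1) ∧ ∀ r ∈ E, ∃ c ∈ C, |r - c| < ρ

/-- Infinite minimal sets of the multiplication by `a` on the circle `ℝ / ℤ`. -/
def IsMin (a : ℕ) (K : Set (AddCircle (1 : ℝ))) : Prop :=
  K.Infinite ∧ (∀ x ∈ K, a • x ∈ K) ∧ ∀ x ∈ K, K ⊆ closure (range fun n : ℕ => a ^ n • x)

/-- The orbit closure of `r` modulo one under multiplication by `m`. -/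
def O (m : ℕ) (r : ℝ) : Set ℝ := closure (range fun n : ℕ => Int.fract ((m : ℝ) ^ n * r))

end Pool.Agent.H30.MZ
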