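import Pool.Agent.H30.MZ.Stm

set_option autoImplicit false

namespace Pool.Agent.H30.MZ

open Set Filter Topology MeasureTheory

theorem DIM_proved : S_DIM := by
  intro E hE
  choose C ρ hρ0 hρ1 hcard hcov using hE
  have key : ∀ t : NNReal, 0 < t → dimH E ≤ t := by
    intro t ht
    have ht' : (0 : ℝ) < t := by exact_mod_cast ht
    apply dimH_le_of_hausdorffMeasure_ne_top
    have hr : Tendsto (fun n : ℕ => ENNReal.ofReal (2 / ((n : ℝ) + 1))) atTop (𝓝 0) := by
      rw [← ENNReal.ofReal_zero]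
      apply ENNReal.tendsto_ofReal
      have h2 := (tendsto_one_div_add_atTop_nhds_zero_nat (𝕜 := ℝ)).const_mul 2
      rw [mul_zero] at h2
      refine h2.congr fun n => ?_
      ring
    have hdiam : ∀ (n : ℕ) (c : ℝ), Metric.ediam (Metric.ball c (ρ n)) =
        ENNReal.ofReal (2 * ρ n) := by
      intro n c
      rw [Real.ball_eq_Ioo, Real.ediam_Ioo]
      congr 1; ring
    have h1 := Measure.hausdorffMeasure_le_liminf_sum (X := ℝ) (ι := fun n : ℕ => {c // c ∈ C n})
      (d := (t : ℝ)) (s := E) (l := atTop) (r := fun n => ENNReal.ofReal (2 / ((n : ℝ) + 1))) hr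
      (fun n c => Metric.ball c.1 (ρ n)) ?_ ?_
    · refine ne_top_of_le_ne_top (b := ENNReal.ofReal (2 ^ (t : ℝ))) ENNReal.ofReal_ne_top ?_
      refine h1.trans ?_
      refine liminf_le_of_frequently_le' (Eventually.frequently ?_)
      obtain ⟨N, hN⟩ := exists_nat_one_div_lt ht'
      filter_upwards [eventually_ge_atTop N] with n hn
      simp only [hdiam]
      rw [Finset.sum_const, Finset.card_univ, Fintype.card_coe, nsmul_eq_mul,
        ENNReal.ofReal_rpow_of_pos (by have := hρ0 n; positivity),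
        ← ENNReal.ofReal_natCast, ← ENNReal.ofReal_mul (by positivity)]
      apply ENNReal.ofReal_le_ofReal
      have hn1 : (1 : ℝ) / ((n : ℝ) + 1) ≤ 1 / ((N : ℝ) + 1) := by
        apply one_div_le_one_div_of_le (by positivity)
        have : (N : ℝ) ≤ n := by exact_mod_cast hn
        linarith
      have h4 : ρ n ≤ 1 := by
        refine (hρ1 n).le.trans ?_
        rw [div_le_one (by positivity)]
        have : (0 : ℝ) ≤ n := Nat.cast_nonneg n
        linarith
      have h5 : ρ n ^ (t : ℝ) ≤ ρ n ^ (1 / ((n : ℝ) + 1)) :=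
        Real.rpow_le_rpow_of_exponent_ge (hρ0 n) h4 (hn1.trans hN.le)
      have h6 : (1 : ℝ) / ((n : ℝ) + 1) ≤ 1 := by
        rw [div_le_one (by positivity)]
        have : (0 : ℝ) ≤ n := Nat.cast_nonneg n
        linarith
      rw [Real.mul_rpow (by norm_num) (hρ0 n).le]
      have h7 : (0 : ℝ) < 2 ^ (t : ℝ) := by positivity
      calc ((C n).card : ℝ) * (2 ^ (t : ℝ) * ρ n ^ (t : ℝ))
          = 2 ^ (t : ℝ) * ((C n).card * ρ n ^ (t : ℝ)) := by ring
        _ ≤ 2 ^ (t : ℝ) * ((C n).card * ρ n ^ (1 / ((n : ℝ) + 1))) := by gcongr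
        _ ≤ 2 ^ (t : ℝ) * 1 := by
            apply mul_le_mul_of_nonneg_left _ h7.le
            exact (hcard n).le.trans h6
        _ = 2 ^ (t : ℝ) := mul_one _
    · filter_upwards with n c
      rw [hdiam]
      apply ENNReal.ofReal_le_ofReal
      have := (hρ1 n).le
      calc 2 * ρ n ≤ 2 * (1 / ((n : ℝ) + 1)) := by linarith
        _ = 2 / ((n : ℝ) + 1) := by ring
    · filter_upwards with n
      intro r hrE
      obtain ⟨c, hc, hcr⟩ := hcov n r hrE
      rw [mem_iUnion]
      exact ⟨⟨c, hc⟩, by rw [Metric.mem_ball, Real.dist_eq]; exact hcr⟩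
  refine le_antisymm ?_ bot_le
  refine ENNReal.le_of_forall_pos_le_add fun ε hε _ => ?_
  rw [zero_add]
  exact key ε hε

end Pool.Agent.H30.MZ
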