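import Pool.Agent.H30.MZ.Stm

set_option autoImplicit false

namespace Pool.Agent.H30.MZ

theorem IRR_proved : S_IRR := by
  intro a b ha hb hind
  have hla : 0 < Real.log a := Real.log_pos (by exact_mod_cast ha)
  have hlb : 0 < Real.log b := Real.log_pos (by exact_mod_cast hb)
  rintro ⟨q, hq⟩
  have hq0 : (0 : ℝ) < q := by rw [hq]; positivity
  have hq0' : 0 < q := by exact_mod_cast hq0
  have hnum : 0 < q.num := Rat.num_pos.mpr hq0'
  obtain ⟨n, hn⟩ : ∃ n : ℕ, q.num = n := ⟨q.num.toNat, by omega⟩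
  have hn0 : 0 < n := by omega
  have hd : (0 : ℝ) < q.den := by exact_mod_cast q.den_pos
  have h1 : (n : ℝ) * Real.log a = q.den * Real.log b := by
    have h2 : (q : ℝ) = (n : ℝ) / q.den := by
      rw [Rat.cast_def, hn]; simp
    rw [h2] at hq
    field_simp at hq
    linarith
  refine hind n q.den hn0 q.den_pos ?_
  have h3 : Real.log ((a : ℝ) ^ n) = Real.log ((b : ℝ) ^ q.den) := by
    rw [Real.log_pow, Real.log_pow]; exact h1
  have h4 : (a : ℝ) ^ n = (b : ℝ) ^ q.den :=
    Real.log_injOn_pos (Set.mem_Ioi.mpr (by positivity)) (Set.mem_Ioi.mpr (by positivity)) h3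
  exact_mod_cast h4

end Pool.Agent.H30.MZ
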