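import Pool.Agent.H30.MZ.Stm

/-!
# MZ, part LIM: the limit of the construction
-/

set_option autoImplicit false

namespace Pool.Agent.H30.MZ

open Set Filter Topology

theorem LIM_two {m : ℕ} (h : m < 2) : m = 0 ∨ m = 1 := by omega

/-- Composition of substitutions. -/
theorem LIM_cat_comp {α : Type} (l M : ℕ) (W : Bool → ℕ → α) (R : Bool → ℕ → Bool)
    (f : ℕ → Bool) (n : ℕ) :
    cat (M * l) (comp l W R) f n = cat l W (cat M R f) n := by
  unfold cat comp
  have e1 : n / l / M = n / (M * l) := by rw [Nat.div_div_eq_div_mul, mul_comm]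
  have e2 : n % (M * l) / l = n / l % M := by
    rw [mul_comm M l, Nat.mod_mul_right_div_self]
  have e3 : n % (M * l) % l = n % l := Nat.mod_mod_of_dvd n (Dvd.intro_left M rfl)
  rw [e1, e2, e3]

theorem LIM_sub {α : Type} (l M : ℕ) (W : Bool → ℕ → α) (R : Bool → ℕ → Bool) :
    Sh (M * l) (comp l W R) ⊆ Sh l W := by
  rintro x ⟨f, s, hx⟩
  exact ⟨cat M R f, s, fun n => by rw [hx n, LIM_cat_comp]⟩

theorem LIM_pair {α : Type} {l M : ℕ} {W : Bool → ℕ → α} {R : Bool → ℕ → Bool}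
    (hW : Pair l W) (hR : Pair M R) : Pair (M * l) (comp l W R) := by
  obtain ⟨hl, j, hj, hWj⟩ := hW
  obtain ⟨hM, i, hi, hRi⟩ := hR
  refine ⟨Nat.mul_pos hM hl, i * l + j, ?_, ?_⟩
  · calc i * l + j < i * l + l := by omega
      _ = (i + 1) * l := by ring
      _ ≤ M * l := Nat.mul_le_mul_right _ (by omega)
  · unfold comp
    have e1 : (i * l + j) / l = i := by
      rw [Nat.add_comm, Nat.add_mul_div_right _ _ hl, Nat.div_eq_of_lt hj, Nat.zero_add]
    have e2 : (i * l + j) % l = j := by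
      rw [Nat.add_comm, Nat.add_mul_mod_self_right, Nat.mod_eq_of_lt hj]
    rw [e1, e2]
    cases h1 : R true i <;> cases h2 : R false i
    · rw [h1, h2] at hRi; exact absurd rfl hRi
    · exact fun h => hWj h.symm
    · exact hWj
    · rw [h1, h2] at hRi; exact absurd rfl hRi

/-- reduction of the shift modulo the length -/
theorem LIM_reduce {α : Type} {l : ℕ} (hl : 0 < l) {W : Bool → ℕ → α} {x : ℕ → α}
    (hx : x ∈ Sh l W) : ∃ s < l, ∃ f : ℕ → Bool, ∀ n, x n = cat l W f (n + s) := by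
  obtain ⟨f, s, hx⟩ := hx
  refine ⟨s % l, Nat.mod_lt _ hl, fun m => f (m + s / l), fun n => ?_⟩
  rw [hx n]
  unfold cat
  have h : n + s = n + s % l + s / l * l := by
    have := Nat.mod_add_div s l
    rw [Nat.mul_comm] at this
    omega
  have e1 : (n + s) / l = (n + s % l) / l + s / l := by
    rw [h, Nat.add_mul_div_right _ _ hl]
  have e2 : (n + s) % l = (n + s % l) % l := by
    rw [h, Nat.add_mul_mod_self_right]
  rw [e1, e2]

theorem LIM_compact {a : ℕ} {l : ℕ} (hl : 0 < l) (W : Bool → ℕ → Fin a) :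
    IsCompact (Sh l W) := by
  have h : Sh l W = ⋃ s ∈ Finset.range l,
      range fun f : ℕ → Bool => fun n => cat l W f (n + s) := by
    ext x
    simp only [mem_iUnion, Finset.mem_range, mem_range]
    constructor
    · intro hx
      obtain ⟨s, hs, f, hf⟩ := LIM_reduce hl hx
      exact ⟨s, hs, f, by funext n; exact (hf n).symm⟩
    · rintro ⟨s, -, f, rfl⟩
      exact ⟨f, s, fun n => rfl⟩
  rw [h]
  refine (Finset.range l).isCompact_biUnion fun s _ => isCompact_range ?_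
  refine continuous_pi fun n => ?_
  show Continuous fun f : ℕ → Bool => W (f ((n + s) / l)) ((n + s) % l)
  exact (continuous_of_discreteTopology (f := fun b : Bool => W b ((n + s) % l))).comp
    (continuous_apply ((n + s) / l))

/-- state of the recursion -/
structure LIMst (a : ℕ) where
  l : ℕ
  W : Bool → ℕ → Fin a
  h : Pair l W

theorem LIM_step (hS : S_STAGE) {a : ℕ} (ha : 2 ≤ a) (q : Con) (hq : q.Ok a) (δ : ℝ) (hδ : 0 < δ)
    (s : LIMst a) : ∃ (M : ℕ) (R : Bool → ℕ → Bool) (t : LIMst a), t.l = M * s.l ∧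
      t.W = comp s.l s.W R ∧ AllPairs M R ∧
      ∃ T, ∀ x ∈ Sh t.l t.W, Dens T δ (q.seq (Real.ofDigits x)) := by
  obtain ⟨T, M, R, hR, hA, hD⟩ := hS a s.l s.W q δ ha s.h hq hδ
  exact ⟨M, R, ⟨M * s.l, comp s.l s.W R, LIM_pair s.h hR⟩, rfl, rfl, hA, T, hD⟩

/-- minimality: every beginning of a point of `Sh l W` occurs in every point of the next stage -/
theorem LIM_min {α : Type} {l M : ℕ} (hl : 0 < l) (W : Bool → ℕ → α) {R : Bool → ℕ → Bool}
    (hA : AllPairs M R) {x x' : ℕ → α} (hx : x ∈ Sh (M * l) (comp l W R)) (hx' : x' ∈ Sh l W)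
    {N : ℕ} (hN : N ≤ l) : ∃ i, ∀ n < N, x (n + i) = x' n := by
  obtain ⟨f, s, hx⟩ := hx
  obtain ⟨s', hs', f', hx'⟩ := LIM_reduce hl hx'
  have hM : 0 < M := by
    obtain ⟨p, hp, -⟩ := hA true true true
    omega
  obtain ⟨p, hp, hp0, hp1⟩ := hA (f s) (f' 0) (f' 1)
  set P : ℕ := s * M + p with hP
  have hPl : s ≤ P * l := by
    calc s = s * 1 * 1 := by ring
      _ ≤ s * M * l := Nat.mul_le_mul (Nat.mul_le_mul le_rfl hM) hl
      _ ≤ P * l := Nat.mul_le_mul_right _ (by omega)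
  refine ⟨P * l + s' - s, fun n hn => ?_⟩
  rw [hx, hx' n, LIM_cat_comp]
  have e0 : n + (P * l + s' - s) + s = n + s' + P * l := by omega
  rw [e0]
  unfold cat
  have e1 : (n + s' + P * l) / l = (n + s') / l + P := Nat.add_mul_div_right _ _ hl
  have e2 : (n + s' + P * l) % l = (n + s') % l := Nat.add_mul_mod_self_right _ _ _
  rw [e1, e2]
  congr 1
  have hlt : (n + s') / l < 2 := by
    rw [Nat.div_lt_iff_lt_mul hl]
    omega
  have hcase : (n + s') / l = 0 ∨ (n + s') / l = 1 := LIM_two hlt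
  rcases hcase with h0 | h1
  · rw [h0, Nat.zero_add]
    have d1 : P / M = s := by
      rw [hP, Nat.add_comm, Nat.add_mul_div_right _ _ hM, Nat.div_eq_of_lt (by omega), Nat.zero_add]
    have d2 : P % M = p := by
      rw [hP, Nat.add_comm, Nat.add_mul_mod_self_right, Nat.mod_eq_of_lt (by omega)]
    rw [d1, d2, hp0]
  · rw [h1]
    have d1 : (1 + P) / M = s := by
      have : 1 + P = (p + 1) + s * M := by rw [hP]; ring
      rw [this, Nat.add_mul_div_right _ _ hM, Nat.div_eq_of_lt (by omega), Nat.zero_add]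
    have d2 : (1 + P) % M = p + 1 := by
      have : 1 + P = (p + 1) + s * M := by rw [hP]; ring
      rw [this, Nat.add_mul_mod_self_right, Nat.mod_eq_of_lt (by omega)]
    rw [d1, d2, hp1]

/-- the covering of a stage -/
theorem LIM_cover {a : ℕ} (ha : 2 ≤ a) {l : ℕ} (hl : 0 < l) (W : Bool → ℕ → Fin a) :
    ∃ C : Finset ℝ, (C.card : ℝ) ≤ 4 * l ∧
      ∀ x ∈ Sh l W, ∃ c ∈ C, |Real.ofDigits x - c| < 2 * ((a : ℝ)⁻¹) ^ l := by
  classical
  have ha0 : (0 : ℝ) < a := by positivity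
  let F : ℕ × (Bool × Bool) → ℝ := fun t =>
    Real.ofDigits fun n => W (if (n + t.1) / l = 0 then t.2.1 else t.2.2) ((n + t.1) % l)
  refine ⟨((Finset.range l) ×ˢ (Finset.univ : Finset (Bool × Bool))).image F, ?_, ?_⟩
  · have h1 := Finset.card_image_le (s := (Finset.range l) ×ˢ (Finset.univ : Finset (Bool × Bool)))
      (f := F)
    rw [Finset.card_product, Finset.card_range, Finset.card_univ, Fintype.card_prod,
      Fintype.card_bool] at h1
    have h2 : (((((Finset.range l) ×ˢ (Finset.univ : Finset (Bool × Bool))).image F).card : ℕ) : ℝ)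
        ≤ ((l * (2 * 2) : ℕ) : ℝ) := by exact_mod_cast h1
    push_cast at h2
    linarith
  · intro x hx
    obtain ⟨s, hs, f, hf⟩ := LIM_reduce hl hx
    refine ⟨F (s, (f 0, f 1)), Finset.mem_image_of_mem F (by simp [hs]), ?_⟩
    have hle : |Real.ofDigits x - F (s, (f 0, f 1))| ≤ ((a : ℝ) ^ l)⁻¹ := by
      refine Real.abs_ofDigits_sub_ofDigits_le fun i hi => ?_
      rw [hf i]
      show W (f ((i + s) / l)) ((i + s) % l) =
        W (if (i + s) / l = 0 then f 0 else f 1) ((i + s) % l)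
      have hlt : (i + s) / l < 2 := by
        rw [Nat.div_lt_iff_lt_mul hl]
        omega
      have hcase : (i + s) / l = 0 ∨ (i + s) / l = 1 := LIM_two hlt
      rcases hcase with h0 | h1
      · rw [h0]; simp
      · rw [h1]; simp
    rw [inv_pow]
    have hpos : 0 < ((a : ℝ) ^ l)⁻¹ := by positivity
    linarith

theorem LIM_small {a : ℕ} (ha : 2 ≤ a) (j : ℕ) : ∃ l₀ : ℕ, ∀ l : ℕ, l₀ ≤ l →
    2 * ((a : ℝ)⁻¹) ^ l < 1 / (j + 1) ∧
      (4 * (l : ℝ)) * (2 * ((a : ℝ)⁻¹) ^ l) ^ (1 / ((j : ℝ) + 1)) < 1 / (j + 1) := by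
  have ha1 : (1 : ℝ) < a := by exact_mod_cast (by omega : 1 < a)
  have hinv0 : (0 : ℝ) < (a : ℝ)⁻¹ := by positivity
  have hinv1 : (a : ℝ)⁻¹ < 1 := inv_lt_one_of_one_lt₀ ha1
  set e : ℝ := 1 / ((j : ℝ) + 1) with he
  have he0 : 0 < e := by positivity
  have h1 : Tendsto (fun l : ℕ => 2 * ((a : ℝ)⁻¹) ^ l) atTop (𝓝 0) := by
    have := (tendsto_pow_atTop_nhds_zero_of_lt_one hinv0.le hinv1).const_mul 2
    simpa using this
  have hc0 : 0 ≤ ((a : ℝ)⁻¹) ^ e := Real.rpow_nonneg hinv0.le _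
  have hc1 : ((a : ℝ)⁻¹) ^ e < 1 := Real.rpow_lt_one hinv0.le hinv1 he0
  have h2 : Tendsto (fun l : ℕ => (4 * (l : ℝ)) * (2 * ((a : ℝ)⁻¹) ^ l) ^ e) atTop (𝓝 0) := by
    have h3 := (tendsto_self_mul_const_pow_of_lt_one hc0 hc1).const_mul (4 * (2 : ℝ) ^ e)
    rw [mul_zero] at h3
    refine h3.congr fun l => ?_
    rw [Real.mul_rpow (by norm_num) (by positivity), ← Real.rpow_pow_comm hinv0.le]
    ring
  obtain ⟨l₀, hl₀⟩ := eventually_atTop.1 ((h1.eventually_lt_const he0).and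
    (h2.eventually_lt_const he0))
  exact ⟨l₀, fun l hl => hl₀ l hl⟩

theorem LIM_proved (hS : S_STAGE) : S_LIM := by
  intro a l W q δ ha hW hq hδ
  choose M R nxt hl' hW' hA' hD' using fun i : ℕ => LIM_step hS ha (q i) (hq i) (δ i) (hδ i)
  let st : ℕ → LIMst a := fun i => Nat.rec ⟨l, W, hW⟩ (fun i s => nxt i s) i
  have st0 : st 0 = ⟨l, W, hW⟩ := rfl
  have stS : ∀ i, st (i + 1) = nxt i (st i) := fun i => rfl
  set S : ℕ → Set (ℕ → Fin a) := fun i => Sh (st i).l (st i).W with hSdef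
  have hpos : ∀ i, 0 < (st i).l := fun i => (st i).h.1
  have hsub : ∀ i, S (i + 1) ⊆ S i := by
    intro i
    show Sh (st (i + 1)).l (st (i + 1)).W ⊆ Sh (st i).l (st i).W
    rw [stS i, hl' i (st i), hW' i (st i)]
    exact LIM_sub _ _ _ _
  have hcomp : ∀ i, IsCompact (S i) := fun i => LIM_compact (hpos i) _
  have hne : ∀ i, (S i).Nonempty := fun i =>
    ⟨fun n => cat (st i).l (st i).W (fun _ => true) (n + 0), fun _ => true, 0, fun n => rfl⟩
  have hM2 : ∀ i, 2 ≤ M i (st i) := by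
    intro i
    obtain ⟨p, hp, -⟩ := hA' i (st i) true true true
    omega
  have hlen : ∀ i, i ≤ (st i).l := by
    intro i
    induction i with
    | zero => exact Nat.zero_le _
    | succ i ih =>
      rw [stS i, hl' i (st i)]
      have h1 := hM2 i
      have h2 := hpos i
      nlinarith
  have hmemS : ∀ {x : ℕ → Fin a}, x ∈ (⋂ i, S i) → ∀ i, x ∈ S i := fun hx i => mem_iInter.1 hx i
  refine ⟨⋂ i, S i, ?_, ?_, ?_, ?_, ?_, ?_, ?_⟩
  · intro x hx
    exact hmemS hx 0
  · exact isClosed_iInter fun i => (hcomp i).isClosed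
  · exact IsCompact.nonempty_iInter_of_sequence_nonempty_isCompact_isClosed S hsub hne (hcomp 0)
      fun i => (hcomp i).isClosed
  · intro x hx
    refine mem_iInter.2 fun i => ?_
    obtain ⟨f, s, hf⟩ := hmemS hx i
    refine ⟨f, s + 1, fun n => ?_⟩
    show x (n + 1) = _
    rw [hf (n + 1)]
    congr 1
    omega
  · intro x hx x' hx' N
    have h1 : x ∈ Sh (M N (st N) * (st N).l) (comp (st N).l (st N).W (R N (st N))) := by
      have := hmemS hx (N + 1)
      change x ∈ Sh (st (N + 1)).l (st (N + 1)).W at this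
      rw [stS N, hl' N (st N), hW' N (st N)] at this
      exact this
    exact LIM_min (hpos N) _ (hA' N (st N)) h1 (hmemS hx' N) (hlen N)
  · intro i
    obtain ⟨T, hT⟩ := hD' i (st i)
    refine ⟨T, fun x hx => hT x ?_⟩
    have := hmemS hx (i + 1)
    change x ∈ Sh (st (i + 1)).l (st (i + 1)).W at this
    rw [stS i] at this
    exact this
  · intro j
    obtain ⟨l₀, hl₀⟩ := LIM_small ha j
    obtain ⟨C, hC, hcov⟩ := LIM_cover ha (hpos l₀) (st l₀).W
    obtain ⟨h1, h2⟩ := hl₀ (st l₀).l (hlen l₀)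
    have ha0 : (0 : ℝ) < a := by positivity
    refine ⟨C, 2 * ((a : ℝ)⁻¹) ^ (st l₀).l, by positivity, h1, ?_, ?_⟩
    · refine lt_of_le_of_lt ?_ h2
      exact mul_le_mul_of_nonneg_right hC (Real.rpow_nonneg (by positivity) _)
    · rintro r ⟨x, hx, rfl⟩
      exact hcov x (hmemS hx l₀)

end Pool.Agent.H30.MZ
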