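import Pool.Agent.H30.MZ.Stm

set_option autoImplicit false

namespace Pool.Agent.H30.MZ.LoopAux

open Classical

noncomputable section

variable {α : Type} {r : ℕ}

/-- The start at the beginning of `L` with the label `j` is not yet satisfied. -/
def Unsat (Sat : Fin r → List α → Prop) (j : Fin r) (L : List α) : Prop :=
  ∀ k, 1 ≤ k → k < L.length → ¬ Sat j (L.take (k + 1))

def Phi (Sat : Fin r → List α → Prop) : List α → ℝ
  | [] => 0
  | x :: L => (∑ j : Fin r, if Unsat Sat j (x :: L) then (5 / 4 : ℝ) ^ (L.length + 1) else 0) +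
      Phi Sat L

def Psi (Sat : Fin r → List α → Prop) (w : α) : List α → ℝ
  | [] => 0
  | x :: L => (∑ j : Fin r, if Unsat Sat j (x :: L) ∧ ¬ Sat j (x :: L ++ [w]) then
      (5 / 4 : ℝ) ^ (L.length + 2) else 0) + Psi Sat w L

variable (Sat : Fin r → List α → Prop)

lemma Phi_nonneg (L : List α) : 0 ≤ Phi Sat L := by
  induction L with
  | nil => simp [Phi]
  | cons x L ih =>
    simp only [Phi]
    have : 0 ≤ ∑ j : Fin r, if Unsat Sat j (x :: L) then (5 / 4 : ℝ) ^ (L.length + 1) else 0 :=
      Finset.sum_nonneg fun j _ => by split_ifs <;> positivity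
    linarith

lemma unsat_append (j : Fin r) (x : α) (L : List α) (w : α) :
    Unsat Sat j (x :: L ++ [w]) ↔ Unsat Sat j (x :: L) ∧ ¬ Sat j (x :: L ++ [w]) := by
  constructor
  · intro h
    refine ⟨fun k hk1 hk2 => ?_, ?_⟩
    · have := h k hk1 (by simp at hk2 ⊢; omega)
      rwa [List.take_append_of_le_length (by simp at hk2 ⊢; omega)] at this
    · have := h (L.length + 1) (by omega) (by simp)
      rwa [List.take_of_length_le (by simp)] at this
  · rintro ⟨h1, h2⟩ k hk1 hk2
    by_cases hk : k < (x :: L).length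
    · rw [List.take_append_of_le_length (by simp at hk ⊢; omega)]
      exact h1 k hk1 hk
    · rw [List.take_of_length_le (by simp at hk ⊢; omega)]
      exact h2

lemma Phi_append (L : List α) (w : α) : Phi Sat (L ++ [w]) = Psi Sat w L + r * (5 / 4) := by
  induction L with
  | nil =>
    simp only [List.nil_append, Phi, Psi, zero_add, List.length_nil]
    have : ∀ j : Fin r, Unsat Sat j [w] := fun j k hk1 hk2 => by simp at hk2; omega
    simp [this]
  | cons x L ih =>
    have e : (x :: L ++ [w]) = x :: (L ++ [w]) := rfl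
    have hs : ∀ j : Fin r, Unsat Sat j (x :: (L ++ [w])) ↔
        Unsat Sat j (x :: L) ∧ ¬ Sat j (x :: L ++ [w]) := fun j => unsat_append Sat j x L w
    rw [e]
    simp only [Phi, Psi, ih, hs, List.length_append, List.length_singleton, e]
    ring

lemma Psi_le (L : List α) (w : α) : Psi Sat w L ≤ 5 / 4 * Phi Sat L := by
  induction L with
  | nil => simp [Phi, Psi]
  | cons x L ih =>
    simp only [Phi, Psi]
    have : (∑ j : Fin r, if Unsat Sat j (x :: L) ∧ ¬ Sat j (x :: L ++ [w]) then
        (5 / 4 : ℝ) ^ (L.length + 2) else 0) ≤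
        5 / 4 * ∑ j : Fin r, if Unsat Sat j (x :: L) then (5 / 4 : ℝ) ^ (L.length + 1) else 0 := by
      rw [Finset.mul_sum]
      refine Finset.sum_le_sum fun j _ => ?_
      by_cases h1 : Unsat Sat j (x :: L)
      · by_cases h2 : Sat j (x :: L ++ [w])
        · simp only [h1, h2, not_true_eq_false, and_false, if_false, if_true]
          positivity
        · simp only [h1, h2, not_false_eq_true, and_self, if_true]
          rw [pow_succ]; linarith
      · simp [h1]
    linarith

variable [Fintype α]

lemma sum_Psi_le (hS : ∀ (j : Fin r) (L : List α), L ≠ [] →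
    Nat.card α ≤ 2 * {w : α | Sat j (L ++ [w])}.ncard) (L : List α) :
    ∑ w : α, Psi Sat w L ≤ Fintype.card α * (5 / 8 * Phi Sat L) := by
  induction L with
  | nil => simp [Phi, Psi]
  | cons x L ih =>
    simp only [Phi, Psi, Finset.sum_add_distrib]
    have key : ∀ j : Fin r, (∑ w : α, if Unsat Sat j (x :: L) ∧ ¬ Sat j (x :: L ++ [w]) then
        (5 / 4 : ℝ) ^ (L.length + 2) else 0) ≤ Fintype.card α * (5 / 8 *
        if Unsat Sat j (x :: L) then (5 / 4 : ℝ) ^ (L.length + 1) else 0) := by
      intro j
      by_cases h1 : Unsat Sat j (x :: L)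
      · simp only [h1, true_and, if_true]
        rw [Finset.sum_ite, Finset.sum_const_zero, add_zero, Finset.sum_const, nsmul_eq_mul]
        have hc := hS j (x :: L) (by simp)
        rw [Nat.card_eq_fintype_card] at hc
        have h3 : {w : α | Sat j (x :: L ++ [w])}.ncard =
            (Finset.univ.filter fun w : α => Sat j (x :: L ++ [w])).card := by
          rw [← Set.ncard_coe_finset]; congr 1; ext w; simp
        have h4 : (Finset.univ.filter fun w : α => Sat j (x :: L ++ [w])).card +
            (Finset.univ.filter fun w : α => ¬ Sat j (x :: L ++ [w])).card = Fintype.card α := by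
          rw [Finset.card_filter_add_card_filter_not]; rfl
        have h5 : 2 * (Finset.univ.filter fun w : α => ¬ Sat j (x :: L ++ [w])).card ≤
            Fintype.card α := by omega
        have h6 : 2 * ((Finset.univ.filter fun w : α => ¬ Sat j (x :: L ++ [w])).card : ℝ) ≤
            Fintype.card α := by exact_mod_cast h5
        have h7 : (0 : ℝ) ≤ (5 / 4 : ℝ) ^ (L.length + 1) := by positivity
        rw [pow_succ (5 / 4 : ℝ) (L.length + 1)]
        nlinarith
      · simp [h1]
    rw [Finset.sum_comm]
    have := Finset.sum_le_sum fun j (_ : j ∈ (Finset.univ : Finset (Fin r))) => key j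
    rw [← Finset.mul_sum, ← Finset.mul_sum] at this
    linarith

lemma exists_good [Nonempty α] (hS : ∀ (j : Fin r) (L : List α), L ≠ [] →
    Nat.card α ≤ 2 * {w : α | Sat j (L ++ [w])}.ncard) (L : List α) :
    ∃ g : α, Phi Sat (L ++ [g]) ≤ 5 / 8 * Phi Sat L + r * (5 / 4) := by
  by_contra hcon
  push Not at hcon
  have h1 : ∀ g : α, 5 / 8 * Phi Sat L < Psi Sat g L := fun g => by
    have := hcon g; rw [Phi_append] at this; linarith
  have h2 := sum_Psi_le Sat hS L
  have h3 : ∑ _w : α, 5 / 8 * Phi Sat L < ∑ w : α, Psi Sat w L :=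
    Finset.sum_lt_sum_of_nonempty Finset.univ_nonempty fun w _ => h1 w
  rw [Finset.sum_const, nsmul_eq_mul, Finset.card_univ] at h3
  linarith

omit [Fintype α] in
lemma unsat_of_append (j : Fin r) (x : α) (L u : List α) (h : Unsat Sat j (x :: (L ++ u))) :
    Unsat Sat j (x :: L) := by
  intro k hk1 hk2
  have := h k hk1 (by simp at hk2 ⊢; omega)
  rwa [show x :: (L ++ u) = (x :: L) ++ u from rfl,
    List.take_append_of_le_length (by simp at hk2 ⊢; omega)] at this

omit [Fintype α] in
/-- Removing the old starts does not change the potential. -/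
lemma Phi_drop (K : ℝ) (T : ℕ) (hT : K < (5 / 4 : ℝ) ^ T) (Y : List α) (hY : Phi Sat Y ≤ K) :
    ∀ u : List α, Phi Sat (Y ++ u) = Phi Sat (Y.drop (Y.length - T) ++ u) := by
  induction Y with
  | nil => intro u; simp
  | cons x L ih =>
    intro u
    by_cases hl : (x :: L).length ≤ T
    · rw [Nat.sub_eq_zero_of_le hl, List.drop_zero]
    · have hl' : T ≤ L.length := by simp at hl; omega
      have hns : ∀ j, ¬ Unsat Sat j (x :: L) := by
        intro j hj
        have h1 : (5 / 4 : ℝ) ^ (L.length + 1) ≤
            ∑ j : Fin r, if Unsat Sat j (x :: L) then (5 / 4 : ℝ) ^ (L.length + 1) else 0 := by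
          have := Finset.single_le_sum (f := fun j : Fin r =>
            if Unsat Sat j (x :: L) then (5 / 4 : ℝ) ^ (L.length + 1) else 0)
            (fun j _ => by split_ifs <;> positivity) (Finset.mem_univ j)
          simpa [hj] using this
        have h2 : (5 / 4 : ℝ) ^ T ≤ (5 / 4 : ℝ) ^ (L.length + 1) :=
          pow_le_pow_right₀ (by norm_num) (by omega)
        have h3 := Phi_nonneg Sat L
        simp only [Phi] at hY
        linarith
      have hL : Phi Sat L ≤ K := by
        have := Phi_nonneg Sat L
        simp only [Phi] at hY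
        simp only [hns, if_false, Finset.sum_const_zero, zero_add] at hY
        exact hY
      have e1 : (x :: L) ++ u = x :: (L ++ u) := rfl
      have e2 : (x :: L).length - T = (L.length - T) + 1 := by simp; omega
      rw [e2, List.drop_succ_cons, ← ih hL u, e1]
      simp only [Phi]
      have : ∀ j, ¬ Unsat Sat j (x :: (L ++ u)) := fun j hj => hns j (unsat_of_append Sat j x L u hj)
      simp [this]

omit [Fintype α] in
/-- An old start is satisfied. -/
lemma sat_of_old (K : ℝ) (T : ℕ) (hT : K < (5 / 4 : ℝ) ^ T) (Z : List α) :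
    ∀ Y : List α, Phi Sat (Y ++ Z) ≤ K → T ≤ Z.length → Z ≠ [] → ∀ j, ¬ Unsat Sat j Z := by
  intro Y
  induction Y with
  | nil =>
    intro h hl hne j hj
    obtain ⟨x, L, rfl⟩ := List.exists_cons_of_ne_nil hne
    simp only [List.nil_append, Phi] at h
    have h1 : (5 / 4 : ℝ) ^ (L.length + 1) ≤
        ∑ j : Fin r, if Unsat Sat j (x :: L) then (5 / 4 : ℝ) ^ (L.length + 1) else 0 := by
      have := Finset.single_le_sum (f := fun j : Fin r =>
        if Unsat Sat j (x :: L) then (5 / 4 : ℝ) ^ (L.length + 1) else 0)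
        (fun j _ => by split_ifs <;> positivity) (Finset.mem_univ j)
      simpa [hj] using this
    have h2 : (5 / 4 : ℝ) ^ T ≤ (5 / 4 : ℝ) ^ (L.length + 1) :=
      pow_le_pow_right₀ (by norm_num) (by simpa using hl)
    have h3 := Phi_nonneg Sat L
    linarith
  | cons y Y ih =>
    intro h
    apply ih
    have e1 : (y :: Y) ++ Z = y :: (Y ++ Z) := rfl
    rw [e1] at h
    simp only [Phi] at h
    have : 0 ≤ ∑ j : Fin r, if Unsat Sat j (y :: (Y ++ Z)) then
        (5 / 4 : ℝ) ^ ((Y ++ Z).length + 1) else 0 :=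
      Finset.sum_nonneg fun j _ => by split_ifs <;> positivity
    linarith

/-! ### The automaton -/

variable [Nonempty α]

/-- The greedy letter. -/
def gr (L : List α) : α :=
  if h : ∃ g : α, Phi Sat (L ++ [g]) ≤ 5 / 8 * Phi Sat L + r * (5 / 4) then h.choose
  else Classical.arbitrary α

lemma gr_spec (hS : ∀ (j : Fin r) (L : List α), L ≠ [] →
    Nat.card α ≤ 2 * {w : α | Sat j (L ++ [w])}.ncard) (L : List α) :
    Phi Sat (L ++ [gr Sat L]) ≤ 5 / 8 * Phi Sat L + r * (5 / 4) := by
  have h := exists_good Sat hS L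
  unfold gr
  rw [dif_pos h]
  exact h.choose_spec

omit [Nonempty α] [Fintype α] in
lemma step_free (K : ℝ) (hK : K = 13 * r) (L : List α) (hL : Phi Sat L ≤ K) (g w : α)
    (hg : Phi Sat (L ++ [g]) ≤ 5 / 8 * Phi Sat L + r * (5 / 4)) :
    Phi Sat (L ++ [g, w]) ≤ K := by
  have e : L ++ [g, w] = (L ++ [g]) ++ [w] := by simp
  rw [e, Phi_append]
  have h1 := Psi_le Sat (L ++ [g]) w
  have hr : (0 : ℝ) ≤ r := Nat.cast_nonneg r
  subst hK
  nlinarith

/-- One step of the run: append the greedy letter and the free letter, keep the last `T`. -/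
def nxt (T : ℕ) (s : List α) (w : α) : List α :=
  (s ++ [gr Sat s, w]).drop ((s ++ [gr Sat s, w]).length - T)

omit [Fintype α] [Nonempty α] in
lemma Phi_drop' (K : ℝ) (T : ℕ) (hT : K < (5 / 4 : ℝ) ^ T) (Y : List α) (hY : Phi Sat Y ≤ K) :
    Phi Sat (Y.drop (Y.length - T)) = Phi Sat Y := by
  have := Phi_drop Sat K T hT Y hY []
  simpa using this.symm

lemma nxt_good (hS : ∀ (j : Fin r) (L : List α), L ≠ [] →
    Nat.card α ≤ 2 * {w : α | Sat j (L ++ [w])}.ncard) (K : ℝ) (hK : K = 13 * r) (T : ℕ)
    (hT : K < (5 / 4 : ℝ) ^ T) (s : List α) (hs : Phi Sat s ≤ K) (w : α) :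
    Phi Sat (nxt Sat T s w) ≤ K ∧ (nxt Sat T s w).length ≤ T := by
  have h1 := step_free Sat K hK s hs (gr Sat s) w (gr_spec Sat hS s)
  refine ⟨?_, ?_⟩
  · unfold nxt
    rw [Phi_drop' Sat K T hT _ h1]
    exact h1
  · unfold nxt
    simp only [List.length_drop]
    omega

/-- In an infinite run all starts are satisfied in time. -/
lemma run_sat (hS : ∀ (j : Fin r) (L : List α), L ≠ [] →
    Nat.card α ≤ 2 * {w : α | Sat j (L ++ [w])}.ncard) (K : ℝ) (hK : K = 13 * r) (T : ℕ)
    (hT : K < (5 / 4 : ℝ) ^ T) (st : ℕ → List α) (u x : ℕ → α) (h0 : Phi Sat (st 0) ≤ K)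
    (h0l : (st 0).length ≤ T)
    (hst : ∀ p, st (p + 1) = nxt Sat T (st p) (u p)) (hx0 : ∀ p, x (2 * p) = gr Sat (st p))
    (hx1 : ∀ p, x (2 * p + 1) = u p) (i : ℕ) (j : Fin r) :
    ∃ k, 1 ≤ k ∧ k ≤ T + 2 ∧ Sat j (List.ofFn fun t : Fin (k + 1) => x (i + t)) := by
  -- the lists without truncation
  have key : ∀ p, Phi Sat (st 0 ++ List.ofFn fun t : Fin (2 * p) => x t) ≤ K ∧
      st p = (st 0 ++ List.ofFn fun t : Fin (2 * p) => x t).drop
        ((st 0 ++ List.ofFn fun t : Fin (2 * p) => x t).length - T) := by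
    intro p
    induction p with
    | zero =>
      simp only [Nat.mul_zero, List.ofFn_zero, List.append_nil]
      refine ⟨h0, ?_⟩
      rw [Nat.sub_eq_zero_of_le h0l, List.drop_zero]
    | succ p ih =>
      obtain ⟨ih1, ih2⟩ := ih
      set Y := st 0 ++ List.ofFn fun t : Fin (2 * p) => x t with hY
      have e : (st 0 ++ List.ofFn fun t : Fin (2 * (p + 1)) => x t) =
          Y ++ [gr Sat (st p), u p] := by
        rw [hY, List.append_assoc]
        congr 1
        have : (List.ofFn fun t : Fin (2 * p + 1 + 1) => x t) =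
            (List.ofFn fun t : Fin (2 * p) => x t) ++ [x (2 * p), x (2 * p + 1)] := by
          rw [List.ofFn_succ_last, List.ofFn_succ_last]
          simp
        rw [hx0, hx1] at this
        exact this
      rw [e]
      have h1 : Phi Sat (Y ++ [gr Sat (st p), u p]) =
          Phi Sat (st p ++ [gr Sat (st p), u p]) := by
        rw [Phi_drop Sat K T hT Y ih1, ← ih2]
      have h2 : Phi Sat (st p) ≤ K := by
        rw [ih2, Phi_drop' Sat K T hT Y ih1]; exact ih1
      refine ⟨?_, ?_⟩
      · rw [h1]
        exact step_free Sat K hK _ h2 _ _ (gr_spec Sat hS _)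
      · rw [hst p]
        unfold nxt
        set v := [gr Sat (st p), u p] with hv
        have hvl : v.length = 2 := by simp [hv]
        rw [ih2]
        by_cases hc : Y.length ≤ T
        · rw [Nat.sub_eq_zero_of_le hc, List.drop_zero]
        · have h3 : (Y.drop (Y.length - T) ++ v).length - T = 2 := by
            simp [hvl]; omega
          have h4 : (Y ++ v).length - T = (Y.length - T) + 2 := by
            simp [hvl]; omega
          have h5 : (Y ++ v).drop (Y.length - T) = Y.drop (Y.length - T) ++ v :=
            List.drop_append_of_le_length (by omega)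
          rw [h3, h4, ← h5, List.drop_drop]
  -- choose the time
  obtain ⟨p, hp1, hp2⟩ : ∃ p, i + T < 2 * p ∧ 2 * p ≤ i + T + 2 := ⟨(i + T) / 2 + 1, by omega, by omega⟩
  obtain ⟨h1, -⟩ := key p
  have e : (st 0 ++ List.ofFn fun t : Fin (2 * p) => x t) =
      (st 0 ++ List.ofFn fun t : Fin i => x t) ++ List.ofFn fun t : Fin (2 * p - i) => x (i + t) := by
    rw [List.append_assoc]
    congr 1
    have h5 : 2 * p = i + (2 * p - i) := by omega
    apply List.ext_getElem
    · simp; omega
    · intro n hn1 hn2
      rw [List.getElem_ofFn]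
      by_cases hc : n < i
      · rw [List.getElem_append_left (by simpa using hc), List.getElem_ofFn]
      · rw [List.getElem_append_right (by simpa using hc), List.getElem_ofFn]
        congr 1
        simp
        omega
  rw [e] at h1
  have h6 := sat_of_old Sat K T hT (List.ofFn fun t : Fin (2 * p - i) => x (i + t)) _ h1
    (by simp; omega) (by
      intro h
      have := congrArg List.length h
      simp at this
      omega) j
  unfold Unsat at h6
  push Not at h6
  obtain ⟨k, hk1, hk2, hk3⟩ := h6
  rw [List.length_ofFn] at hk2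
  refine ⟨k, hk1, by omega, ?_⟩
  have e2 : (List.ofFn fun t : Fin (2 * p - i) => x (i + t)).take (k + 1) =
      List.ofFn fun t : Fin (k + 1) => x (i + t) := by
    apply List.ext_getElem
    · simp; omega
    · intro n hn1 hn2
      rw [List.getElem_take, List.getElem_ofFn, List.getElem_ofFn]
  rwa [e2] at hk3

end

end Pool.Agent.H30.MZ.LoopAux

namespace Pool.Agent.H30.MZ

open LoopAux Classical

theorem LOOP_proved (hA : S_AUT) : S_LOOP := by
  intro α hfin r Sat hS w₀ w₁ hw
  haveI : Fintype α := Fintype.ofFinite α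
  haveI : Nonempty α := ⟨w₀⟩
  obtain ⟨K, hK⟩ : ∃ K : ℝ, K = 13 * r := ⟨_, rfl⟩
  obtain ⟨T, hT⟩ : ∃ T : ℕ, K < (5 / 4 : ℝ) ^ T := pow_unbounded_of_one_lt K (by norm_num)
  -- states
  have hfinP : Finite {L : List α // Phi Sat L ≤ K ∧ L.length ≤ T} := by
    have h1 : {L : List α | L.length ≤ T}.Finite := List.finite_length_le α T
    exact (h1.subset fun L hL => hL.2).to_subtype
  have hne : Nonempty {L : List α // Phi Sat L ≤ K ∧ L.length ≤ T} :=
    ⟨⟨[], by simp [Phi, hK], by simp⟩⟩
  set P := {L : List α // Phi Sat L ≤ K ∧ L.length ≤ T} with hP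
  let F : P → α → P := fun s w => ⟨nxt Sat T s.1 w, nxt_good Sat hS K hK T hT s.1 s.2.1 w⟩
  obtain ⟨s, v, hv⟩ := hA P α F (fun c => if c then w₀ else w₁)
  set lam : Bool → List α := fun c => (if c then w₀ else w₁) :: v c with hlam
  have hlamF : ∀ c, (lam c).foldl F s = s := fun c => hv c
  set V : Bool → List α := fun c => lam c ++ lam (!c) with hV
  have hVF : ∀ c, (V c).foldl F s = s := by
    intro c
    simp only [hV, List.foldl_append, hlamF]
  have hVl : ∀ c, (V c).length = (V true).length := by
    intro c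
    cases c <;> simp [hV, add_comm]
  set m := (V true).length with hm
  have hm2 : 2 ≤ m := by
    simp only [hm, hV, hlam, List.length_append, List.length_cons]
    omega
  let sc : Bool → ℕ → P := fun c p => ((V c).take p).foldl F s
  let uc : Bool → ℕ → α := fun c p => (V c).getD p w₀
  have sc0 : ∀ c, sc c 0 = s := fun c => by simp [sc]
  have scm : ∀ c, sc c m = s := by
    intro c
    simp only [sc]
    rw [List.take_of_length_le (by rw [hVl c]), hVF]
  have scs : ∀ c p, p < m → sc c (p + 1) = F (sc c p) (uc c p) := by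
    intro c p hp
    have hp' : p < (V c).length := by rw [hVl c]; exact hp
    simp only [sc, uc]
    rw [List.take_succ_eq_append_getElem hp', List.foldl_append, List.foldl_cons, List.foldl_nil,
      List.getD_eq_getElem _ _ hp']
  let R : Bool → ℕ → α := fun c n => if n % 2 = 0 then gr Sat (sc c (n / 2)).1 else uc c (n / 2)
  have hR0 : ∀ c q, R c (2 * q) = gr Sat (sc c q).1 := by
    intro c q
    simp only [R]
    rw [if_pos (by omega), show 2 * q / 2 = q by omega]
  have hR1 : ∀ c q, R c (2 * q + 1) = uc c q := by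
    intro c q
    simp only [R]
    rw [if_neg (by omega), show (2 * q + 1) / 2 = q by omega]
  refine ⟨T + 2, 2 * m, R, by omega, ⟨1, by omega, ?_⟩, ?_, ?_⟩
  · have h1 := hR1 true 0
    have h2 := hR1 false 0
    simp only [Nat.mul_zero, zero_add] at h1 h2
    rw [h1, h2]
    simp only [uc, hV, hlam]
    simpa using hw
  · intro c
    cases c with
    | true =>
      refine ⟨1, by omega, ?_⟩
      have h1 := hR1 true 0
      simp only [Nat.mul_zero, zero_add] at h1
      rw [h1]
      simp [uc, hV, hlam]
    | false =>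
      have hl : (lam false).length < m := by
        simp only [hm, hV, hlam, List.length_append, List.length_cons, Bool.not_true]
        omega
      refine ⟨2 * (lam false).length + 1, by omega, ?_⟩
      rw [hR1]
      simp only [uc, hV, Bool.not_false]
      rw [List.getD_eq_getElem _ _ (by simp [hlam]), List.getElem_append_right (le_refl _)]
      simp [hlam]
  · intro f i j
    refine run_sat Sat hS K hK T hT (fun p => (sc (f (p / m)) (p % m)).1)
      (fun p => uc (f (p / m)) (p % m)) (cat (2 * m) R f) ?_ ?_ ?_ ?_ ?_ i j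
    · exact (sc (f (0 / m)) (0 % m)).2.1
    · exact (sc (f (0 / m)) (0 % m)).2.2
    · intro p
      have hF : ∀ (t : P) (w : α), nxt Sat T t.1 w = (F t w).1 := fun t w => rfl
      rw [hF]
      congr 1
      have hmpos : 0 < m := by omega
      have hpm : p % m < m := Nat.mod_lt _ hmpos
      by_cases hc : p % m + 1 < m
      · have e1 : (p + 1) / m = p / m := by
          rw [Nat.succ_div, if_neg, add_zero]
          intro hd
          have := Nat.mod_eq_zero_of_dvd hd
          rw [Nat.add_mod, Nat.mod_eq_of_lt (show 1 < m by omega), Nat.mod_eq_of_lt hc] at this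
          omega
        have e2 : (p + 1) % m = p % m + 1 := by
          rw [Nat.add_mod, Nat.mod_eq_of_lt (show 1 < m by omega), Nat.mod_eq_of_lt hc]
        rw [e1, e2]
        exact scs _ _ hpm
      · have e0 : p % m + 1 = m := by omega
        have hd : m ∣ p + 1 := by
          have := Nat.div_add_mod p m
          exact ⟨p / m + 1, by rw [mul_add, mul_one]; omega⟩
        have e2 : (p + 1) % m = 0 := Nat.mod_eq_zero_of_dvd hd
        rw [e2, sc0, ← scs _ _ hpm, e0, scm]
    · intro p
      simp only [cat]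
      rw [Nat.mul_div_mul_left _ _ (by norm_num : 0 < 2), Nat.mul_mod_mul_left, hR0]
    · intro p
      simp only [cat]
      have e1 : (2 * p + 1) / (2 * m) = p / m := by
        rw [← Nat.div_div_eq_div_mul, show (2 * p + 1) / 2 = p by omega]
      have e2 : (2 * p + 1) % (2 * m) = 2 * (p % m) + 1 := by
        rw [Nat.mod_mul, show (2 * p + 1) / 2 = p by omega]
        omega
      rw [e1, e2, hR1]

end Pool.Agent.H30.MZ
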