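import Pool.Agent.H30.MZ.Stm

set_option autoImplicit false

namespace Pool.Agent.H30.MZ

open Set Filter Topology

theorem OPN_proved : S_OPN := by
  intro M G hG
  -- the compact set which is to be avoided
  set C : Set (AddCircle (1 : ℝ)) := (fun r : ℝ => (r : AddCircle (1 : ℝ))) '' (Icc (-M) M \ G) with hC
  have hCc : IsCompact C := by
    apply IsCompact.image
    · exact isCompact_Icc.diff hG
    · exact AddCircle.continuous_mk' 1
  have e : {K : TopologicalSpace.NonemptyCompacts (AddCircle (1 : ℝ)) |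
      ∀ r ∈ Icc (-M) M, (r : AddCircle (1 : ℝ)) ∈ K → r ∈ G} =
      {K : TopologicalSpace.NonemptyCompacts (AddCircle (1 : ℝ)) |
        (K : Set (AddCircle (1 : ℝ))) ⊆ Cᶜ} := by
    ext K
    simp only [mem_setOf_eq]
    constructor
    · intro h x hx hxC
      obtain ⟨r, hr, rfl⟩ := hxC
      exact hr.2 (h r hr.1 hx)
    · intro h r hr hrK
      by_contra hG'
      exact h hrK ⟨r, ⟨hr, hG'⟩, rfl⟩
  rw [e, Metric.isOpen_iff]
  intro K hK
  obtain ⟨δ, hδ, hsub⟩ := K.isCompact.exists_thickening_subset_open hCc.isClosed.isOpen_compl hK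
  refine ⟨δ, hδ, fun K' hK' => ?_⟩
  intro x hx
  apply hsub
  rw [Metric.mem_ball, Metric.NonemptyCompacts.dist_eq] at hK'
  have hfin : Metric.hausdorffEDist (K' : Set (AddCircle (1 : ℝ))) K ≠ ⊤ :=
    Metric.hausdorffEDist_ne_top_of_nonempty_of_bounded K'.nonempty K.nonempty
      K'.isCompact.isBounded K.isCompact.isBounded
  obtain ⟨y, hy, hxy⟩ := Metric.exists_dist_lt_of_hausdorffDist_lt hx hK' hfin
  rw [Metric.mem_thickening_iff]
  exact ⟨y, hy, hxy⟩

end Pool.Agent.H30.MZ
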