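import Pool.Agent.H30.MZ.Stm

set_option autoImplicit false

namespace Pool.Agent.H30.MZ

open Set Filter Topology

theorem OPN2_proved : S_OPN2 := by
  intro T δ q
  have hcont : ∀ t, Continuous fun r : ℝ => q.seq r t := by
    intro t
    unfold Con.seq
    fun_prop
  -- it suffices to consider v in [0,1]
  have e : {r : ℝ | Dens T δ (q.seq r)} =
      {r : ℝ | ∀ v ∈ Icc (0 : ℝ) 1, (r, v) ∈ {p : ℝ × ℝ | ∃ t : ℕ, t < T ∧ ∃ k : ℤ,
        |q.seq p.1 t - p.2 - k| < δ}} := by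
    ext r
    simp only [mem_setOf_eq]
    constructor
    · intro h v _
      exact h v
    · intro h v
      obtain ⟨t, ht, k, hk⟩ := h (Int.fract v) ⟨Int.fract_nonneg v, (Int.fract_lt_one v).le⟩
      refine ⟨t, ht, k - ⌊v⌋, ?_⟩
      push_cast
      have : q.seq r t - v - (k - ⌊v⌋) = q.seq r t - Int.fract v - k := by
        rw [Int.fract]; ring
      rwa [this]
  rw [e]
  have hU : IsOpen {p : ℝ × ℝ | ∃ t : ℕ, t < T ∧ ∃ k : ℤ, |q.seq p.1 t - p.2 - k| < δ} := by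
    have : {p : ℝ × ℝ | ∃ t : ℕ, t < T ∧ ∃ k : ℤ, |q.seq p.1 t - p.2 - k| < δ} =
        ⋃ (t : ℕ) (_ : t < T) (k : ℤ), {p : ℝ × ℝ | |q.seq p.1 t - p.2 - k| < δ} := by
      ext p; simp
    rw [this]
    refine isOpen_iUnion fun t => isOpen_iUnion fun _ => isOpen_iUnion fun k => ?_
    apply isOpen_lt _ continuous_const
    have := hcont t
    fun_prop
  rw [isOpen_iff_mem_nhds]
  intro r hr
  have h1 : ({r} : Set ℝ) ×ˢ Icc (0 : ℝ) 1 ⊆ {p : ℝ × ℝ | ∃ t : ℕ, t < T ∧ ∃ k : ℤ,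
      |q.seq p.1 t - p.2 - k| < δ} := by
    rintro ⟨r', v⟩ ⟨hr', hv⟩
    rw [mem_singleton_iff] at hr'
    subst hr'
    exact hr v hv
  obtain ⟨u, w, hu, hw, hru, hvw, huw⟩ := generalized_tube_lemma isCompact_singleton
    isCompact_Icc hU h1
  refine mem_of_superset (hu.mem_nhds (hru rfl)) fun r' hr' v hv => huw ⟨hr', hvw hv⟩

end Pool.Agent.H30.MZ
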