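import Pool.Agent.H30.MZ.Stm

set_option autoImplicit false

namespace Pool.Agent.H30.MZ

open Set Filter Topology

theorem ORB_proved : S_ORB := by
  intro b r hb h
  apply Subset.antisymm
  · refine closure_minimal ?_ isClosed_Icc
    rintro _ ⟨n, rfl⟩
    exact ⟨Int.fract_nonneg _, (Int.fract_lt_one _).le⟩
  · rw [← closure_Ioo (zero_ne_one' ℝ)]
    refine closure_minimal ?_ isClosed_closure
    rintro v ⟨hv0, hv1⟩
    unfold O
    rw [Metric.mem_closure_iff]
    intro ε hε
    set δ := min ε (min v (1 - v)) with hδ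
    have hδ0 : 0 < δ := lt_min hε (lt_min hv0 (by linarith))
    have h1 : δ ≤ ε := min_le_left _ _
    have h2 : δ ≤ v := (min_le_right _ _).trans (min_le_left _ _)
    have h3 : δ ≤ 1 - v := (min_le_right _ _).trans (min_le_right _ _)
    obtain ⟨T, hT⟩ := h δ hδ0
    obtain ⟨t, ht, k, hk⟩ := hT v
    refine ⟨_, ⟨t, rfl⟩, ?_⟩
    rw [abs_lt] at hk
    have hfl : ⌊(b : ℝ) ^ t * r⌋ = k := by
      rw [Int.floor_eq_iff]
      constructor <;> linarith [hk.1, hk.2]
    simp only
    rw [Real.dist_eq, Int.fract, hfl, abs_lt]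
    constructor <;> linarith [hk.1, hk.2]

theorem ORA_proved : S_ORA := by
  intro a K r hinv hr
  have hmem : ∀ n : ℕ, (((a : ℝ) ^ n * r : ℝ) : AddCircle (1 : ℝ)) ∈ K := by
    intro n
    induction n with
    | zero => simpa using hr
    | succ n ih =>
      have := hinv _ ih
      have e : (((a : ℝ) ^ (n + 1) * r : ℝ) : AddCircle (1 : ℝ)) =
          a • (((a : ℝ) ^ n * r : ℝ) : AddCircle (1 : ℝ)) := by
        rw [← AddCircle.coe_nsmul]
        congr 1
        rw [nsmul_eq_mul]; ring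
      rw [e]
      exact this
  refine closure_minimal ?_ ?_
  · rintro _ ⟨n, rfl⟩
    refine ⟨⟨Int.fract_nonneg _, (Int.fract_lt_one _).le⟩, ?_⟩
    have e : ((Int.fract ((a : ℝ) ^ n * r) : ℝ) : AddCircle (1 : ℝ)) =
        (((a : ℝ) ^ n * r : ℝ) : AddCircle (1 : ℝ)) := AddCircle.coe_fract _
    rw [e]
    exact hmem n
  · exact isClosed_Icc.inter (K.isCompact.isClosed.preimage (AddCircle.continuous_mk' 1))

end Pool.Agent.H30.MZ
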