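import Pool.Agent.H30.MZ.Stm

/-! Project MZ (helper30), part STAGE: one step of the construction. -/

set_option autoImplicit false

namespace Pool.Agent.H30.MZ.StageAux

open Finset

/-- the value of the word `w 0 … w (l-1)` in base `a` -/
def vl {a : ℕ} (w : ℕ → Fin a) : ℕ → ℕ
  | 0 => 0
  | l + 1 => a * vl w l + (w l : ℕ)

theorem vl_inj {a : ℕ} (u v : ℕ → Fin a) : ∀ l : ℕ, vl u l = vl v l → ∀ i < l, u i = v i := by
  intro l
  induction l with
  | zero => intro _ i hi; omega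
  | succ l ih =>
    intro h i hi
    have h1 : a * vl u l + (u l : ℕ) = a * vl v l + (v l : ℕ) := h
    have hu := (u l).isLt
    have hv := (v l).isLt
    have h2 : (u l : ℕ) = v l := by
      have := congrArg (· % a) h1
      simpa [Nat.mul_add_mod, Nat.mod_eq_of_lt hu, Nat.mod_eq_of_lt hv] using this
    have ha : 0 < a := by omega
    have h3 : vl u l = vl v l := by
      have : a * vl u l = a * vl v l := by omega
      exact Nat.eq_of_mul_eq_mul_left ha this
    rcases Nat.lt_succ_iff_lt_or_eq.1 hi with h4 | h4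
    · exact ih h3 i h4
    · rw [h4]; exact Fin.ext h2

theorem vl_sum {a : ℕ} (ha : 0 < a) (w : ℕ → Fin a) (l : ℕ) :
    ∑ c ∈ range l, ((w c : ℕ) : ℝ) * ((a : ℝ) ^ (c + 1))⁻¹ = (vl w l : ℝ) * ((a : ℝ) ^ l)⁻¹ := by
  have ha' : (a : ℝ) ≠ 0 := by positivity
  induction l with
  | zero => simp [vl]
  | succ l ih =>
    rw [sum_range_succ, ih]
    have : vl w (l + 1) = a * vl w l + (w l : ℕ) := rfl
    rw [this]
    push_cast
    field_simp
    ring

theorem sum_blocks (F : ℕ → ℝ) (l m : ℕ) :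
    ∑ i ∈ range (m * l), F i = ∑ b ∈ range m, ∑ c ∈ range l, F (b * l + c) := by
  induction m with
  | zero => simp
  | succ m ih => rw [Nat.succ_mul, sum_range_add, ih, sum_range_succ]

/-- the digit number `N` of the word with the windows `g 0, g 1, …` -/
def dig {a m : ℕ} [NeZero m] (l : ℕ) (W : Bool → ℕ → Fin a) (g : ℕ → (Fin m → Bool)) (N : ℕ) :
    Fin a :=
  W (g (N / (m * l)) (Fin.ofNat m (N / l))) (N % l)

theorem dig_shift {a m : ℕ} [NeZero m] (l : ℕ) (hl : 0 < l) (W : Bool → ℕ → Fin a)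
    (g : ℕ → (Fin m → Bool)) (n s : ℕ) :
    dig l W g (n + s) = dig l W (fun i => g (s / (m * l) + i)) (n + s % (m * l)) := by
  have hm : 0 < m := Nat.pos_of_ne_zero (NeZero.ne m)
  have hml : 0 < m * l := Nat.mul_pos hm hl
  have e0 : n + s = (n + s % (m * l)) + (m * l) * (s / (m * l)) := by
    have := Nat.mod_add_div s (m * l)
    omega
  have e1 : (n + s) / (m * l) = s / (m * l) + (n + s % (m * l)) / (m * l) := by
    conv_lhs => rw [e0]
    rw [Nat.add_mul_div_left _ _ hml]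
    omega
  have e2 : (n + s) / l = (n + s % (m * l)) / l + m * (s / (m * l)) := by
    conv_lhs => rw [e0]
    have : (m * l) * (s / (m * l)) = l * (m * (s / (m * l))) := by ring
    rw [this, Nat.add_mul_div_left _ _ hl]
  have e3 : (n + s) % l = (n + s % (m * l)) % l := by
    conv_lhs => rw [e0]
    have : (m * l) * (s / (m * l)) = l * (m * (s / (m * l))) := by ring
    rw [this, Nat.add_mul_mod_self_left]
  unfold dig
  rw [e3]
  have e4 : (Fin.ofNat m ((n + s) / l)) = Fin.ofNat m ((n + s % (m * l)) / l) := by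
    apply Fin.ext
    simp only [Fin.val_ofNat]
    rw [e2, Nat.add_mul_mod_self_left]
  rw [e4, e1]

/-- the truncation to the first `K` windows, beginning at the place `j` -/
noncomputable def XX {a m : ℕ} [NeZero m] (l : ℕ) (W : Bool → ℕ → Fin a)
    (g : ℕ → (Fin m → Bool)) (j K : ℕ) : ℝ :=
  ∑ n ∈ range (K * (m * l) - j), ((dig l W g (n + j) : ℕ) : ℝ) * ((a : ℝ) ^ (n + 1))⁻¹

theorem XX_succ {a m : ℕ} [NeZero m] (ha : 0 < a) (l : ℕ) (hl : 0 < l) (W : Bool → ℕ → Fin a)
    (g : ℕ → (Fin m → Bool)) (j K : ℕ) (hj : j < m * l) (hK : 1 ≤ K) :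
    XX l W g j (K + 1) = XX l W g j K + ((a : ℝ) ^ (K * (m * l) - j))⁻¹ *
      ∑ b : Fin m, (vl (W (g K b)) l : ℝ) * (((a : ℝ) ^ l) ^ ((b : ℕ) + 1))⁻¹ := by
  have hm : 0 < m := Nat.pos_of_ne_zero (NeZero.ne m)
  have hml : 0 < m * l := Nat.mul_pos hm hl
  have hKj : j ≤ K * (m * l) := le_trans hj.le (Nat.le_mul_of_pos_left _ hK)
  have e0 : (K + 1) * (m * l) - j = (K * (m * l) - j) + m * l := by
    rw [Nat.succ_mul]; omega
  unfold XX
  rw [e0, sum_range_add]
  congr 1
  rw [sum_blocks, mul_sum, Finset.sum_range]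
  apply Finset.sum_congr rfl
  intro b _
  have e1 : ∀ c < l, dig l W g (K * (m * l) - j + ((b : ℕ) * l + c) + j) = W (g K b) c := by
    intro c hc
    have hb := b.isLt
    have hbc : (b : ℕ) * l + c < m * l := by
      calc (b : ℕ) * l + c < (b : ℕ) * l + l := by omega
        _ = ((b : ℕ) + 1) * l := by ring
        _ ≤ m * l := Nat.mul_le_mul_right _ hb
    have h1 : K * (m * l) - j + ((b : ℕ) * l + c) + j = ((b : ℕ) * l + c) + (m * l) * K := by
      have : K * (m * l) = (m * l) * K := by ring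
      omega
    rw [h1]
    unfold dig
    have h2 : (((b : ℕ) * l + c) + (m * l) * K) / (m * l) = K := by
      rw [Nat.add_mul_div_left _ _ hml, Nat.div_eq_of_lt hbc, zero_add]
    have h4 : (m * l) * K = l * (m * K) := by ring
    have h5 : (b : ℕ) * l + c = c + l * b := by ring
    have h3 : (((b : ℕ) * l + c) + (m * l) * K) / l = b + m * K := by
      rw [h4, Nat.add_mul_div_left _ _ hl, h5, Nat.add_mul_div_left _ _ hl,
        Nat.div_eq_of_lt hc, zero_add]
    have h6 : (((b : ℕ) * l + c) + (m * l) * K) % l = c := by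
      rw [h4, Nat.add_mul_mod_self_left, h5, Nat.add_mul_mod_self_left, Nat.mod_eq_of_lt hc]
    rw [h2, h3, h6]
    have h7 : Fin.ofNat m ((b : ℕ) + m * K) = b := by
      apply Fin.ext
      simp only [Fin.val_ofNat]
      rw [Nat.add_mul_mod_self_left, Nat.mod_eq_of_lt hb]
    rw [h7]
  have e2 : ∑ c ∈ range l, ((dig l W g (K * (m * l) - j + ((b : ℕ) * l + c) + j) : ℕ) : ℝ) *
      ((a : ℝ) ^ (K * (m * l) - j + ((b : ℕ) * l + c) + 1))⁻¹ =
      ((a : ℝ) ^ (K * (m * l) - j))⁻¹ * (((a : ℝ) ^ l) ^ (b : ℕ))⁻¹ *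
        ∑ c ∈ range l, ((W (g K b) c : ℕ) : ℝ) * ((a : ℝ) ^ (c + 1))⁻¹ := by
    rw [mul_sum]
    apply Finset.sum_congr rfl
    intro c hc
    rw [e1 c (Finset.mem_range.1 hc)]
    have : (a : ℝ) ^ (K * (m * l) - j + ((b : ℕ) * l + c) + 1) =
        (a : ℝ) ^ (K * (m * l) - j) * ((a : ℝ) ^ l) ^ (b : ℕ) * (a : ℝ) ^ (c + 1) := by
      rw [← pow_mul, ← pow_add, ← pow_add]
      congr 1
      ring
    rw [this, mul_inv, mul_inv]
    ring
  rw [e2, vl_sum ha, pow_succ, mul_inv]
  ring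

theorem XX_congr {a m : ℕ} [NeZero m] (l : ℕ) (hl : 0 < l) (W : Bool → ℕ → Fin a)
    (g g' : ℕ → (Fin m → Bool)) (j K : ℕ) (h : ∀ i < K, g i = g' i) :
    XX l W g j K = XX l W g' j K := by
  have hm : 0 < m := Nat.pos_of_ne_zero (NeZero.ne m)
  have hml : 0 < m * l := Nat.mul_pos hm hl
  unfold XX
  apply Finset.sum_congr rfl
  intro n hn
  have hn' := Finset.mem_range.1 hn
  have h1 : (n + j) / (m * l) < K := by
    rw [Nat.div_lt_iff_lt_mul hml]; omega
  unfold dig
  rw [h _ h1]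

theorem cat_comp {a m : ℕ} [NeZero m] (l : ℕ) (W : Bool → ℕ → Fin a) (M : ℕ)
    (R : Bool → ℕ → (Fin m → Bool)) (f : ℕ → Bool) (N : ℕ) :
    cat (M * m * l) (comp l W (fun c n => R c (n / m) (Fin.ofNat m n))) f N =
      dig l W (cat M R f) N := by
  unfold cat comp dig
  have e1 : N / (M * m * l) = N / (m * l) / M := by
    rw [Nat.div_div_eq_div_mul]; congr 1; ring
  have e2 : N % (M * m * l) / l / m = N / (m * l) % M := by
    rw [Nat.div_div_eq_div_mul]
    have : M * m * l = (l * m) * M := by ring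
    rw [this, Nat.mod_mul_right_div_self]
    have : l * m = m * l := by ring
    rw [this]
  have e3 : Fin.ofNat m (N % (M * m * l) / l) = Fin.ofNat m (N / l) := by
    apply Fin.ext
    simp only [Fin.val_ofNat]
    have : M * m * l = l * (M * m) := by ring
    rw [this, Nat.mod_mul_right_div_self]
    exact Nat.mod_mod_of_dvd _ (Dvd.intro_left M rfl)
  have e4 : N % (M * m * l) % l = N % l := Nat.mod_mod_of_dvd _ (Dvd.intro_left (M * m) rfl)
  simp only
  rw [e1, e2, e3, e4]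

end StageAux

open StageAux

theorem STAGE_proved (h1 : S_WIN) (h2 : S_LOOP) : S_STAGE := by
  intro a l W q δ ha hW hq hδ
  obtain ⟨hl, i0, hi0, hWi0⟩ := hW
  obtain ⟨hβ, hirr, hθ⟩ := hq
  have ha0 : 0 < a := by omega
  have haR : (1 : ℝ) < a := by exact_mod_cast (by omega : 1 < a)
  have haR0 : (0 : ℝ) < a := by positivity
  have hβ0 : 0 < q.β := by linarith
  -- the difference of the two words
  obtain ⟨d, hd⟩ : ∃ d : ℤ, d = (vl (W true) l : ℤ) - vl (W false) l := ⟨_, rfl⟩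
  have hd0 : d ≠ 0 := by
    intro h
    have h3 : vl (W true) l = vl (W false) l := by omega
    exact hWi0 (vl_inj _ _ l h3 i0 hi0)
  have hA2 : 2 ≤ a ^ l := le_trans ha (Nat.le_self_pow hl.ne' a)
  have hirrA : Irrational (Real.log q.β / Real.log ((a ^ l : ℕ) : ℝ)) := by
    have : Real.log q.β / Real.log ((a ^ l : ℕ) : ℝ) = Real.log q.β / Real.log a / l := by
      push_cast
      rw [Real.log_pow, div_div, mul_comm]
    rw [this]
    exact hirr.div_natCast hl.ne'
  obtain ⟨S, m₀, hwin⟩ := h1 (a ^ l) q.β q.θ (δ / 2) d hA2 hβ hirrA hθ hd0 (by positivity)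
  -- the length of the windows
  obtain ⟨m, hm0, hm6, hmδ⟩ : ∃ m : ℕ, m₀ ≤ m ∧ 6 ≤ m ∧
      |q.θ| * q.β ^ (S + 1) * ((a : ℝ) ^ (m * l))⁻¹ ≤ δ / 2 := by
    have ht : Filter.Tendsto (fun m : ℕ => |q.θ| * q.β ^ (S + 1) * ((a : ℝ)⁻¹) ^ m)
        Filter.atTop (nhds (|q.θ| * q.β ^ (S + 1) * 0)) := by
      apply Filter.Tendsto.const_mul
      exact tendsto_pow_atTop_nhds_zero_of_lt_one (by positivity) (inv_lt_one_of_one_lt₀ haR)
    rw [mul_zero] at ht
    have hev := ht.eventually (ge_mem_nhds (show (0 : ℝ) < δ / 2 by positivity))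
    obtain ⟨m1, hm1⟩ := Filter.eventually_atTop.1 hev
    refine ⟨max m₀ (max 6 m1), le_max_left _ _, le_trans (le_max_left _ _) (le_max_right _ _), ?_⟩
    have h3 : m1 ≤ max m₀ (max 6 m1) * l :=
      le_trans (le_trans (le_max_right _ _) (le_max_right _ _)) (Nat.le_mul_of_pos_right _ hl)
    have h4 := hm1 _ h3
    rw [inv_pow] at h4
    exact h4
  have hmpos : 0 < m := by omega
  have : NeZero m := ⟨hmpos.ne'⟩
  have hml : 0 < m * l := Nat.mul_pos hmpos hl
  -- the times
  have hex : ∀ e : ℕ, ∃ n : ℕ, (a : ℝ) ^ e ≤ q.β ^ n := by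
    intro e
    obtain ⟨n, hn⟩ := pow_unbounded_of_one_lt ((a : ℝ) ^ e) hβ
    exact ⟨n, hn.le⟩
  let ne : ℕ → ℕ := fun e => Nat.find (hex e)
  have hne1 : ∀ e, (a : ℝ) ^ e ≤ q.β ^ (ne e) := fun e => Nat.find_spec (hex e)
  have hne2 : ∀ e, q.β ^ (ne e) ≤ q.β * (a : ℝ) ^ e := by
    intro e
    rcases Nat.eq_zero_or_pos (ne e) with h | h
    · rw [h, pow_zero]
      have : (1 : ℝ) ≤ (a : ℝ) ^ e := one_le_pow₀ haR.le
      nlinarith
    · have h3 : ¬ (a : ℝ) ^ e ≤ q.β ^ (ne e - 1) := Nat.find_min (hex e) (show ne e - 1 < ne e by omega)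
      push Not at h3
      have h4 : q.β ^ (ne e) = q.β * q.β ^ (ne e - 1) := by
        rw [← pow_succ']; congr 1; omega
      rw [h4]
      exact mul_le_mul_of_nonneg_left h3.le hβ0.le
  have hne3 : ∀ e e', e ≤ e' → ne e ≤ ne e' := by
    intro e e' hee
    exact Nat.find_min' (hex e) (le_trans (pow_le_pow_right₀ haR.le hee) (hne1 e'))
  -- the two windows
  let w₀ : Fin m → Bool := fun b => decide ((b : ℕ) = 2 ∨ (b : ℕ) = 3)
  let w₁ : Fin m → Bool := fun _ => true
  have hw01 : w₀ ≠ w₁ := by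
    intro h
    have := congrFun h ⟨0, hmpos⟩
    simp [w₀, w₁] at this
  let Sat : Fin (m * l) → List (Fin m → Bool) → Prop := fun j L =>
    2 ≤ L.length ∧ Dens S (δ / 2) (fun t =>
      q.θ * q.β ^ (ne ((L.length - 1) * (m * l) - j) + t) *
        XX l W (fun i => L.getD i w₀) j L.length + q.y (ne ((L.length - 1) * (m * l) - j) + t))
  have hSat : ∀ (j : Fin (m * l)) (L : List (Fin m → Bool)), L ≠ [] →
      Nat.card (Fin m → Bool) ≤ 2 * {w : Fin m → Bool | Sat j (L ++ [w])}.ncard := by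
    intro j L hL
    have hlen : 1 ≤ L.length := by
      rcases L with _ | ⟨x, L⟩
      · exact absurd rfl hL
      · simp
    obtain ⟨e, he⟩ : ∃ e : ℕ, e = L.length * (m * l) - j := ⟨_, rfl⟩
    obtain ⟨P, hP⟩ : ∃ P : ℝ, P = XX l W (fun i => L.getD i w₀) j L.length := ⟨_, rfl⟩
    have hκ1 : 1 ≤ q.β ^ (ne e) * ((a : ℝ) ^ e)⁻¹ := by
      rw [← div_eq_mul_inv, one_le_div (by positivity)]
      exact hne1 e
    have hκ2 : q.β ^ (ne e) * ((a : ℝ) ^ e)⁻¹ ≤ q.β := by
      rw [← div_eq_mul_inv, div_le_iff₀ (by positivity)]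
      exact hne2 e
    have h3 := hwin m hm0 (q.β ^ (ne e) * ((a : ℝ) ^ e)⁻¹) hκ1 hκ2
      (fun t => q.θ * q.β ^ (ne e + t) * (P + ((a : ℝ) ^ e)⁻¹ * ((vl (W false) l : ℝ) *
        ∑ b : Fin m, (((a : ℝ) ^ l) ^ ((b : ℕ) + 1))⁻¹)) + q.y (ne e + t))
    have hcard : Nat.card (Fin m → Bool) = 2 ^ m := by simp
    rw [hcard]
    refine le_trans h3 (Nat.mul_le_mul_left 2 (Set.ncard_le_ncard ?_ (Set.toFinite _)))
    intro z hz
    have hlen2 : (L ++ [z]).length = L.length + 1 := by simp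
    refine ⟨by rw [hlen2]; omega, ?_⟩
    rw [hlen2, Nat.add_sub_cancel, ← he, XX_succ ha0 l hl W _ j L.length j.isLt hlen, ← he]
    have e1 : (L ++ [z]).getD L.length w₀ = z := by simp
    have e2 : XX l W (fun i => (L ++ [z]).getD i w₀) j L.length = P := by
      rw [hP]
      apply XX_congr l hl
      intro i hi
      simp only [List.getD_eq_getElem?_getD]
      rw [List.getElem?_append_left hi]
    have e3 : ∑ b : Fin m, (vl (W (z b)) l : ℝ) * (((a : ℝ) ^ l) ^ ((b : ℕ) + 1))⁻¹ =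
        (vl (W false) l : ℝ) * ∑ b : Fin m, (((a : ℝ) ^ l) ^ ((b : ℕ) + 1))⁻¹ +
        d * ∑ b : Fin m, (if z b then (1 : ℝ) else 0) / ((a ^ l : ℕ) : ℝ) ^ ((b : ℕ) + 1) := by
      rw [Finset.mul_sum, Finset.mul_sum, ← Finset.sum_add_distrib]
      apply Finset.sum_congr rfl
      intro b _
      cases hzb : z b
      · simp
      · simp only [if_true]
        rw [hd]
        push_cast
        rw [one_div]
        ring
    rw [e2]
    simp only [e1]
    rw [e3]
    have hz' : Dens S (δ / 2) _ := hz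
    intro v
    obtain ⟨t, ht, k, hk⟩ := hz' v
    refine ⟨t, ht, k, ?_⟩
    refine lt_of_eq_of_lt ?_ hk
    congr 1
    rw [pow_add]
    ring
  -- the loop lemma
  obtain ⟨T', M', R', hM', ⟨i1, hi1, hRi1⟩, hRw, hloop⟩ := h2 (Fin m → Bool) (m * l) Sat hSat w₀ w₁
    hw01
  let R : Bool → ℕ → Bool := fun c n => R' c (n / m) (Fin.ofNat m n)
  refine ⟨ne (T' * (m * l)) + S, M' * m, R, ⟨Nat.mul_pos hM' hmpos, ?_⟩, ?_, ?_⟩
  · -- different words
    have : ∃ b : Fin m, R' true i1 b ≠ R' false i1 b := by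
      by_contra hcon
      push Not at hcon
      exact hRi1 (funext hcon)
    obtain ⟨b, hb⟩ := this
    have hbm := b.isLt
    refine ⟨i1 * m + b, ?_, ?_⟩
    · calc i1 * m + b < i1 * m + m := by omega
        _ = (i1 + 1) * m := by ring
        _ ≤ M' * m := Nat.mul_le_mul_right _ hi1
    · have e1 : (i1 * m + (b : ℕ)) / m = i1 := by
        rw [mul_comm, Nat.mul_add_div hmpos, Nat.div_eq_of_lt hbm, add_zero]
      have e2 : Fin.ofNat m (i1 * m + (b : ℕ)) = b := by
        apply Fin.ext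
        simp only [Fin.val_ofNat]
        rw [mul_comm, Nat.mul_add_mod, Nat.mod_eq_of_lt hbm]
      simp only [R]
      rw [e1, e2]
      exact hb
  · -- all pairs
    intro c b b'
    obtain ⟨i, hi, hRi⟩ := hRw c
    have key : ∀ r, r < m → R c (i * m + r) = decide (r = 2 ∨ r = 3) := by
      intro r hr
      have e1 : (i * m + r) / m = i := by
        rw [mul_comm, Nat.mul_add_div hmpos, Nat.div_eq_of_lt hr, add_zero]
      have e2 : ((Fin.ofNat m (i * m + r) : Fin m) : ℕ) = r := by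
        simp only [Fin.val_ofNat]
        rw [mul_comm, Nat.mul_add_mod, Nat.mod_eq_of_lt hr]
      simp only [R]
      rw [e1, hRi]
      simp only [w₀]
      rw [e2]
    have hbd : ∀ r, r + 1 < m → i * m + r + 1 < M' * m := by
      intro r hr
      calc i * m + r + 1 < i * m + m := by omega
        _ = (i + 1) * m := by ring
        _ ≤ M' * m := Nat.mul_le_mul_right _ hi
    have fin : ∀ r, r + 1 < m → decide (r = 2 ∨ r = 3) = b → decide (r + 1 = 2 ∨ r + 1 = 3) = b' →
        ∃ p, p + 1 < M' * m ∧ R c p = b ∧ R c (p + 1) = b' := by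
      intro r hr hb hb'
      refine ⟨i * m + r, hbd r hr, ?_, ?_⟩
      · rw [key r (by omega)]; exact hb
      · rw [add_assoc, key (r + 1) hr]; exact hb'
    cases b
    · cases b'
      · exact fin 0 (by omega) (by decide) (by decide)
      · exact fin 1 (by omega) (by decide) (by decide)
    · cases b'
      · exact fin 3 (by omega) (by decide) (by decide)
      · exact fin 2 (by omega) (by decide) (by decide)
  · -- density
    intro x hx
    obtain ⟨f, s, hxs⟩ := hx
    obtain ⟨j, hj⟩ : ∃ j : Fin (m * l), (j : ℕ) = s % (m * l) := ⟨⟨s % (m * l), Nat.mod_lt _ hml⟩, rfl⟩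
    obtain ⟨k, hk1, hkT, hk⟩ := hloop f (s / (m * l)) j
    obtain ⟨g, hg⟩ : ∃ g : ℕ → (Fin m → Bool), g = fun i => cat M' R' f (s / (m * l) + i) := ⟨_, rfl⟩
    obtain ⟨-, hdens⟩ := hk
    rw [List.length_ofFn, Nat.add_sub_cancel] at hdens
    have hgetD : ∀ i < k + 1, (List.ofFn fun t : Fin (k + 1) =>
        cat M' R' f (s / (m * l) + t)).getD i w₀ = g i := by
      intro i hi
      rw [hg, List.getD_eq_getElem?_getD, List.getElem?_ofFn]
      simp [hi]
    rw [XX_congr l hl W _ g j (k + 1) hgetD] at hdens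
    obtain ⟨e, he⟩ : ∃ e : ℕ, e = k * (m * l) - j := ⟨_, rfl⟩
    rw [← he] at hdens
    have hjk : (j : ℕ) ≤ k * (m * l) := le_trans j.isLt.le (Nat.le_mul_of_pos_left _ hk1)
    -- the digits of x
    have hxn : ∀ n, x n = dig l W g (n + j) := by
      intro n
      rw [hxs n, cat_comp, dig_shift l hl, ← hj, hg]
    have hX : |Real.ofDigits x - XX l W g j (k + 1)| ≤ ((a : ℝ) ^ e)⁻¹ * ((a : ℝ) ^ (m * l))⁻¹ := by
      have h3 : (k + 1) * (m * l) - j = e + m * l := by
        rw [Nat.succ_mul, he]; omega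
      have h4 := Real.ofDigits_eq_sum_add_ofDigits x (e + m * l)
      have h5 : XX l W g j (k + 1) = ∑ i ∈ Finset.range (e + m * l), Real.ofDigitsTerm x i := by
        unfold XX
        rw [h3]
        apply Finset.sum_congr rfl
        intro n _
        unfold Real.ofDigitsTerm
        rw [hxn n]
      rw [h4, h5, add_sub_cancel_left, abs_of_nonneg
        (mul_nonneg (by positivity) (Real.ofDigits_nonneg _)), pow_add, mul_inv]
      have h6 := Real.ofDigits_le_one (fun i => x (i + (e + m * l)))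
      have h7 : 0 ≤ ((a : ℝ) ^ e)⁻¹ * ((a : ℝ) ^ (m * l))⁻¹ := by positivity
      nlinarith
    intro v
    obtain ⟨t, ht, K, hK⟩ := hdens v
    have heT : ne e ≤ ne (T' * (m * l)) := by
      apply hne3
      have : k * (m * l) ≤ T' * (m * l) := Nat.mul_le_mul_right _ hkT
      omega
    refine ⟨ne e + t, by omega, K, ?_⟩
    have h8 : q.seq (Real.ofDigits x) (ne e + t) - v - K =
        (q.θ * q.β ^ (ne e + t) * XX l W g j (k + 1) + q.y (ne e + t) - v - K) +
        q.θ * q.β ^ (ne e + t) * (Real.ofDigits x - XX l W g j (k + 1)) := by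
      unfold Con.seq
      ring
    rw [h8]
    have h9 : |q.θ * q.β ^ (ne e + t) * (Real.ofDigits x - XX l W g j (k + 1))| ≤ δ / 2 := by
      rw [abs_mul, abs_mul, abs_of_pos (pow_pos hβ0 (ne e + t))]
      calc |q.θ| * q.β ^ (ne e + t) * |Real.ofDigits x - XX l W g j (k + 1)|
          ≤ |q.θ| * q.β ^ (ne e + t) * (((a : ℝ) ^ e)⁻¹ * ((a : ℝ) ^ (m * l))⁻¹) :=
            mul_le_mul_of_nonneg_left hX (by positivity)
        _ = |q.θ| * ((q.β ^ (ne e) * ((a : ℝ) ^ e)⁻¹) * q.β ^ t) * ((a : ℝ) ^ (m * l))⁻¹ := by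
            rw [pow_add]; ring
        _ ≤ |q.θ| * (q.β * q.β ^ S) * ((a : ℝ) ^ (m * l))⁻¹ := by
            apply mul_le_mul_of_nonneg_right _ (by positivity)
            apply mul_le_mul_of_nonneg_left _ (abs_nonneg _)
            apply mul_le_mul
            · rw [← div_eq_mul_inv, div_le_iff₀ (by positivity)]
              exact hne2 e
            · exact pow_le_pow_right₀ hβ.le ht.le
            · positivity
            · positivity
        _ = |q.θ| * q.β ^ (S + 1) * ((a : ℝ) ^ (m * l))⁻¹ := by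
            rw [pow_succ']
        _ ≤ δ / 2 := hmδ
    calc _ ≤ |q.θ * q.β ^ (ne e + t) * XX l W g j (k + 1) + q.y (ne e + t) - v - K| +
          |q.θ * q.β ^ (ne e + t) * (Real.ofDigits x - XX l W g j (k + 1))| := abs_add_le _ _
      _ < δ / 2 + δ / 2 := add_lt_add_of_lt_of_le hK h9
      _ = δ := by ring

end Pool.Agent.H30.MZ
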