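import Pool.Agent.H30.MZ.Main
import Pool.Agent.H30.MZ.Code
import Pool.Agent.H30.MZ.Circ
import Pool.Agent.H30.MZ.Lim
import Pool.Agent.H30.MZ.Stage
import Pool.Agent.H30.MZ.Loop
import Pool.Agent.H30.MZ.Aut
import Pool.Agent.H30.MZ.Irr
import Pool.Agent.H30.MZ.Opn
import Pool.Agent.H30.MZ.Opn2
import Pool.Agent.H30.MZ.Orb
import Pool.Agent.H30.MZ.Dim

set_option autoImplicit false

namespace Pool.Agent.H30.MZ

open Set Filter Topology TopologicalSpace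

/-- The family with the bases `b` added. -/
def Fam (a : ℕ) (F : Set (ℝ × ℝ × (ℕ → ℝ))) : Set Con :=
  (fun q : ℝ × ℝ × (ℕ → ℝ) => (⟨q.1, q.2.1, q.2.2⟩ : Con)) '' F ∪
    (fun b : ℕ => (⟨b, 1, fun _ => 0⟩ : Con)) ''
      {b : ℕ | 2 ≤ b ∧ ∀ k l : ℕ, 0 < k → 0 < l → a ^ k ≠ b ^ l}

lemma Fam_countable (a : ℕ) (F : Set (ℝ × ℝ × (ℕ → ℝ))) (hF : F.Countable) :
    (Fam a F).Countable :=
  (hF.image _).union ((Set.to_countable _).image _)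

lemma Fam_ok (a : ℕ) (ha : 2 ≤ a) (F : Set (ℝ × ℝ × (ℕ → ℝ)))
    (hF : ∀ q ∈ F, 1 < q.1 ∧ Irrational (Real.log q.1 / Real.log a) ∧ q.2.1 ≠ 0) :
    ∀ q ∈ Fam a F, q.Ok a := by
  rintro q (⟨p, hp, rfl⟩ | ⟨b, ⟨hb, hab⟩, rfl⟩)
  · exact hF p hp
  · refine ⟨?_, ?_, one_ne_zero⟩
    · show (1 : ℝ) < b
      exact_mod_cast hb
    · exact IRR_proved a b ha hb hab

lemma succ_indep (a : ℕ) (ha : 2 ≤ a) : ∀ k l : ℕ, 0 < k → 0 < l → a ^ k ≠ (a + 1) ^ l := by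
  intro k l hk hl h
  have h1 : Nat.Coprime (a ^ k) ((a + 1) ^ l) := by
    apply Nat.Coprime.pow
    simp
  rw [← h, Nat.coprime_self] at h1
  have h2 : a ^ k = 1 ↔ a = 1 ∨ k = 0 := by
    simp
  rcases h2.mp h1 with h3 | h3 <;> omega

/-- The good sets. -/
def Good (a : ℕ) (F : Set (ℝ × ℝ × (ℕ → ℝ))) : Set (MinSets a) :=
  {K | ∀ r : ℝ, (r : Crc) ∈ K.1 →
    (∀ b : ℕ, 2 ≤ b → (∀ k l : ℕ, 0 < k → 0 < l → a ^ k ≠ b ^ l) →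
      O b r = Icc 0 1 ∧ dimH (O a r) = 0 ∧ dimH (O a r) + dimH (O b r) = 1) ∧
    ∀ q ∈ F, ∀ v ε : ℝ, 0 < ε → ∀ N : ℕ, ∃ n ≥ N, ∃ k : ℤ,
      |q.2.1 * q.1 ^ n * r + q.2.2 n - v - k| < ε}

theorem main_of (hS : S_STAGE) (a : ℕ) (ha : 2 ≤ a) (F : Set (ℝ × ℝ × (ℕ → ℝ)))
    (hFc : F.Countable)
    (hF : ∀ q ∈ F, 1 < q.1 ∧ Irrational (Real.log q.1 / Real.log a) ∧ q.2.1 ≠ 0) :
    Nonempty (MinSets a) ∧ ∃ G : Set (MinSets a), G ⊆ Good a F ∧ IsGδ G ∧ Dense G := by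
  have hLIM := LIM_proved hS
  have hFc' := Fam_countable a F hFc
  have hF' := Fam_ok a ha F hF
  have hb : (⟨((a + 1 : ℕ) : ℝ), 1, fun _ => 0⟩ : Con) ∈ Fam a F :=
    Or.inr ⟨a + 1, ⟨by omega, succ_indep a ha⟩, rfl⟩
  refine ⟨?_, {K : MinSets a | (∀ q ∈ Fam a F, ∀ N M j, K.1 ∈ OC q N M j) ∧ ∀ j, K.1 ∈ OT j},
    ?_, ?_, ?_⟩
  · have hW : Pair 1 (fun c _ => if c then (⟨1, by omega⟩ : Fin a) else ⟨0, by omega⟩) :=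
      ⟨one_pos, 0, one_pos, by simp⟩
    obtain ⟨X, K, -, -, -, -, hK, -, -⟩ :=
      construct hLIM CIRC_proved a (a + 1) 1 _ ha hW (Fam a F) hFc' hF' hb
    exact ⟨⟨K, hK⟩⟩
  · rintro K ⟨h1, h2⟩ r hr
    obtain ⟨h3, h4⟩ := good_of DIM_proved ORB_proved ORA_proved a K.1 K.2.2.1 (Fam a F) h1 h2 r hr
    refine ⟨fun b hb hab => h3 b hb (Or.inr ⟨b, ⟨hb, hab⟩, rfl⟩), fun q hq v ε hε N => ?_⟩
    exact h4 ⟨q.1, q.2.1, q.2.2⟩ (Or.inl ⟨q, hq, rfl⟩) v ε hε N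
  · have e : {K : MinSets a | (∀ q ∈ Fam a F, ∀ N M j, K.1 ∈ OC q N M j) ∧ ∀ j, K.1 ∈ OT j} =
        (⋂ q ∈ Fam a F, ⋂ (N : ℕ) (M : ℕ) (j : ℕ), {K : MinSets a | K.1 ∈ OC q N M j}) ∩
          ⋂ j : ℕ, {K : MinSets a | K.1 ∈ OT j} := by
      ext K; simp
    rw [e]
    apply IsGδ.inter
    · refine IsGδ.biInter hFc' fun q _ => IsGδ.iInter fun N => IsGδ.iInter fun M =>
        IsGδ.iInter fun j => ?_
      exact ((isOpen_OC OPN_proved OPN2_proved q N M j).preimage continuous_subtype_val).isGδ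
    · refine IsGδ.iInter fun j => ?_
      exact ((isOpen_OT OPN_proved j).preimage continuous_subtype_val).isGδ
  · exact dense_D hLIM CIRC_proved CODE_proved a (a + 1) ha (Fam a F) hFc' hF' hb

end Pool.Agent.H30.MZ
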