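import Pool.Agent.H30.MZ.Final
import Pool.Agent.H30.MZ.Code2

/-!
# MZ: the generic orbit closure
-/

set_option autoImplicit false

namespace Pool.Agent.H30.MZ

open Set Filter Topology TopologicalSpace

/-- Infinite orbit closures. -/
def IsOrb (a : ℕ) (K : Set Crc) : Prop :=
  K.Infinite ∧ ∃ x : Crc, K = closure (range fun n : ℕ => a ^ n • x)

/-- The space of all infinite orbit closures, with the Hausdorff metric. -/
abbrev OrbSets (a : ℕ) := {K : NonemptyCompacts Crc // IsOrb a (K : Set Crc)}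

/-- The constraint for points with a prefix. -/
noncomputable def Con.pre (q : Con) (a s : ℕ) (c : ℚ) : Con :=
  ⟨q.β, q.θ * ((a : ℝ) ^ s)⁻¹, fun n => q.y n + q.θ * q.β ^ n * c⟩

lemma Con.pre_seq (q : Con) (a s N : ℕ) (c : ℚ) (r : ℝ) :
    ((q.pre a s c).mod N 0).seq r = (q.mod N 0).seq (c + ((a : ℝ) ^ s)⁻¹ * r) := by
  funext n
  rw [Con.mod_seq, Con.mod_seq]
  simp only [Con.pre, Int.cast_zero, add_zero]
  ring

/-- All constraints with prefixes. -/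
def Ext (a : ℕ) (F : Set Con) : Set Con :=
  (fun t : Con × ℕ × ℚ => t.1.pre a t.2.1 t.2.2) '' (F ×ˢ univ)

lemma Ext_countable (a : ℕ) (F : Set Con) (hF : F.Countable) : (Ext a F).Countable :=
  (hF.prod (to_countable _)).image _

lemma Ext_ok (a : ℕ) (ha : 2 ≤ a) (F : Set Con) (hF : ∀ q ∈ F, q.Ok a) :
    ∀ q ∈ Ext a F, q.Ok a := by
  rintro _ ⟨⟨q, s, c⟩, ⟨hq, -⟩, rfl⟩
  obtain ⟨h1, h2, h3⟩ := hF q hq
  refine ⟨h1, h2, mul_ne_zero h3 ?_⟩
  have : (a : ℝ) ≠ 0 := by positivity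
  positivity

lemma mem_Ext (a : ℕ) (F : Set Con) (q : Con) (hq : q ∈ F) (s : ℕ) (c : ℚ) :
    q.pre a s c ∈ Ext a F := ⟨⟨q, s, c⟩, ⟨hq, mem_univ _⟩, rfl⟩

lemma subset_Ext (a : ℕ) (F : Set Con) : F ⊆ Ext a F := by
  intro q hq
  have h := mem_Ext a F q hq 0 0
  have e : q.pre a 0 0 = q := by
    cases q
    simp [Con.pre]
  rwa [e] at h

lemma thin_union (A E : Set ℝ) (hA : Thin A) (hE : E.Finite) : Thin (A ∪ E) := by
  intro j
  have hj : (0 : ℝ) < (j : ℝ) + 1 := by positivity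
  obtain ⟨i, hi1, hi2⟩ : ∃ i : ℕ, 2 * j + 1 ≤ i ∧
      (hE.toFinset.card : ℝ) * (1 / ((i : ℝ) + 1)) ^ (1 / ((j : ℝ) + 1)) < 1 / (2 * ((j : ℝ) + 1)) := by
    have h1 : Tendsto (fun i : ℕ => (hE.toFinset.card : ℝ) *
        (1 / ((i : ℝ) + 1)) ^ (1 / ((j : ℝ) + 1))) atTop (𝓝 0) := by
      have h2 : Tendsto (fun i : ℕ => (1 / ((i : ℝ) + 1))) atTop (𝓝 0) :=
        tendsto_one_div_add_atTop_nhds_zero_nat
      have h3 := h2.rpow_const (p := 1 / ((j : ℝ) + 1)) (Or.inr (by positivity))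
      rw [Real.zero_rpow (by positivity)] at h3
      simpa using h3.const_mul (hE.toFinset.card : ℝ)
    have h4 := h1.eventually (gt_mem_nhds (show (0 : ℝ) < 1 / (2 * ((j : ℝ) + 1)) by positivity))
    obtain ⟨i, h5, h6⟩ := (h4.and (eventually_ge_atTop (2 * j + 1))).exists
    exact ⟨i, h6, h5⟩
  obtain ⟨C, ρ, hρ0, hρ1, hcard, hcov⟩ := hA i
  have hij : 2 * ((j : ℝ) + 1) ≤ (i : ℝ) + 1 := by
    have : ((2 * j + 1 : ℕ) : ℝ) ≤ i := by exact_mod_cast hi1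
    push_cast at this; linarith
  have hρ2 : ρ ≤ 1 := by
    refine hρ1.le.trans ?_
    rw [div_le_one (by positivity)]
    linarith
  refine ⟨C ∪ hE.toFinset, ρ, hρ0, hρ1.trans_le ?_, ?_, ?_⟩
  · apply one_div_le_one_div_of_le hj
    linarith
  · have h1 : (((C ∪ hE.toFinset).card : ℕ) : ℝ) ≤ C.card + hE.toFinset.card := by
      exact_mod_cast Finset.card_union_le _ _
    have hp : ρ ^ (1 / ((j : ℝ) + 1)) ≤ ρ ^ (1 / ((i : ℝ) + 1)) := by
      apply Real.rpow_le_rpow_of_exponent_ge hρ0 hρ2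
      apply one_div_le_one_div_of_le hj
      linarith
    have hp2 : ρ ^ (1 / ((j : ℝ) + 1)) ≤ (1 / ((i : ℝ) + 1)) ^ (1 / ((j : ℝ) + 1)) :=
      Real.rpow_le_rpow hρ0.le hρ1.le (by positivity)
    have hp0 : 0 ≤ ρ ^ (1 / ((j : ℝ) + 1)) := by positivity
    calc _ ≤ ((C.card : ℝ) + hE.toFinset.card) * ρ ^ (1 / ((j : ℝ) + 1)) := by gcongr
      _ = (C.card : ℝ) * ρ ^ (1 / ((j : ℝ) + 1)) +
          hE.toFinset.card * ρ ^ (1 / ((j : ℝ) + 1)) := by ring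
      _ ≤ (C.card : ℝ) * ρ ^ (1 / ((i : ℝ) + 1)) +
          hE.toFinset.card * (1 / ((i : ℝ) + 1)) ^ (1 / ((j : ℝ) + 1)) := by gcongr
      _ < 1 / ((i : ℝ) + 1) + 1 / (2 * ((j : ℝ) + 1)) := add_lt_add hcard hi2
      _ ≤ 1 / (2 * ((j : ℝ) + 1)) + 1 / (2 * ((j : ℝ) + 1)) := by
          gcongr
      _ = 1 / ((j : ℝ) + 1) := by field_simp; norm_num
  · rintro r (hr | hr)
    · obtain ⟨c, hc, h⟩ := hcov r hr
      exact ⟨c, Finset.mem_union_left _ hc, h⟩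
    · refine ⟨r, Finset.mem_union_right _ (by simpa using hr), ?_⟩
      simpa using hρ0

/-- The points before `y`. -/
lemma prefix_pt {a : ℕ} (z y : ℕ → Fin a) (m : ℕ) (hz : ∀ n, z (n + m) = y n) :
    ∃ c : ℕ → ℚ, ∀ i < m, Real.ofDigits (fun n => z (n + i)) =
      c i + ((a : ℝ) ^ (m - i))⁻¹ * Real.ofDigits y := by
  refine ⟨fun i => ∑ j ∈ Finset.range (m - i), ((z (j + i) : ℕ) : ℚ) * ((a : ℚ) ^ (j + 1))⁻¹,
    fun i hi => ?_⟩
  rw [Real.ofDigits_eq_sum_add_ofDigits _ (m - i)]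
  congr 1
  · push_cast
    apply Finset.sum_congr rfl
    intro j _
    rfl
  · congr 2
    funext n
    rw [← hz n]
    congr 1
    omega

lemma coe_eq {r s : ℝ} (h : (r : Crc) = (s : Crc)) : ∃ k : ℤ, r = s + k := by
  have h1 : ((r - s : ℝ) : AddCircle (1 : ℝ)) = 0 := by rw [AddCircle.coe_sub, h, sub_self]
  rw [AddCircle.coe_eq_zero_iff] at h1
  obtain ⟨n, hn⟩ := h1
  exact ⟨n, by rw [zsmul_eq_mul, mul_one] at hn; linarith⟩

lemma orbit_OC {a : ℕ} (z y : ℕ → Fin a) (m : ℕ) (hz : ∀ n, z (n + m) = y n)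
    (KX K : NonemptyCompacts Crc) (hy : Code.pt y ∈ KX)
    (hK : ∀ r ∈ K, r ∈ KX ∨ ∃ i < m, r = Code.pt (fun n => z (n + i)))
    (F : Set Con) (hKX : ∀ q ∈ Ext a F, ∀ N M j, KX ∈ OC q N M j) :
    ∀ q ∈ F, ∀ N M j, K ∈ OC q N M j := by
  intro q hq N M j
  obtain ⟨c, hc⟩ := prefix_pt z y m hz
  obtain ⟨T₀, hT₀⟩ := hKX q (subset_Ext a F hq) N M j
  have h1 : ∀ (i : ℕ) (k : ℤ), ∃ T, Dens T (1 / ((j : ℝ) + 1))
      (((q.pre a (m - i) (c i + k)).mod N 0).seq (Real.ofDigits y)) := by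
    intro i k
    obtain ⟨T, hT⟩ := hKX _ (mem_Ext a F q hq (m - i) (c i + k)) N 1 j
    refine ⟨T, hT _ ⟨?_, ?_⟩ hy⟩
    · have := Real.ofDigits_nonneg y
      push_cast; linarith
    · have := Real.ofDigits_le_one y
      push_cast; linarith
  choose T hT using h1
  refine ⟨max T₀ (((Finset.range m) ×ˢ (Finset.Icc (-(M : ℤ) - 1) (M + 1))).sup
    fun p => T p.1 p.2), fun r hr hrK => ?_⟩
  rcases hK _ hrK with h | ⟨i, hi, h⟩
  · exact (hT₀ r hr h).mono (le_max_left _ _)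
  · obtain ⟨k, rfl⟩ := coe_eq h
    have hx0 := Real.ofDigits_nonneg (fun n => z (n + i))
    have hx1 := Real.ofDigits_le_one (fun n => z (n + i))
    have hk : k ∈ Finset.Icc (-(M : ℤ) - 1) (M + 1) := by
      rw [Finset.mem_Icc]
      have h3 := hr.1
      have h4 := hr.2
      constructor
      · have : ((-(M : ℤ) - 1 : ℤ) : ℝ) ≤ (k : ℝ) := by push_cast; linarith
        exact_mod_cast this
      · have : (k : ℝ) ≤ ((M : ℤ) + 1 : ℤ) := by push_cast; linarith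
        exact_mod_cast this
    have h5 : (i, k) ∈ (Finset.range m) ×ˢ (Finset.Icc (-(M : ℤ) - 1) (M + 1)) := by
      rw [Finset.mem_product]
      exact ⟨Finset.mem_range.2 hi, hk⟩
    have h6 : T i k ≤ ((Finset.range m) ×ˢ (Finset.Icc (-(M : ℤ) - 1) (M + 1))).sup
        fun p => T p.1 p.2 := Finset.le_sup (f := fun p : ℕ × ℤ => T p.1 p.2) h5
    have h7 := (hT i k).mono (h6.trans (le_max_right T₀ _))
    rw [Con.pre_seq] at h7
    convert! h7 using 2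
    rw [hc i hi]
    push_cast
    ring

lemma orbit_OT {a : ℕ} (z : ℕ → Fin a) (m : ℕ)
    (KX K : NonemptyCompacts Crc)
    (hK : ∀ r ∈ K, r ∈ KX ∨ ∃ i < m, r = Code.pt (fun n => z (n + i)))
    (hKX : ∀ j, KX ∈ OT j) : ∀ j, K ∈ OT j := by
  have hthin : Thin {s : ℝ | s ∈ Icc (0 : ℝ) 1 ∧ (s : Crc) ∈ KX} := by
    intro j
    obtain ⟨C, ρ, ⟨h1, h2, h6⟩, h7⟩ := hKX j
    refine ⟨C, ρ, h1, h2, h6, fun s hs => ?_⟩
    rcases h7 s ⟨by linarith [hs.1.1], hs.1.2⟩ hs.2 with h | h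
    · exact h
    · exact absurd hs.1.1 (not_le.mpr h)
  have hfin : {s : ℝ | s ∈ Icc (0 : ℝ) 1 ∧ ∃ i < m, (s : Crc) = Code.pt (fun n => z (n + i))}.Finite := by
    apply Set.Finite.subset (((Finset.range m) ×ˢ (Finset.Icc (-1 : ℤ) 1)).finite_toSet.image
      fun p : ℕ × ℤ => Real.ofDigits (fun n => z (n + p.1)) + p.2)
    rintro s ⟨hs, i, hi, h⟩
    obtain ⟨k, rfl⟩ := coe_eq h
    have hx0 := Real.ofDigits_nonneg (fun n => z (n + i))
    have hx1 := Real.ofDigits_le_one (fun n => z (n + i))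
    refine ⟨(i, k), ?_, rfl⟩
    rw [Finset.mem_coe, Finset.mem_product, Finset.mem_Icc]
    refine ⟨Finset.mem_range.2 hi, ?_, ?_⟩
    · have : ((-1 : ℤ) : ℝ) ≤ (k : ℝ) := by push_cast; linarith [hs.1]
      exact_mod_cast this
    · have : (k : ℝ) ≤ ((1 : ℤ) : ℝ) := by push_cast; linarith [hs.2]
      exact_mod_cast this
  intro j
  obtain ⟨C, ρ, h1, h2, h3, h4⟩ := thin_union _ _ hthin hfin j
  refine ⟨C, ρ, ⟨h1, h2, h3⟩, fun r hr hrK => ?_⟩
  by_cases hneg : r < 0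
  · exact Or.inr hneg
  · left
    push Not at hneg
    apply h4
    rcases hK _ hrK with h | h
    · exact Or.inl ⟨⟨hneg, hr.2⟩, h⟩
    · exact Or.inr ⟨⟨hneg, hr.2⟩, h⟩

lemma exists_digits {a : ℕ} (ha : 2 ≤ a) (x : Crc) : ∃ w : ℕ → Fin a, Code.pt w = x := by
  have : NeZero a := ⟨by omega⟩
  obtain ⟨r, hr⟩ := QuotientAddGroup.mk_surjective x
  have hfr : ((Int.fract r : ℝ) : AddCircle (1 : ℝ)) = x := by
    rw [← hr]
    change ((Int.fract r : ℝ) : AddCircle (1 : ℝ)) = (r : AddCircle (1 : ℝ))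
    rw [← sub_eq_zero, ← AddCircle.coe_sub, AddCircle.coe_eq_zero_iff]
    exact ⟨-⌊r⌋, by rw [Int.fract]; simp⟩
  refine ⟨Real.digits (Int.fract r) a, ?_⟩
  unfold Code.pt
  rw [Real.ofDigits_digits (by omega) ⟨Int.fract_nonneg r, Int.fract_lt_one r⟩, hfr]

/-- Density. -/
lemma dense_D2 (h1 : S_LIM) (h2 : S_CIRC) (a b : ℕ) (ha : 2 ≤ a)
    (F : Set Con) (hFc : F.Countable) (hFok : ∀ q ∈ F, q.Ok a)
    (hb : (⟨b, 1, fun _ => 0⟩ : Con) ∈ F) :
    Dense {K : OrbSets a | (∀ q ∈ F, ∀ N M j, K.1 ∈ OC q N M j) ∧ ∀ j, K.1 ∈ OT j} := by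
  rintro ⟨K₀, hK₀inf, x₀, hx₀⟩
  rw [Metric.mem_closure_iff]
  intro ε hε
  obtain ⟨w, rfl⟩ := exists_digits ha x₀
  have hrange : (range fun n : ℕ => a ^ n • Code.pt w) =
      range fun n : ℕ => Code.pt (fun i => w (i + n)) := by
    congr 1
    funext n
    rw [Code.pt_shift_pow ha]
  rw [hrange] at hx₀
  obtain ⟨l, W, m, hW, hcode⟩ := Code.code2 ha w (by rw [← hx₀]; exact hK₀inf) (ε / 3)
    (by linarith)
  obtain ⟨X, KX, hX1, hX2, hX3, hK1, hK2, hK3, hK4⟩ := construct h1 h2 a b l W ha hW (Ext a F)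
    (Ext_countable a F hFc) (Ext_ok a ha F hFok) (subset_Ext a F hb)
  obtain ⟨y, hy, h3, h4, h5⟩ := hcode X hX1 hX2 hX3
  set z := Code.glue m w y with hz
  have hzy : ∀ n, z (n + m) = y n := by
    intro n
    rw [hz]
    unfold Code.glue
    rw [if_neg (by omega), Nat.add_sub_cancel]
  have hyn : ∀ n, (fun i => y (i + n)) ∈ X := by
    intro n
    induction n with
    | zero => simpa using hy
    | succ n ih =>
      have := hX3 _ ih
      convert! this using 3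
      omega
  have hKX : ∀ x ∈ X, Code.pt x ∈ KX := by
    intro x hx
    have : Code.pt x ∈ (KX : Set Crc) := by
      rw [hK1]; exact ⟨x, hx, rfl⟩
    exact this
  set L : Set Crc := closure (range fun n : ℕ => a ^ n • Code.pt z) with hL
  have hrangez : (range fun n : ℕ => a ^ n • Code.pt z) =
      range fun n : ℕ => Code.pt (fun i => z (i + n)) := by
    congr 1
    funext n
    rw [Code.pt_shift_pow ha]
  have hLsub : ∀ r ∈ L, r ∈ KX ∨ ∃ i < m, r = Code.pt (fun n => z (n + i)) := by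
    have hcl : IsClosed ((KX : Set Crc) ∪ (fun i : ℕ => Code.pt (fun n => z (n + i))) ''
        (Finset.range m : Set ℕ)) := by
      apply IsClosed.union KX.isCompact.isClosed
      exact ((Finset.finite_toSet _).image _).isClosed
    have hsub : L ⊆ (KX : Set Crc) ∪ (fun i : ℕ => Code.pt (fun n => z (n + i))) ''
        (Finset.range m : Set ℕ) := by
      apply closure_minimal _ hcl
      rw [hrangez]
      rintro _ ⟨n, rfl⟩
      by_cases hn : n < m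
      · right
        exact ⟨n, by simpa using hn, rfl⟩
      · left
        have e : (fun i => z (i + n)) = fun i => y (i + (n - m)) := by
          funext i
          rw [← hzy]
          congr 1
          omega
        change Code.pt (fun i => z (i + n)) ∈ (KX : Set Crc)
        rw [e]
        exact hKX _ (hyn _)
    intro r hr
    rcases hsub hr with h | ⟨i, hi, h⟩
    · exact Or.inl h
    · exact Or.inr ⟨i, by simpa using hi, h.symm⟩
  have hKXL : (KX : Set Crc) ⊆ L := by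
    refine (hK2.2.2 _ (hKX y hy)).trans (closure_mono ?_)
    rintro _ ⟨n, rfl⟩
    refine ⟨n + m, ?_⟩
    simp only
    rw [← Code.pt_shift_pow ha, ← Code.pt_shift_pow ha]
    congr 1
    funext i
    rw [← hzy, add_assoc]
  have hLc : IsCompact L := isClosed_closure.isCompact
  have hLne : L.Nonempty := hK2.1.nonempty.mono hKXL
  let K : NonemptyCompacts Crc := ⟨⟨L, hLc⟩, hLne⟩
  have hKL : (K : Set Crc) = L := rfl
  have hKmem : ∀ r ∈ K, r ∈ KX ∨ ∃ i < m, r = Code.pt (fun n => z (n + i)) := hLsub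
  have hKorb : IsOrb a (K : Set Crc) := ⟨hK2.1.mono hKXL, Code.pt z, hKL⟩
  refine ⟨⟨K, hKorb⟩, ⟨orbit_OC z y m hzy KX K (hKX y hy) hKmem F hK3,
    orbit_OT z m KX K hKmem hK4⟩, ?_⟩
  rw [Subtype.dist_eq, Metric.NonemptyCompacts.dist_eq]
  refine lt_of_le_of_lt (Metric.hausdorffDist_le_of_mem_dist (r := 2 * (ε / 3)) (by linarith) ?_ ?_)
    (by linarith)
  · intro k hk
    change k ∈ (K₀ : Set Crc) at hk
    rw [hx₀, Metric.mem_closure_iff] at hk
    obtain ⟨_, ⟨n, rfl⟩, hn⟩ := hk (ε / 3) (by linarith)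
    simp only at hn
    by_cases hnm : n < m
    · refine ⟨Code.pt (fun i => z (i + n)), ?_, ?_⟩
      · change _ ∈ L
        apply subset_closure
        rw [hrangez]
        exact ⟨n, rfl⟩
      · have h6 := h3 n hnm
        have h7 := dist_triangle k (Code.pt (fun i => w (i + n))) (Code.pt (fun i => z (i + n)))
        rw [dist_comm (Code.pt (fun i => w (i + n)))] at h7
        linarith
    · obtain ⟨x, hx, hxd⟩ := h5 n (by omega)
      refine ⟨Code.pt x, hKXL (hKX x hx), ?_⟩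
      have h7 := dist_triangle k (Code.pt (fun i => w (i + n))) (Code.pt x)
      rw [dist_comm (Code.pt (fun i => w (i + n)))] at h7
      linarith
  · intro r hr
    have hmemK₀ : ∀ i, Code.pt (fun n => w (n + i)) ∈ (K₀ : Set Crc) := by
      intro i
      rw [hx₀]
      exact subset_closure ⟨i, rfl⟩
    rcases hKmem r hr with h | ⟨i, hi, rfl⟩
    · have h' : r ∈ (KX : Set Crc) := h
      rw [hK1] at h'
      obtain ⟨x, hx, rfl⟩ := h'
      obtain ⟨i, hi⟩ := h4 x hx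
      refine ⟨_, hmemK₀ i, ?_⟩
      change dist (Code.pt x) _ ≤ _
      linarith
    · refine ⟨_, hmemK₀ i, ?_⟩
      have := h3 i hi
      linarith

lemma orb_inv (a : ℕ) (K : NonemptyCompacts Crc) (hK : IsOrb a (K : Set Crc)) :
    ∀ x ∈ K, a • x ∈ K := by
  obtain ⟨-, x₀, hx₀⟩ := hK
  have hc : Continuous fun x : Crc => a • x := continuous_const_smul a
  have hm : MapsTo (fun x : Crc => a • x) (range fun n : ℕ => a ^ n • x₀)
      (range fun n : ℕ => a ^ n • x₀) := by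
    rintro _ ⟨n, rfl⟩
    refine ⟨n + 1, ?_⟩
    simp only
    rw [pow_succ', mul_smul]
  intro x hx
  have hx' : x ∈ closure (range fun n : ℕ => a ^ n • x₀) := by
    rw [← hx₀]; exact hx
  have h2 := map_mem_closure hc hx' hm
  have : a • x ∈ (K : Set Crc) := by
    rw [hx₀]; exact h2
  exact this

lemma orb_of_min (a : ℕ) (K : NonemptyCompacts Crc) (hK : IsMin a (K : Set Crc)) :
    IsOrb a (K : Set Crc) := by
  obtain ⟨h1, h2, h3⟩ := hK
  obtain ⟨x, hx⟩ := K.nonempty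
  refine ⟨h1, x, Subset.antisymm (h3 x hx) ?_⟩
  apply closure_minimal _ K.isCompact.isClosed
  rintro _ ⟨n, rfl⟩
  induction n with
  | zero => simpa using hx
  | succ n ih =>
    simp only
    rw [pow_succ', mul_smul]
    exact h2 _ ih

/-- The good orbit closures. -/
def Good2 (a : ℕ) (F : Set (ℝ × ℝ × (ℕ → ℝ))) : Set (OrbSets a) :=
  {K | ∀ r : ℝ, (r : Crc) ∈ K.1 →
    (∀ b : ℕ, 2 ≤ b → (∀ k l : ℕ, 0 < k → 0 < l → a ^ k ≠ b ^ l) →
      O b r = Icc 0 1 ∧ dimH (O a r) = 0 ∧ dimH (O a r) + dimH (O b r) = 1) ∧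
    ∀ q ∈ F, ∀ v ε : ℝ, 0 < ε → ∀ N : ℕ, ∃ n ≥ N, ∃ k : ℤ,
      |q.2.1 * q.1 ^ n * r + q.2.2 n - v - k| < ε}

theorem main2_of (hS : S_STAGE) (a : ℕ) (ha : 2 ≤ a) (F : Set (ℝ × ℝ × (ℕ → ℝ)))
    (hFc : F.Countable)
    (hF : ∀ q ∈ F, 1 < q.1 ∧ Irrational (Real.log q.1 / Real.log a) ∧ q.2.1 ≠ 0) :
    ∃ G : Set (OrbSets a), G ⊆ Good2 a F ∧ IsGδ G ∧ Dense G := by
  have hLIM := LIM_proved hS
  have hFc' := Fam_countable a F hFc
  have hF' := Fam_ok a ha F hF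
  have hb : (⟨((a + 1 : ℕ) : ℝ), 1, fun _ => 0⟩ : Con) ∈ Fam a F :=
    Or.inr ⟨a + 1, ⟨by omega, succ_indep a ha⟩, rfl⟩
  refine ⟨{K : OrbSets a | (∀ q ∈ Fam a F, ∀ N M j, K.1 ∈ OC q N M j) ∧ ∀ j, K.1 ∈ OT j},
    ?_, ?_, ?_⟩
  · rintro K ⟨h1, h2⟩ r hr
    obtain ⟨h3, h4⟩ := good_of DIM_proved ORB_proved ORA_proved a K.1 (orb_inv a K.1 K.2)
      (Fam a F) h1 h2 r hr
    refine ⟨fun b hb hab => h3 b hb (Or.inr ⟨b, ⟨hb, hab⟩, rfl⟩), fun q hq v ε hε N => ?_⟩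
    exact h4 ⟨q.1, q.2.1, q.2.2⟩ (Or.inl ⟨q, hq, rfl⟩) v ε hε N
  · have e : {K : OrbSets a | (∀ q ∈ Fam a F, ∀ N M j, K.1 ∈ OC q N M j) ∧ ∀ j, K.1 ∈ OT j} =
        (⋂ q ∈ Fam a F, ⋂ (N : ℕ) (M : ℕ) (j : ℕ), {K : OrbSets a | K.1 ∈ OC q N M j}) ∩
          ⋂ j : ℕ, {K : OrbSets a | K.1 ∈ OT j} := by
      ext K; simp
    rw [e]
    apply IsGδ.inter
    · refine IsGδ.biInter hFc' fun q _ => IsGδ.iInter fun N => IsGδ.iInter fun M =>
        IsGδ.iInter fun j => ?_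
      exact ((isOpen_OC OPN_proved OPN2_proved q N M j).preimage continuous_subtype_val).isGδ
    · refine IsGδ.iInter fun j => ?_
      exact ((isOpen_OT OPN_proved j).preimage continuous_subtype_val).isGδ
  · exact dense_D2 hLIM CIRC_proved a (a + 1) ha (Fam a F) hFc' hF' hb

end Pool.Agent.H30.MZ
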