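import Pool.Agent.H30.MZ.Stm

/-!
# Part INT (MP_c9a594_an): the mean of the product of cosines
-/

set_option autoImplicit false

namespace Pool.Agent.H30.MZ

open Set Filter Topology MeasureTheory

/-- `∏ (1 + cos (2 π t A ^ i))` -/
noncomputable def PI' (A k : ℕ) (t : ℝ) : ℝ :=
  ∏ i ∈ Finset.range k, (1 + Real.cos (2 * Real.pi * ((A : ℝ) ^ i * t)))

theorem PI'_cont (A k : ℕ) : Continuous (PI' A k) := by
  unfold PI'
  fun_prop

theorem Q_cont (A k : ℕ) : Continuous (Q A k) := by
  unfold Q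
  fun_prop

theorem Q_nonneg (A k : ℕ) (t : ℝ) : 0 ≤ Q A k t :=
  Finset.prod_nonneg (fun _ _ => abs_nonneg _)

theorem Q_sq (A k : ℕ) (t : ℝ) : Q A k t ^ 2 = (2 ^ k)⁻¹ * PI' A k t := by
  unfold Q PI'
  induction k with
  | zero => simp
  | succ k ih =>
    rw [Finset.prod_range_succ, Finset.prod_range_succ, mul_pow, ih, sq_abs, Real.cos_sq, pow_succ]
    have h1 : 2 * (Real.pi * (t * (A : ℝ) ^ k)) = 2 * Real.pi * ((A : ℝ) ^ k * t) := by ring
    rw [h1, mul_inv]
    ring

theorem int_cos (A N : ℕ) (hN : 1 ≤ N) :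
    ∫ t in (1 : ℝ)..A, Real.cos (2 * Real.pi * ((N : ℝ) * t)) = 0 := by
  have hc : (2 * Real.pi * (N : ℝ)) ≠ 0 := by
    have : (0 : ℝ) < N := by exact_mod_cast hN
    have := Real.pi_pos
    positivity
  have h1 : ∀ t : ℝ, 2 * Real.pi * ((N : ℝ) * t) = (2 * Real.pi * (N : ℝ)) * t := by
    intro t; ring
  simp only [h1]
  rw [intervalIntegral.integral_comp_mul_left (fun x => Real.cos x) hc, integral_cos]
  have h2 : Real.sin (2 * Real.pi * (N : ℝ) * A) = 0 := by
    have := Real.sin_nat_mul_pi (2 * N * A)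
    rw [← this]
    congr 1
    push_cast
    ring
  have h3 : Real.sin (2 * Real.pi * (N : ℝ) * 1) = 0 := by
    have := Real.sin_nat_mul_pi (2 * N)
    rw [← this]
    congr 1
    push_cast
    ring
  rw [h2, h3]
  simp

theorem int_mul (A : ℕ) (hA : 2 ≤ A) (k : ℕ) : ∀ N : ℕ, A ^ k ≤ N →
    ∫ t in (1 : ℝ)..A, Real.cos (2 * Real.pi * ((N : ℝ) * t)) * PI' A k t = 0 := by
  induction k with
  | zero =>
    intro N hN
    have h1 : ∀ t, PI' A 0 t = 1 := by
      intro t
      unfold PI'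
      simp
    simp only [h1, mul_one]
    exact int_cos A N (by simpa using hN)
  | succ k ih =>
    intro N hN
    have hAk : 2 * A ^ k ≤ A ^ (k + 1) := by
      rw [pow_succ, mul_comm]
      exact Nat.mul_le_mul_left _ hA
    have hle : A ^ k ≤ N := by omega
    have h1 : ∀ t, Real.cos (2 * Real.pi * ((N : ℝ) * t)) * PI' A (k + 1) t =
        Real.cos (2 * Real.pi * ((N : ℝ) * t)) * PI' A k t +
        (1 / 2 * (Real.cos (2 * Real.pi * (((N + A ^ k : ℕ) : ℝ) * t)) * PI' A k t) +
        1 / 2 * (Real.cos (2 * Real.pi * (((N - A ^ k : ℕ) : ℝ) * t)) * PI' A k t)) := by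
      intro t
      have h2 : PI' A (k + 1) t = PI' A k t * (1 + Real.cos (2 * Real.pi * ((A : ℝ) ^ k * t))) := by
        unfold PI'
        rw [Finset.prod_range_succ]
      have h3 : 2 * Real.pi * (((N + A ^ k : ℕ) : ℝ) * t) =
          2 * Real.pi * ((N : ℝ) * t) + 2 * Real.pi * ((A : ℝ) ^ k * t) := by
        push_cast; ring
      have h4 : 2 * Real.pi * (((N - A ^ k : ℕ) : ℝ) * t) =
          2 * Real.pi * ((N : ℝ) * t) - 2 * Real.pi * ((A : ℝ) ^ k * t) := by
        rw [Nat.cast_sub hle]; push_cast; ring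
      rw [h2, h3, h4, Real.cos_add, Real.cos_sub]
      ring
    have hc : ∀ M : ℕ, IntervalIntegrable
        (fun t : ℝ => Real.cos (2 * Real.pi * ((M : ℝ) * t)) * PI' A k t) volume 1 A := by
      intro M
      apply Continuous.intervalIntegrable
      have := PI'_cont A k
      fun_prop
    simp only [h1]
    rw [intervalIntegral.integral_add (hc N) (((hc _).const_mul _).add ((hc _).const_mul _)),
      intervalIntegral.integral_add ((hc _).const_mul _) ((hc _).const_mul _),
      intervalIntegral.integral_const_mul, intervalIntegral.integral_const_mul, ih N hle,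
      ih _ (by omega), ih _ (by omega)]
    simp

theorem int_PI' (A : ℕ) (hA : 2 ≤ A) (k : ℕ) : ∫ t in (1 : ℝ)..A, PI' A k t = A - 1 := by
  induction k with
  | zero =>
    have h1 : ∀ t, PI' A 0 t = 1 := by
      intro t
      unfold PI'
      simp
    simp only [h1]
    rw [intervalIntegral.integral_const]
    simp
  | succ k ih =>
    have h1 : ∀ t, PI' A (k + 1) t = PI' A k t +
        Real.cos (2 * Real.pi * (((A ^ k : ℕ) : ℝ) * t)) * PI' A k t := by
      intro t
      unfold PI'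
      rw [Finset.prod_range_succ]
      push_cast
      ring
    simp only [h1]
    rw [intervalIntegral.integral_add, ih, int_mul A hA k (A ^ k) le_rfl, add_zero]
    · exact (PI'_cont A k).intervalIntegrable _ _
    · apply Continuous.intervalIntegrable
      have := PI'_cont A k
      fun_prop

theorem int_Q (A : ℕ) (hA : 2 ≤ A) (m : ℕ) :
    ∫ t in (1 : ℝ)..A, Q A (2 * m) t ≤ (A - 1) * (2 ^ m)⁻¹ := by
  have hA' : (1 : ℝ) ≤ A := by
    have : 1 ≤ A := by omega
    exact_mod_cast this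
  have h2m : (0 : ℝ) < 2 ^ m := by positivity
  have h1 : ∀ t, Q A (2 * m) t ≤ 1 / 2 * (2 ^ m)⁻¹ + 1 / 2 * (2 ^ m)⁻¹ * PI' A (2 * m) t := by
    intro t
    have h2 : Q A (2 * m) t ≤ 1 / 2 * (2 ^ m)⁻¹ + 1 / 2 * 2 ^ m * Q A (2 * m) t ^ 2 := by
      have h3 : 0 ≤ 1 / 2 * 2 ^ m * (Q A (2 * m) t - (2 ^ m)⁻¹) ^ 2 := by positivity
      have h4 : 1 / 2 * 2 ^ m * (Q A (2 * m) t - (2 ^ m)⁻¹) ^ 2 =
          1 / 2 * 2 ^ m * Q A (2 * m) t ^ 2 - Q A (2 * m) t + 1 / 2 * (2 ^ m)⁻¹ := by
        field_simp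
        ring
      linarith
    rw [Q_sq] at h2
    have h5 : 1 / 2 * 2 ^ m * ((2 ^ (2 * m))⁻¹ * PI' A (2 * m) t) =
        1 / 2 * (2 ^ m)⁻¹ * PI' A (2 * m) t := by
      rw [two_mul, pow_add]
      field_simp
    rw [h5] at h2
    exact h2
  have hP := PI'_cont A (2 * m)
  calc ∫ t in (1 : ℝ)..A, Q A (2 * m) t
      ≤ ∫ t in (1 : ℝ)..A, (1 / 2 * (2 ^ m)⁻¹ + 1 / 2 * (2 ^ m)⁻¹ * PI' A (2 * m) t) := by
        apply intervalIntegral.integral_mono_on hA' ((Q_cont A _).intervalIntegrable _ _)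
        · apply Continuous.intervalIntegrable
          fun_prop
        · intro t _
          exact h1 t
    _ = (A - 1) * (2 ^ m)⁻¹ := by
        rw [intervalIntegral.integral_add, intervalIntegral.integral_const,
          intervalIntegral.integral_const_mul, int_PI' A hA, smul_eq_mul]
        · ring
        · exact (continuous_const).intervalIntegrable _ _
        · apply Continuous.intervalIntegrable
          fun_prop

theorem INT_proved : S_INT := by
  intro A hA ε hε
  have hA' : (1 : ℝ) < A := by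
    have : 1 < A := by omega
    exact_mod_cast this
  have hA0 : (0 : ℝ) < A := by linarith
  have hlog : 0 < Real.log A := Real.log_pos hA'
  -- the choice of `m`
  obtain ⟨m, hm⟩ := exists_pow_lt_of_lt_one
    (show 0 < ε * Real.log A / (A - 1) by
      apply div_pos (mul_pos hε hlog); linarith) (show (1 / 2 : ℝ) < 1 by norm_num)
  refine ⟨2 * m, ?_⟩
  have hderiv : ∀ x ∈ uIcc (0 : ℝ) 1,
      HasDerivAt (fun x : ℝ => (A : ℝ) ^ x) ((A : ℝ) ^ x * Real.log A) x := by
    intro x _
    exact Real.hasStrictDerivAt_const_rpow hA0 x |>.hasDerivAt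
  have hcont : ContinuousOn (fun x : ℝ => (A : ℝ) ^ x * Real.log A) (uIcc (0 : ℝ) 1) := by
    apply Continuous.continuousOn
    exact (Real.continuous_const_rpow hA0.ne').mul continuous_const
  have hsub := intervalIntegral.integral_comp_mul_deriv hderiv hcont (Q_cont A (2 * m))
  rw [Real.rpow_zero, Real.rpow_one] at hsub
  have hle : ∫ x in (0 : ℝ)..1, Q A (2 * m) ((A : ℝ) ^ x) ≤
      ∫ x in (0 : ℝ)..1, (Real.log A)⁻¹ *
        ((Q A (2 * m) ∘ fun x : ℝ => (A : ℝ) ^ x) x * ((A : ℝ) ^ x * Real.log A)) := by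
    have hc1 : Continuous fun x : ℝ => Q A (2 * m) ((A : ℝ) ^ x) :=
      (Q_cont A _).comp (Real.continuous_const_rpow hA0.ne')
    apply intervalIntegral.integral_mono_on zero_le_one (hc1.intervalIntegrable _ _)
    · apply Continuous.intervalIntegrable
      exact continuous_const.mul (hc1.mul ((Real.continuous_const_rpow hA0.ne').mul
        continuous_const))
    · intro x hx
      have h1 : 1 ≤ (A : ℝ) ^ x := Real.one_le_rpow hA'.le hx.1
      have h2 := Q_nonneg A (2 * m) ((A : ℝ) ^ x)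
      have h3 : (Real.log A)⁻¹ *
        ((Q A (2 * m) ∘ fun x : ℝ => (A : ℝ) ^ x) x * ((A : ℝ) ^ x * Real.log A)) =
          Q A (2 * m) ((A : ℝ) ^ x) * (A : ℝ) ^ x := by
        rw [Function.comp_apply]
        field_simp
      rw [h3]
      exact le_mul_of_one_le_right h2 h1
  rw [intervalIntegral.integral_const_mul, hsub] at hle
  refine hle.trans ?_
  have h1 := int_Q A hA m
  have h2 : (2 ^ m : ℝ)⁻¹ = (1 / 2) ^ m := by
    rw [one_div, inv_pow]
  rw [h2] at h1
  rw [inv_mul_le_iff₀ hlog]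
  refine h1.trans ?_
  have h3 : (A : ℝ) - 1 > 0 := by linarith
  have h4 : (1 / 2 : ℝ) ^ m * (A - 1) < ε * Real.log A := by
    rwa [lt_div_iff₀ h3] at hm
  linarith

end Pool.Agent.H30.MZ
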