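import Pool.Agent.H30.MZ.Stm

set_option autoImplicit false

namespace Pool.Agent.H30.MZ

open Set Filter Topology TopologicalSpace

abbrev Crc := AddCircle (1 : ℝ)

/-- The space of all infinite minimal closed `× a`-invariant sets, with the Hausdorff metric. -/
abbrev MinSets (a : ℕ) := {K : NonemptyCompacts Crc // IsMin a (K : Set Crc)}

/-- the modified constraint: later times, translated argument -/
noncomputable def Con.mod (q : Con) (N : ℕ) (k : ℤ) : Con :=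
  ⟨q.β, q.θ * q.β ^ N, fun n => q.y (n + N) + q.θ * q.β ^ (n + N) * k⟩

lemma Con.mod_seq (q : Con) (N : ℕ) (k : ℤ) (r : ℝ) (n : ℕ) :
    (q.mod N k).seq r n = q.θ * q.β ^ (n + N) * (r + k) + q.y (n + N) := by
  simp only [Con.mod, Con.seq]; ring

lemma Con.mod_ok (a : ℕ) (q : Con) (h : q.Ok a) (N : ℕ) (k : ℤ) : (q.mod N k).Ok a := by
  obtain ⟨h1, h2, h3⟩ := h
  exact ⟨h1, h2, mul_ne_zero h3 (pow_ne_zero _ (ne_of_gt (by linarith)))⟩

lemma Dens.mono {S S' : ℕ} {δ : ℝ} {f : ℕ → ℝ} (h : Dens S δ f) (hS : S ≤ S') : Dens S' δ f := by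
  intro v
  obtain ⟨t, ht, k, hk⟩ := h v
  exact ⟨t, ht.trans_le hS, k, hk⟩

/-- The open conditions. -/
def OC (q : Con) (N M j : ℕ) : Set (NonemptyCompacts Crc) :=
  {K | ∃ T : ℕ, ∀ r ∈ Icc (-(M : ℝ)) M, (r : Crc) ∈ K →
    Dens T (1 / ((j : ℝ) + 1)) ((q.mod N 0).seq r)}

def OT (j : ℕ) : Set (NonemptyCompacts Crc) :=
  {K | ∃ (C : Finset ℝ) (ρ : ℝ), (0 < ρ ∧ ρ < 1 / ((j : ℝ) + 1) ∧
    (C.card : ℝ) * ρ ^ (1 / ((j : ℝ) + 1)) < 1 / ((j : ℝ) + 1)) ∧
    ∀ r ∈ Icc (-(1 : ℝ)) 1, (r : Crc) ∈ K → r ∈ {r : ℝ | (∃ c ∈ C, |r - c| < ρ) ∨ r < 0}}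

lemma isOpen_OC (h1 : S_OPN) (h2 : S_OPN2) (q : Con) (N M j : ℕ) : IsOpen (OC q N M j) := by
  have : OC q N M j = ⋃ T : ℕ, {K : NonemptyCompacts Crc | ∀ r ∈ Icc (-(M : ℝ)) M, (r : Crc) ∈ K →
      r ∈ {r : ℝ | Dens T (1 / ((j : ℝ) + 1)) ((q.mod N 0).seq r)}} := by
    ext K; simp [OC]
  rw [this]
  exact isOpen_iUnion fun T => h1 M _ (h2 T _ _)

lemma isOpen_OT (h1 : S_OPN) (j : ℕ) : IsOpen (OT j) := by
  have : OT j = ⋃ (C : Finset ℝ) (ρ : ℝ) (_ : 0 < ρ ∧ ρ < 1 / ((j : ℝ) + 1) ∧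
      (C.card : ℝ) * ρ ^ (1 / ((j : ℝ) + 1)) < 1 / ((j : ℝ) + 1)),
      {K : NonemptyCompacts Crc | ∀ r ∈ Icc (-(1 : ℝ)) 1, (r : Crc) ∈ K →
        r ∈ {r : ℝ | (∃ c ∈ C, |r - c| < ρ) ∨ r < 0}} := by
    ext K; simp only [OT, mem_iUnion, exists_prop]; rfl
  rw [this]
  refine isOpen_iUnion fun C => isOpen_iUnion fun ρ => isOpen_iUnion fun _ => h1 1 _ ?_
  have e : {r : ℝ | (∃ c ∈ C, |r - c| < ρ) ∨ r < 0} =
      (⋃ (c : ℝ) (_ : c ∈ C), {r : ℝ | |r - c| < ρ}) ∪ {r : ℝ | r < 0} := by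
    ext r; simp
  rw [e]
  apply IsOpen.union
  · refine isOpen_iUnion fun c => isOpen_iUnion fun _ => ?_
    exact isOpen_lt (by fun_prop) continuous_const
  · exact isOpen_lt continuous_id continuous_const

/-- From the constraints to the properties. -/
lemma good_of (h3 : S_DIM) (h4 : S_ORB) (h5 : S_ORA) (a : ℕ) (K : NonemptyCompacts Crc)
    (hK : ∀ x ∈ K, a • x ∈ K) (F : Set Con) (hF : ∀ q ∈ F, ∀ N M j, K ∈ OC q N M j)
    (hT : ∀ j, K ∈ OT j) (r : ℝ) (hr : (r : Crc) ∈ K) :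
    (∀ b : ℕ, 2 ≤ b → (⟨b, 1, fun _ => 0⟩ : Con) ∈ F →
      O b r = Icc 0 1 ∧ dimH (O a r) = 0 ∧ dimH (O a r) + dimH (O b r) = 1) ∧
    (∀ q ∈ F, ∀ v ε : ℝ, 0 < ε → ∀ N : ℕ, ∃ n ≥ N, ∃ k : ℤ,
      |q.θ * q.β ^ n * r + q.y n - v - k| < ε) := by
  obtain ⟨M, hM⟩ := exists_nat_ge |r|
  have hrM : r ∈ Icc (-(M : ℝ)) M := abs_le.mp hM
  constructor
  · intro b hb hbF
    have hO : O b r = Icc 0 1 := by
      refine h4 b r hb fun δ hδ => ?_
      obtain ⟨j, hj⟩ := exists_nat_one_div_lt hδ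
      obtain ⟨T, hTT⟩ := hF _ hbF 0 M j
      refine ⟨T, fun v => ?_⟩
      obtain ⟨t, ht, k, hk⟩ := hTT r hrM hr v
      refine ⟨t, ht, k, ?_⟩
      rw [Con.mod_seq] at hk
      simp only [one_mul, add_zero, Int.cast_zero] at hk
      exact hk.trans hj
    have hthin : Thin {s : ℝ | s ∈ Icc (0 : ℝ) 1 ∧ (s : Crc) ∈ K} := by
      intro j
      obtain ⟨C, ρ, ⟨h1, h2, h6⟩, h7⟩ := hT j
      refine ⟨C, ρ, h1, h2, h6, fun s hs => ?_⟩
      rcases h7 s ⟨by linarith [hs.1.1], hs.1.2⟩ hs.2 with h | h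
      · exact h
      · exact absurd hs.1.1 (not_le.mpr h)
    have hOa : dimH (O a r) = 0 := by
      refine le_antisymm ?_ bot_le
      rw [← h3 _ hthin]
      exact dimH_mono (h5 a K r hK hr)
    refine ⟨hO, hOa, ?_⟩
    rw [hOa, hO, zero_add, Real.dimH_of_nonempty_interior]
    · simp
    · rw [interior_Icc]; exact ⟨1 / 2, by norm_num, by norm_num⟩
  · intro q hq v ε hε N
    obtain ⟨j, hj⟩ := exists_nat_one_div_lt hε
    obtain ⟨T, hTT⟩ := hF q hq N M j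
    obtain ⟨t, ht, k, hk⟩ := hTT r hrM hr v
    refine ⟨t + N, by omega, k, ?_⟩
    rw [Con.mod_seq] at hk
    simp only [Int.cast_zero, add_zero] at hk
    exact hk.trans hj

/-- The construction. -/
lemma construct (h1 : S_LIM) (h2 : S_CIRC) (a b l : ℕ) (W : Bool → ℕ → Fin a) (ha : 2 ≤ a)
    (hW : Pair l W) (F : Set Con) (hFc : F.Countable) (hFok : ∀ q ∈ F, q.Ok a)
    (hb : (⟨b, 1, fun _ => 0⟩ : Con) ∈ F) :
    ∃ (X : Set (ℕ → Fin a)) (K : NonemptyCompacts Crc), X ⊆ Sh l W ∧ X.Nonempty ∧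
      (∀ x ∈ X, (fun n => x (n + 1)) ∈ X) ∧
      (K : Set Crc) = (fun x : ℕ → Fin a => ((Real.ofDigits x : ℝ) : Crc)) '' X ∧
      IsMin a (K : Set Crc) ∧ (∀ q ∈ F, ∀ N M j, K ∈ OC q N M j) ∧ ∀ j, K ∈ OT j := by
  have hne : Nonempty (F × ℕ × ℤ × ℕ) := ⟨⟨⟨_, hb⟩, 0, 0, 0⟩⟩
  have : Countable F := hFc
  obtain ⟨e, he⟩ := exists_surjective_nat (F × ℕ × ℤ × ℕ)
  obtain ⟨X, hX1, hX2, hX3, hX4, hX5, hX6, hX7⟩ := h1 a l W
    (fun i => (e i).1.1.mod (e i).2.1 (e i).2.2.1) (fun i => 1 / (((e i).2.2.2 : ℝ) + 1)) ha hW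
    (fun i => Con.mod_ok a _ (hFok _ (e i).1.2) _ _) (fun i => by positivity)
  have hall : ∀ q ∈ F, ∀ (N : ℕ) (k : ℤ) (j : ℕ), ∃ T, ∀ x ∈ X,
      Dens T (1 / ((j : ℝ) + 1)) ((q.mod N k).seq (Real.ofDigits x)) := by
    intro q hq N k j
    obtain ⟨i, hi⟩ := he ⟨⟨q, hq⟩, N, k, j⟩
    have := hX6 i
    rw [hi] at this
    exact this
  obtain ⟨K, hK1, hK2, hK3⟩ := h2 a b X ha hX2 hX3 hX4 hX5 (by
    intro x hx δ hδ
    obtain ⟨j, hj⟩ := exists_nat_one_div_lt hδ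
    obtain ⟨T, hT⟩ := hall _ hb 0 0 j
    refine ⟨T, fun v => ?_⟩
    obtain ⟨t, ht, k, hk⟩ := hT x hx v
    refine ⟨t, ht, k, ?_⟩
    rw [Con.mod_seq] at hk
    simp only [one_mul, add_zero, Int.cast_zero] at hk
    exact hk.trans hj)
  refine ⟨X, K, hX1, hX3, hX4, hK1, hK2, ?_, ?_⟩
  · intro q hq N M j
    choose T hT using fun k : ℤ => hall q hq N k j
    refine ⟨(Finset.Icc (-(M : ℤ) - 1) (M + 1)).sup T, fun r hr hrK => ?_⟩
    obtain ⟨x, hx, k, rfl⟩ := hK3 r hrK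
    have hx0 := Real.ofDigits_nonneg x
    have hx1 := Real.ofDigits_le_one x
    have hk : k ∈ Finset.Icc (-(M : ℤ) - 1) (M + 1) := by
      rw [Finset.mem_Icc]
      have h3 := hr.1
      have h4 := hr.2
      constructor
      · have : ((-(M : ℤ) - 1 : ℤ) : ℝ) ≤ (k : ℝ) := by push_cast; linarith
        exact_mod_cast this
      · have : (k : ℝ) ≤ ((M : ℤ) + 1 : ℤ) := by push_cast; linarith
        exact_mod_cast this
    have h5 := (hT k x hx).mono (Finset.le_sup hk)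
    have h6 : (q.mod N 0).seq (Real.ofDigits x + k) = (q.mod N k).seq (Real.ofDigits x) := by
      funext n
      rw [Con.mod_seq, Con.mod_seq]
      simp
    rw [h6]
    exact h5
  · intro j
    obtain ⟨C, ρ, hρ0, hρ1, hcard, hcov⟩ := hX7 (3 * (j + 1))
    have hj : (0 : ℝ) ≤ j := Nat.cast_nonneg j
    have hρ1' : ρ < 1 / ((j : ℝ) + 1) := by
      refine hρ1.trans_le ?_
      apply one_div_le_one_div_of_le (by positivity)
      push_cast; linarith
    have hρ2 : ρ ≤ 1 := by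
      refine hρ1'.le.trans ?_
      rw [div_le_one (by positivity)]; linarith
    refine ⟨(C ∪ C.image (fun c => c + 1)) ∪ C.image (fun c => c - 1), ρ, ⟨hρ0, hρ1', ?_⟩, ?_⟩
    · have hc : (((C ∪ C.image (fun c => c + 1)) ∪ C.image (fun c => c - 1)).card : ℝ) ≤
          3 * C.card := by
        have h1 := Finset.card_union_le (C ∪ C.image (fun c => c + 1)) (C.image (fun c => c - 1))
        have h2 := Finset.card_union_le C (C.image (fun c => c + 1))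
        have h3 : (C.image (fun c : ℝ => c + 1)).card ≤ C.card := Finset.card_image_le
        have h4 : (C.image (fun c : ℝ => c - 1)).card ≤ C.card := Finset.card_image_le
        have : ((C ∪ C.image (fun c => c + 1)) ∪ C.image (fun c => c - 1)).card ≤ 3 * C.card := by
          omega
        exact_mod_cast this
      have hp : ρ ^ (1 / ((j : ℝ) + 1)) ≤ ρ ^ (1 / (((3 * (j + 1) : ℕ) : ℝ) + 1)) := by
        apply Real.rpow_le_rpow_of_exponent_ge hρ0 hρ2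
        apply one_div_le_one_div_of_le (by positivity)
        push_cast; linarith
      have hp0 : 0 ≤ ρ ^ (1 / ((j : ℝ) + 1)) := by positivity
      calc _ ≤ (3 * (C.card : ℝ)) * ρ ^ (1 / (((3 * (j + 1) : ℕ) : ℝ) + 1)) := by gcongr
        _ = 3 * ((C.card : ℝ) * ρ ^ (1 / (((3 * (j + 1) : ℕ) : ℝ) + 1))) := by ring
        _ < 3 * (1 / (((3 * (j + 1) : ℕ) : ℝ) + 1)) := by
            apply mul_lt_mul_of_pos_left hcard (by norm_num)
        _ ≤ 1 / ((j : ℝ) + 1) := by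
            rw [mul_one_div, div_le_div_iff₀ (by positivity) (by positivity)]
            push_cast; linarith
    · intro r hr hrK
      obtain ⟨x, hx, k, rfl⟩ := hK3 r hrK
      by_cases hneg : Real.ofDigits x + k < 0
      · exact Or.inr hneg
      · left
        push Not at hneg
        have hx0 := Real.ofDigits_nonneg x
        have hx1 := Real.ofDigits_le_one x
        obtain ⟨c, hc, hcr⟩ := hcov _ ⟨x, hx, rfl⟩
        have hk1 : -1 ≤ k := by
          have : ((-1 : ℤ) : ℝ) ≤ (k : ℝ) := by push_cast; linarith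
          exact_mod_cast this
        have hk2 : k ≤ 1 := by
          have : (k : ℝ) ≤ ((1 : ℤ) : ℝ) := by push_cast; linarith [hr.2]
          exact_mod_cast this
        have hk3 : k = -1 ∨ k = 0 ∨ k = 1 := by omega
        rcases hk3 with rfl | rfl | rfl
        · refine ⟨c - 1, ?_, ?_⟩
          · simp only [Finset.mem_union, Finset.mem_image]
            exact Or.inr ⟨c, hc, rfl⟩
          · have : Real.ofDigits x + ((-1 : ℤ) : ℝ) - (c - 1) = Real.ofDigits x - c := by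
              push_cast; ring
            rw [this]; exact hcr
        · refine ⟨c, ?_, ?_⟩
          · simp only [Finset.mem_union]
            exact Or.inl (Or.inl hc)
          · have : Real.ofDigits x + ((0 : ℤ) : ℝ) - c = Real.ofDigits x - c := by
              push_cast; ring
            rw [this]; exact hcr
        · refine ⟨c + 1, ?_, ?_⟩
          · simp only [Finset.mem_union, Finset.mem_image]
            exact Or.inl (Or.inr ⟨c, hc, rfl⟩)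
          · have : Real.ofDigits x + ((1 : ℤ) : ℝ) - (c + 1) = Real.ofDigits x - c := by
              push_cast; ring
            rw [this]; exact hcr

/-- Density. -/
lemma dense_D (h1 : S_LIM) (h2 : S_CIRC) (h3 : S_CODE) (a b : ℕ) (ha : 2 ≤ a)
    (F : Set Con) (hFc : F.Countable) (hFok : ∀ q ∈ F, q.Ok a)
    (hb : (⟨b, 1, fun _ => 0⟩ : Con) ∈ F) :
    Dense {K : MinSets a | (∀ q ∈ F, ∀ N M j, K.1 ∈ OC q N M j) ∧ ∀ j, K.1 ∈ OT j} := by
  intro K₀
  rw [Metric.mem_closure_iff]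
  intro ε hε
  obtain ⟨l, W, hW, hcode⟩ := h3 a K₀.1 ha K₀.1.isCompact.isClosed K₀.2 (ε / 2) (by linarith)
  obtain ⟨X, K, hX1, hX2, hX3, hK1, hK2, hK3, hK4⟩ := construct h1 h2 a b l W ha hW F hFc hFok hb
  refine ⟨⟨K, hK2⟩, ⟨hK3, hK4⟩, ?_⟩
  obtain ⟨h5, h6⟩ := hcode X hX1 hX2 hX3
  rw [Subtype.dist_eq, Metric.NonemptyCompacts.dist_eq]
  refine lt_of_le_of_lt (Metric.hausdorffDist_le_of_mem_dist (r := ε / 2) (by linarith) ?_ ?_)
    (by linarith)
  · intro k hk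
    obtain ⟨x, hx, hxk⟩ := h6 k hk
    refine ⟨((Real.ofDigits x : ℝ) : Crc), ?_, ?_⟩
    · rw [hK1]; exact ⟨x, hx, rfl⟩
    · rw [dist_comm]; exact hxk.le
  · intro y hy
    rw [hK1] at hy
    obtain ⟨x, hx, rfl⟩ := hy
    obtain ⟨k, hk, hxk⟩ := h5 x hx
    exact ⟨k, hk, hxk.le⟩

end Pool.Agent.H30.MZ
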