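import Pool.Agent.H30.MZ.Stm

/-!
# MZ, part ORA (helper42)
-/

set_option autoImplicit false

namespace Pool.Agent.H30.MZ

open Set Filter Topology MeasureTheory

theorem ORA_proved : S_ORA := by
  intro a K r hK hr
  have hclosed : IsClosed {s : ℝ | s ∈ Icc (0 : ℝ) 1 ∧ (s : AddCircle (1 : ℝ)) ∈ K} := by
    refine isClosed_Icc.inter ?_
    have hK2 : IsClosed (K : Set (AddCircle (1 : ℝ))) := K.isCompact.isClosed
    exact hK2.preimage (AddCircle.continuous_mk' (1 : ℝ))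
  refine closure_minimal ?_ hclosed
  rintro _ ⟨n, rfl⟩
  refine ⟨⟨Int.fract_nonneg _, (Int.fract_lt_one _).le⟩, ?_⟩
  have h1 : ∀ n : ℕ, (((a : ℝ) ^ n * r : ℝ) : AddCircle (1 : ℝ)) ∈ K := by
    intro n
    induction n with
    | zero => simpa using hr
    | succ n ih =>
      have h2 := hK _ ih
      rw [← AddCircle.coe_nsmul, nsmul_eq_mul] at h2
      have e : (a : ℝ) ^ (n + 1) * r = (a : ℝ) * ((a : ℝ) ^ n * r) := by ring
      rw [e]
      exact h2
  have h3 : ((Int.fract ((a : ℝ) ^ n * r) : ℝ) : AddCircle (1 : ℝ)) =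
      (((a : ℝ) ^ n * r : ℝ) : AddCircle (1 : ℝ)) := by
    rw [Int.fract, AddCircle.coe_sub]
    have : ((⌊(a : ℝ) ^ n * r⌋ : ℝ) : AddCircle (1 : ℝ)) = 0 := by
      rw [AddCircle.coe_eq_zero_iff]
      exact ⟨⌊(a : ℝ) ^ n * r⌋, by simp⟩
    rw [this, sub_zero]
  rw [h3]
  exact h1 n

end Pool.Agent.H30.MZ
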