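import Pool.Agent.H30.MZ.Stm

set_option autoImplicit false

namespace Pool.Agent.H30.MZ

open Set Filter Topology

/-- The point of the circle with the digits `x`. -/
noncomputable def pt {a : ℕ} (x : ℕ → Fin a) : AddCircle (1 : ℝ) :=
  ((Real.ofDigits x : ℝ) : AddCircle (1 : ℝ))

lemma pt_continuous {a : ℕ} : Continuous (pt (a := a)) :=
  (AddCircle.continuous_mk' 1).comp Real.continuous_ofDigits

/-- `a^n • pt x = pt (shift^n x)` -/
lemma smul_pt {a : ℕ} (ha : 2 ≤ a) (x : ℕ → Fin a) (n : ℕ) :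
    a ^ n • pt x = pt fun i => x (i + n) := by
  unfold pt
  rw [← AddCircle.coe_nsmul, nsmul_eq_mul]
  have ha0 : (a : ℝ) ≠ 0 := by positivity
  -- the integer part
  have h1 := Real.ofDigits_eq_sum_add_ofDigits x n
  have h2 : ∃ k : ℤ, (a : ℝ) ^ n * ∑ i ∈ Finset.range n, Real.ofDigitsTerm x i = k := by
    refine ⟨∑ i ∈ Finset.range n, ((x i : ℕ) : ℤ) * (a : ℤ) ^ (n - (i + 1)), ?_⟩
    rw [Finset.mul_sum]
    push_cast
    refine Finset.sum_congr rfl fun i hi => ?_
    have hi' : i + 1 ≤ n := Finset.mem_range.mp hi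
    unfold Real.ofDigitsTerm
    have : (a : ℝ) ^ n = (a : ℝ) ^ (n - (i + 1)) * (a : ℝ) ^ (i + 1) := by
      rw [← pow_add]; congr 1; omega
    rw [this]
    field_simp
  obtain ⟨k, hk⟩ := h2
  have h3 : ((a ^ n : ℕ) : ℝ) * Real.ofDigits x = k + Real.ofDigits fun i => x (i + n) := by
    rw [h1, mul_add]
    push_cast
    rw [hk, ← mul_assoc, mul_inv_cancel₀ (by positivity), one_mul]
  rw [h3, AddCircle.coe_add]
  have : ((k : ℝ) : AddCircle (1 : ℝ)) = 0 := by
    rw [AddCircle.coe_eq_zero_iff]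
    exact ⟨k, by simp⟩
  rw [this, zero_add]

end Pool.Agent.H30.MZ
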