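import Pool.Agent.H30.MZ.Defs

set_option autoImplicit false

namespace Pool.Agent.H30.MZ

open Set Filter Topology MeasureTheory

/-- INT. The mean of `∏_{i<k} |cos (π A^x A^i)|` over `x ∈ [0,1]` is small for large `k`. -/
def S_INT : Prop := ∀ A : ℕ, 2 ≤ A → ∀ ε : ℝ, 0 < ε →
  ∃ k : ℕ, ∫ x in (0 : ℝ)..1, Q A k ((A : ℝ) ^ x) ≤ ε

/-- ROT. Uniform upper bound for the averages of a periodic Lipschitz function along an irrational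
rotation. -/
def S_ROT : Prop := ∀ (f : ℝ → ℝ) (L α : ℝ), Irrational α → (∀ x, f (x + 1) = f x) →
  (∀ x y, |f x - f y| ≤ L * |x - y|) → ∀ ε : ℝ, 0 < ε →
  ∃ S₀ : ℕ, ∀ S : ℕ, S₀ ≤ S → ∀ x₀ : ℝ,
    ∑ n ∈ Finset.range S, f (x₀ + n * α) ≤ S * ((∫ x in (0 : ℝ)..1, f x) + ε)

/-- COS. -/
def S_COS : Prop := ∀ (A : ℕ) (β c₁ c₂ η : ℝ), 2 ≤ A → 1 < β →
  Irrational (Real.log β / Real.log A) → 0 < c₁ → 0 < η →
  ∃ S₀ : ℕ, ∀ S : ℕ, S₀ ≤ S → ∃ m₀ : ℕ, ∀ m : ℕ, m₀ ≤ m → ∀ u : ℝ, c₁ ≤ u → u ≤ c₂ →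
    ∑ n ∈ Finset.range S, ∏ j ∈ Finset.range m,
      |Real.cos (Real.pi * (u * β ^ n / (A : ℝ) ^ (j + 1)))| ≤ η * S

/-- FEJ. Small Weyl sums for `1 ≤ h ≤ H` imply density. -/
def S_FEJ : Prop := ∀ δ : ℝ, 0 < δ → ∃ (H : ℕ) (ε : ℝ), 0 < ε ∧ ∀ (S : ℕ) (f : ℕ → ℝ), 0 < S →
  (∀ h : ℕ, 1 ≤ h → h ≤ H →
    ‖∑ t ∈ Finset.range S, Complex.exp (2 * Real.pi * Complex.I * (h * f t))‖ ≤ ε * S) →
  Dens S δ f

/-- WIN. The window lemma: for at least half of the 0-1-words `z` of length `m` the sequence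
`φ t + θ κ β^t d ∑_j z_j A^(-j-1)`, `t < S`, is `δ`-dense modulo one, for all phases `φ`. -/
def S_WIN : Prop := ∀ (A : ℕ) (β θ δ : ℝ) (d : ℤ), 2 ≤ A → 1 < β →
  Irrational (Real.log β / Real.log A) → θ ≠ 0 → d ≠ 0 → 0 < δ →
  ∃ S m₀ : ℕ, ∀ m : ℕ, m₀ ≤ m → ∀ κ : ℝ, 1 ≤ κ → κ ≤ β → ∀ φ : ℕ → ℝ,
    2 ^ m ≤ 2 * {z : Fin m → Bool | Dens S δ (fun t => φ t + θ * κ * β ^ t *
      (d * ∑ j : Fin m, (if z j then (1 : ℝ) else 0) / (A : ℝ) ^ ((j : ℕ) + 1)))}.ncard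

/-- AUT. In a finite deterministic automaton some state `s` has, for each of two inputs, a loop
beginning with this input. -/
def S_AUT : Prop := ∀ (P α : Type) [Finite P] [Nonempty P] (F : P → α → P) (w : Bool → α),
  ∃ (s : P) (v : Bool → List α), ∀ c, (w c :: v c).foldl F s = s

/-- LOOP. The greedy lemma: every start `i` (with label `j`) is satisfied after at most `T`
steps, in all concatenations of two different words `R true`, `R false` of length `M`, which both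
contain the letter `w₀`. -/
def S_LOOP : Prop := ∀ (α : Type) [Finite α] (r : ℕ) (Sat : Fin r → List α → Prop),
  (∀ (j : Fin r) (L : List α), L ≠ [] → Nat.card α ≤ 2 * {w : α | Sat j (L ++ [w])}.ncard) →
  ∀ w₀ w₁ : α, w₀ ≠ w₁ →
  ∃ (T M : ℕ) (R : Bool → ℕ → α), 0 < M ∧ (∃ i < M, R true i ≠ R false i) ∧
    (∀ c, ∃ i < M, R c i = w₀) ∧
    ∀ (f : ℕ → Bool) (i : ℕ) (j : Fin r), ∃ k, 1 ≤ k ∧ k ≤ T ∧
      Sat j (List.ofFn fun t : Fin (k + 1) => cat M R f (i + t))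

/-- STAGE. One step of the construction. -/
def S_STAGE : Prop := ∀ (a l : ℕ) (W : Bool → ℕ → Fin a) (q : Con) (δ : ℝ), 2 ≤ a → Pair l W →
  q.Ok a → 0 < δ →
  ∃ (T M : ℕ) (R : Bool → ℕ → Bool), Pair M R ∧ AllPairs M R ∧
    ∀ x ∈ Sh (M * l) (comp l W R), Dens T δ (q.seq (Real.ofDigits x))

/-- LIM. The limit of the construction. -/
def S_LIM : Prop := ∀ (a l : ℕ) (W : Bool → ℕ → Fin a) (q : ℕ → Con) (δ : ℕ → ℝ), 2 ≤ a →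
  Pair l W → (∀ i, (q i).Ok a) → (∀ i, 0 < δ i) →
  ∃ X : Set (ℕ → Fin a), X ⊆ Sh l W ∧ IsClosed X ∧ X.Nonempty ∧
    (∀ x ∈ X, (fun n => x (n + 1)) ∈ X) ∧
    (∀ x ∈ X, ∀ x' ∈ X, ∀ N : ℕ, ∃ i : ℕ, ∀ n < N, x (n + i) = x' n) ∧
    (∀ i, ∃ T, ∀ x ∈ X, Dens T (δ i) ((q i).seq (Real.ofDigits x))) ∧
    Thin (Real.ofDigits '' X)

/-- DIM. -/
def S_DIM : Prop := ∀ E : Set ℝ, Thin E → dimH E = 0

/-- CODE. Approximation of an infinite minimal set by symbolic sets. -/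
def S_CODE : Prop := ∀ (a : ℕ) (K₀ : Set (AddCircle (1 : ℝ))), 2 ≤ a → IsClosed K₀ →
  IsMin a K₀ → ∀ ε : ℝ, 0 < ε → ∃ (l : ℕ) (W : Bool → ℕ → Fin a), Pair l W ∧
    ∀ X : Set (ℕ → Fin a), X ⊆ Sh l W → X.Nonempty → (∀ x ∈ X, (fun n => x (n + 1)) ∈ X) →
      (∀ x ∈ X, ∃ k ∈ K₀, dist ((Real.ofDigits x : ℝ) : AddCircle (1 : ℝ)) k < ε) ∧
      (∀ k ∈ K₀, ∃ x ∈ X, dist ((Real.ofDigits x : ℝ) : AddCircle (1 : ℝ)) k < ε)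

/-- CIRC. From the symbolic set to the circle. `b` is a base whose orbits are dense. -/
def S_CIRC : Prop := ∀ (a b : ℕ) (X : Set (ℕ → Fin a)), 2 ≤ a → IsClosed X → X.Nonempty →
  (∀ x ∈ X, (fun n => x (n + 1)) ∈ X) →
  (∀ x ∈ X, ∀ x' ∈ X, ∀ N : ℕ, ∃ i : ℕ, ∀ n < N, x (n + i) = x' n) →
  (∀ x ∈ X, ∀ δ : ℝ, 0 < δ → ∃ T, Dens T δ (fun n => (b : ℝ) ^ n * Real.ofDigits x)) →
  ∃ K : TopologicalSpace.NonemptyCompacts (AddCircle (1 : ℝ)),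
    (K : Set (AddCircle (1 : ℝ))) =
      (fun x : ℕ → Fin a => ((Real.ofDigits x : ℝ) : AddCircle (1 : ℝ))) '' X ∧
    IsMin a (K : Set (AddCircle (1 : ℝ))) ∧
    ∀ r : ℝ, (r : AddCircle (1 : ℝ)) ∈ K → ∃ x ∈ X, ∃ k : ℤ, r = Real.ofDigits x + k

/-- OPN. -/
def S_OPN : Prop := ∀ (M : ℝ) (G : Set ℝ), IsOpen G →
  IsOpen {K : TopologicalSpace.NonemptyCompacts (AddCircle (1 : ℝ)) |
    ∀ r ∈ Icc (-M) M, (r : AddCircle (1 : ℝ)) ∈ K → r ∈ G}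

/-- OPN2. -/
def S_OPN2 : Prop := ∀ (T : ℕ) (δ : ℝ) (q : Con), IsOpen {r : ℝ | Dens T δ (q.seq r)}

/-- IRR. -/
def S_IRR : Prop := ∀ a b : ℕ, 2 ≤ a → 2 ≤ b → (∀ k l : ℕ, 0 < k → 0 < l → a ^ k ≠ b ^ l) →
  Irrational (Real.log b / Real.log a)

/-- ORB. -/
def S_ORB : Prop := ∀ (b : ℕ) (r : ℝ), 2 ≤ b →
  (∀ δ : ℝ, 0 < δ → ∃ T, Dens T δ (fun n => (b : ℝ) ^ n * r)) → O b r = Icc 0 1

/-- ORA. The orbit closure of `r` is contained in the lift of the minimal set. -/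
def S_ORA : Prop := ∀ (a : ℕ) (K : TopologicalSpace.NonemptyCompacts (AddCircle (1 : ℝ))) (r : ℝ),
  (∀ x ∈ K, a • x ∈ K) → (r : AddCircle (1 : ℝ)) ∈ K →
  O a r ⊆ {s : ℝ | s ∈ Icc (0 : ℝ) 1 ∧ (s : AddCircle (1 : ℝ)) ∈ K}

end Pool.Agent.H30.MZ
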