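import Mathlib
import Pool.Agent.H30.MZ.Stm

set_option autoImplicit false

namespace Pool.Agent.H30.MZ

open Set Filter Topology MeasureTheory

namespace Rot

theorem exists_rat (α : ℝ) (hα : Irrational α) (N : ℕ) :
    ∃ q : ℚ, N < q.den ∧ |α - q| < 1 / (q.den : ℝ) ^ 2 := by
  by_contra hcon
  push Not at hcon
  have hinf := Real.infinite_rat_abs_sub_lt_one_div_den_sq_of_irrational hα
  apply hinf
  set B : ℤ := ⌈(N : ℝ) * (|α| + 1)⌉ with hB
  have hf : ((fun q : ℚ => (q.num, q.den)) ⁻¹' (Icc (-B) B ×ˢ Iic N)).Finite := by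
    apply Set.Finite.preimage _ (Set.toFinite _)
    intro q _ q' _ h
    simp only [Prod.mk.injEq] at h
    exact Rat.ext h.1 h.2
  apply hf.subset
  intro q hq
  have hq' : |α - q| < 1 / (q.den : ℝ) ^ 2 := hq
  have hden : q.den ≤ N := by
    by_contra h
    exact absurd hq' (not_lt.2 (hcon q (by omega)))
  have hd1 : (1 : ℝ) ≤ q.den := by exact_mod_cast q.den_pos
  have hle : |(q : ℝ)| ≤ |α| + 1 := by
    have h1 : 1 / (q.den : ℝ) ^ 2 ≤ 1 := by
      rw [div_le_one (by positivity)]; nlinarith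
    have h2 := abs_sub_abs_le_abs_sub (q : ℝ) α
    rw [abs_sub_comm] at h2
    linarith
  have hnum : |(q.num : ℝ)| ≤ B := by
    have h3 : (q.num : ℝ) = q * q.den := by
      have := Rat.mul_den_eq_num q
      exact_mod_cast this.symm
    rw [h3, abs_mul, abs_of_nonneg (a := (q.den : ℝ)) (by positivity)]
    have h4 : (q.den : ℝ) ≤ N := by exact_mod_cast hden
    calc |(q : ℝ)| * q.den ≤ (|α| + 1) * N := by gcongr
      _ = N * (|α| + 1) := by ring
      _ ≤ B := Int.le_ceil _
  simp only [Set.mem_preimage, Set.mem_prod, Set.mem_Icc, Set.mem_Iic]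
  rw [abs_le] at hnum
  refine ⟨⟨?_, ?_⟩, hden⟩
  · exact_mod_cast hnum.1
  · exact_mod_cast hnum.2

theorem per_int (f : ℝ → ℝ) (hp : ∀ x, f (x + 1) = f x) (x : ℝ) (k : ℤ) :
    f (x + k) = f x := by
  have h : Function.Periodic f 1 := hp
  have := h.int_mul k
  simpa using this x

theorem sum_res (q : ℚ) (f : ℝ → ℝ) (hp : ∀ x, f (x + 1) = f x) (x₀ : ℝ) :
    ∑ n ∈ Finset.range q.den, f (x₀ + n * q) =
      ∑ n ∈ Finset.range q.den, f (x₀ + n / q.den) := by
  have hpos := q.den_pos
  have : NeZero q.den := ⟨hpos.ne'⟩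
  have hqR : (q.den : ℝ) ≠ 0 := by positivity
  set G : ZMod q.den → ℝ := fun a => f (x₀ + a.val / q.den) with hG
  have hGi : ∀ m : ℤ, f (x₀ + m / q.den) = G (m : ZMod q.den) := by
    intro m
    simp only [hG]
    have h1 : (((m : ZMod q.den).val : ℕ) : ℤ) = m % q.den := ZMod.val_intCast m
    have h2 : (((m : ZMod q.den).val : ℕ) : ℝ) = ((m % q.den : ℤ) : ℝ) := by
      exact_mod_cast congrArg (Int.cast : ℤ → ℝ) h1
    rw [h2]
    have h3 : m = m % q.den + q.den * (m / q.den) := (Int.emod_add_mul_ediv m q.den).symm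
    have h4 : (m : ℝ) = ((m % q.den : ℤ) : ℝ) + q.den * ((m / q.den : ℤ) : ℝ) := by
      exact_mod_cast congrArg (Int.cast : ℤ → ℝ) h3
    rw [h4]
    have h5 : x₀ + (((m % q.den : ℤ) : ℝ) + q.den * ((m / q.den : ℤ) : ℝ)) / q.den =
      x₀ + ((m % q.den : ℤ) : ℝ) / q.den + ((m / q.den : ℤ) : ℝ) := by
      field_simp
      ring
    rw [h5, per_int f hp]
  have hr : ∀ H : ZMod q.den → ℝ, ∑ n ∈ Finset.range q.den, H (n : ZMod q.den) = ∑ a, H a := by
    intro H
    apply Finset.sum_nbij' (fun n : ℕ => (n : ZMod q.den)) (fun a => a.val)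
    · intro a _; exact Finset.mem_univ _
    · intro a _; exact Finset.mem_range.2 (ZMod.val_lt a)
    · intro a ha; exact ZMod.val_cast_of_lt (Finset.mem_range.1 ha)
    · intro a _; exact ZMod.natCast_zmod_val a
    · intro a _; rfl
  have hunit : IsUnit ((q.num : ℤ) : ZMod q.den) := by
    have h1 : IsCoprime q.num (q.den : ℤ) := by
      rw [Int.isCoprime_iff_gcd_eq_one, Int.gcd_eq_natAbs, Int.natAbs_natCast]
      exact q.reduced
    exact (ZMod.coe_int_isUnit_iff_isCoprime q.num q.den).2 h1.symm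
  obtain ⟨u, hu⟩ := hunit
  have h1 : ∑ n ∈ Finset.range q.den, f (x₀ + n * q) =
      ∑ n ∈ Finset.range q.den, (fun a : ZMod q.den => G (a * u)) (n : ZMod q.den) := by
    apply Finset.sum_congr rfl
    intro n _
    have h2 : (n : ℝ) * q = (((n * q.num : ℤ)) : ℝ) / q.den := by
      have h3 : (q : ℝ) = q.num / q.den := by
        exact_mod_cast congrArg (Rat.cast : ℚ → ℝ) (Rat.num_div_den q).symm
      rw [h3]; push_cast; ring
    rw [h2, hGi]
    simp only [hu]
    congr 1
    push_cast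
    rfl
  have h2 : ∑ n ∈ Finset.range q.den, f (x₀ + n / q.den) =
      ∑ n ∈ Finset.range q.den, G (n : ZMod q.den) := by
    apply Finset.sum_congr rfl
    intro n _
    have := hGi (n : ℤ)
    simpa using this
  rw [h1, h2, hr (fun a => G (a * u)), hr G]
  exact Fintype.sum_equiv (Units.mulRight u) _ _ (fun a => rfl)

theorem cont (f : ℝ → ℝ) (L : ℝ) (hL0 : 0 ≤ L) (hL : ∀ x y, |f x - f y| ≤ L * |x - y|) :
    Continuous f := by
  have : LipschitzWith L.toNNReal f := by
    apply LipschitzWith.of_dist_le_mul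
    intro x y
    rw [Real.dist_eq, Real.dist_eq, Real.coe_toNNReal L hL0]
    exact hL x y
  exact this.continuous

theorem le_mean (f : ℝ → ℝ) (L : ℝ) (hL0 : 0 ≤ L) (hp : ∀ x, f (x + 1) = f x)
    (hL : ∀ x y, |f x - f y| ≤ L * |x - y|) (x : ℝ) :
    f x ≤ (∫ x in (0 : ℝ)..1, f x) + L := by
  have hc := cont f L hL0 hL
  have hper : Function.Periodic f 1 := hp
  have h0 := hper.intervalIntegral_add_eq x 0
  rw [zero_add] at h0
  have h1 : ∫ y in x..x + 1, f x ≤ ∫ y in x..x + 1, (f y + L) := by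
    apply intervalIntegral.integral_mono_on (by linarith)
    · exact intervalIntegrable_const
    · exact (hc.add continuous_const).intervalIntegrable _ _
    · intro y hy
      have h2 := hL x y
      have h3 : |x - y| ≤ 1 := by
        rw [abs_le]; constructor <;> linarith [hy.1, hy.2]
      have h4 : L * |x - y| ≤ L * 1 := mul_le_mul_of_nonneg_left h3 hL0
      linarith [le_abs_self (f x - f y)]
  rw [intervalIntegral.integral_const, intervalIntegral.integral_add
    (hc.intervalIntegrable _ _) intervalIntegrable_const, intervalIntegral.integral_const, h0] at h1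
  simpa using h1

theorem riemann (f : ℝ → ℝ) (L : ℝ) (hL0 : 0 ≤ L) (hp : ∀ x, f (x + 1) = f x)
    (hL : ∀ x y, |f x - f y| ≤ L * |x - y|) (x₀ : ℝ) (q : ℕ) (hq : 0 < q) :
    ∑ n ∈ Finset.range q, f (x₀ + n / q) ≤ q * (∫ x in (0 : ℝ)..1, f x) + L := by
  have hc := cont f L hL0 hL
  have hper : Function.Periodic f 1 := hp
  have hqR : (0 : ℝ) < q := by exact_mod_cast hq
  set a : ℕ → ℝ := fun n => x₀ + n / q with ha
  have hstep : ∀ n, a (n + 1) = a n + 1 / q := by
    intro n; simp only [ha]; push_cast; ring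
  have h1 : ∀ n ∈ Finset.range q, f (a n) ≤ q * (∫ x in a n..a (n + 1), f x) + L / q := by
    intro n _
    have hle : a n ≤ a (n + 1) := by rw [hstep]; have : 0 < 1 / (q : ℝ) := by positivity
                                     linarith
    have h2 : ∫ y in a n..a (n + 1), f (a n) ≤ ∫ y in a n..a (n + 1), (f y + L / q) := by
      apply intervalIntegral.integral_mono_on hle
      · exact intervalIntegrable_const
      · exact (hc.add continuous_const).intervalIntegrable _ _
      · intro y hy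
        have h2 := hL (a n) y
        have h3 : |a n - y| ≤ 1 / q := by
          rw [hstep] at hy
          rw [abs_le]; constructor <;> linarith [hy.1, hy.2, (by positivity : 0 < 1 / (q : ℝ))]
        have h4 : L * |a n - y| ≤ L * (1 / q) := mul_le_mul_of_nonneg_left h3 hL0
        have h5 : L * (1 / q) = L / q := by ring
        linarith [le_abs_self (f (a n) - f y)]
    rw [intervalIntegral.integral_const, intervalIntegral.integral_add
      (hc.intervalIntegrable _ _) intervalIntegrable_const, intervalIntegral.integral_const] at h2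
    have h6 : a (n + 1) - a n = 1 / q := by rw [hstep]; ring
    rw [h6, smul_eq_mul, smul_eq_mul] at h2
    have h7 := mul_le_mul_of_nonneg_left h2 hqR.le
    have h8 : (q : ℝ) * (1 / q * f (a n)) = f (a n) := by field_simp
    have h9 : (q : ℝ) * ((∫ x in a n..a (n + 1), f x) + 1 / q * (L / q)) =
        q * (∫ x in a n..a (n + 1), f x) + L / q := by field_simp
    rw [h8, h9] at h7
    exact h7
  have h2 := Finset.sum_le_sum h1
  rw [Finset.sum_add_distrib, ← Finset.mul_sum,
    intervalIntegral.sum_integral_adjacent_intervals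
      (fun k _ => hc.intervalIntegrable _ _)] at h2
  have h3 : ∑ _i ∈ Finset.range q, L / (q : ℝ) = L := by
    rw [Finset.sum_const, Finset.card_range, nsmul_eq_mul]; field_simp
  have h4 : a 0 = x₀ := by simp [ha]
  have h5 : a q = x₀ + 1 := by simp only [ha]; rw [div_self hqR.ne']
  have h0 := hper.intervalIntegral_add_eq x₀ 0
  rw [zero_add] at h0
  rw [h3, h4, h5, h0] at h2
  exact h2

theorem block (f : ℝ → ℝ) (L α : ℝ) (hL0 : 0 ≤ L) (hp : ∀ x, f (x + 1) = f x)
    (hL : ∀ x y, |f x - f y| ≤ L * |x - y|) (q : ℚ) (hq : |α - q| < 1 / (q.den : ℝ) ^ 2)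
    (x₀ : ℝ) : ∑ n ∈ Finset.range q.den, f (x₀ + n * α) ≤
      q.den * (∫ x in (0 : ℝ)..1, f x) + 2 * L := by
  have hpos := q.den_pos
  have hqR : (0 : ℝ) < q.den := by exact_mod_cast hpos
  have h1 : ∀ n ∈ Finset.range q.den, f (x₀ + n * α) ≤ f (x₀ + n * q) + L / q.den := by
    intro n hn
    have h2 := hL (x₀ + n * α) (x₀ + n * q)
    have h3 : |x₀ + n * α - (x₀ + n * q)| ≤ 1 / q.den := by
      have : x₀ + n * α - (x₀ + n * q) = n * (α - q) := by ring
      rw [this, abs_mul, abs_of_nonneg (a := (n : ℝ)) (by positivity)]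
      have hn' : (n : ℝ) ≤ q.den := by
        have := (Finset.mem_range.1 hn).le
        exact_mod_cast this
      calc (n : ℝ) * |α - q| ≤ q.den * (1 / (q.den : ℝ) ^ 2) := by gcongr
        _ = 1 / q.den := by field_simp
    have h4 : L * |x₀ + n * α - (x₀ + n * q)| ≤ L * (1 / q.den) :=
      mul_le_mul_of_nonneg_left h3 hL0
    have h5 : L * (1 / (q.den : ℝ)) = L / q.den := by ring
    linarith [le_abs_self (f (x₀ + n * α) - f (x₀ + n * q))]
  have h2 := Finset.sum_le_sum h1
  rw [Finset.sum_add_distrib, sum_res q f hp x₀] at h2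
  have h3 : ∑ _i ∈ Finset.range q.den, L / (q.den : ℝ) = L := by
    rw [Finset.sum_const, Finset.card_range, nsmul_eq_mul]; field_simp
  have h4 := riemann f L hL0 hp hL x₀ q.den hpos
  rw [h3] at h2
  linarith

theorem blocks (f : ℝ → ℝ) (L α : ℝ) (hL0 : 0 ≤ L) (hp : ∀ x, f (x + 1) = f x)
    (hL : ∀ x y, |f x - f y| ≤ L * |x - y|) (q : ℚ) (hq : |α - q| < 1 / (q.den : ℝ) ^ 2)
    (s : ℕ) (x₀ : ℝ) : ∑ n ∈ Finset.range (q.den * s), f (x₀ + n * α) ≤
      s * (q.den * (∫ x in (0 : ℝ)..1, f x) + 2 * L) := by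
  induction s with
  | zero => simp
  | succ s ih =>
    rw [Nat.mul_succ, Finset.sum_range_add]
    have h1 := block f L α hL0 hp hL q hq (x₀ + (q.den * s : ℕ) * α)
    have h2 : ∑ n ∈ Finset.range q.den, f (x₀ + ((q.den * s + n : ℕ) : ℝ) * α) =
        ∑ n ∈ Finset.range q.den, f (x₀ + (q.den * s : ℕ) * α + n * α) := by
      apply Finset.sum_congr rfl
      intro n _
      congr 1
      push_cast; ring
    rw [h2]
    push_cast at h1 ih ⊢
    linarith

end Rot

theorem ROT_proved : S_ROT := by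
  intro f L α hα hp hL ε hε
  have hL0 : 0 ≤ L := by
    have := hL 0 1
    have h2 := abs_nonneg (f 0 - f 1)
    simp only [zero_sub, abs_neg, abs_one, mul_one] at this
    linarith
  set I : ℝ := ∫ x in (0 : ℝ)..1, f x with hI
  obtain ⟨q, hqN, hq⟩ := Rot.exists_rat α hα ⌈4 * L / ε⌉₊
  have hqR : (0 : ℝ) < q.den := by exact_mod_cast q.den_pos
  have hq4 : 4 * L / ε ≤ q.den := (Nat.le_ceil _).trans (by exact_mod_cast hqN.le)
  rw [div_le_iff₀ hε] at hq4
  refine ⟨⌈2 * L * q.den / ε⌉₊, fun S hS x₀ => ?_⟩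
  have hS' : 2 * L * q.den / ε ≤ S := (Nat.le_ceil _).trans (by exact_mod_cast hS)
  rw [div_le_iff₀ hε] at hS'
  have hdm : q.den * (S / q.den) + S % q.den = S := Nat.div_add_mod S q.den
  set s := S / q.den with hs
  set r := S % q.den with hr
  have hrq : r < q.den := Nat.mod_lt _ q.den_pos
  rw [← hdm, Finset.sum_range_add]
  have h1 := Rot.blocks f L α hL0 hp hL q hq s x₀
  have h2 : ∑ n ∈ Finset.range r, f (x₀ + ((q.den * s + n : ℕ) : ℝ) * α) ≤ r * (I + L) := by
    calc ∑ n ∈ Finset.range r, f (x₀ + ((q.den * s + n : ℕ) : ℝ) * α)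
        ≤ ∑ _n ∈ Finset.range r, (I + L) :=
          Finset.sum_le_sum fun n _ => Rot.le_mean f L hL0 hp hL _
      _ = r * (I + L) := by rw [Finset.sum_const, Finset.card_range, nsmul_eq_mul]
  have hSR : (q.den : ℝ) * s + r = S := by exact_mod_cast hdm
  have hrR : (r : ℝ) ≤ q.den := by exact_mod_cast hrq.le
  have hs0 : (0 : ℝ) ≤ s := Nat.cast_nonneg _
  have hr0 : (0 : ℝ) ≤ r := Nat.cast_nonneg _
  -- `2 L s ≤ ε q s / 2 ≤ ε S / 2` and `L r ≤ L q ≤ ε S / 2`
  have h3 : 2 * L * s ≤ ε / 2 * S := by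
    have : 4 * L * s ≤ q.den * ε * s := mul_le_mul_of_nonneg_right hq4 hs0
    have h5 : 0 ≤ ε * r := by positivity
    nlinarith
  have h4 : L * r ≤ ε / 2 * S := by
    have : L * r ≤ L * q.den := mul_le_mul_of_nonneg_left hrR hL0
    nlinarith
  have h5 : ((q.den * s + r : ℕ) : ℝ) = S := by rw [hdm]
  rw [h5]
  calc _ ≤ s * (q.den * I + 2 * L) + r * (I + L) := add_le_add h1 h2
    _ = (q.den * s + r) * I + 2 * L * s + L * r := by ring
    _ ≤ S * (I + ε) := by rw [hSR]; linarith

end Pool.Agent.H30.MZ
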